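import Pool.Agent.Helper1.SX.Stat

set_option autoImplicit false

/-!
# SX-D-03: local points; no rational points

`no_rat`: `q = a / b`, `a, b ≠ 0` integers: `(r b²)^2 = a^4 + b^4`, so `r b²` is a rational number whose square is an integer, an integer `c`, `a^4 + b^4 = c^2`: contradiction to `not_fermat_42`.
`exists_pt`: `a = p` (`p` as an element of `ℚ_[p]`), `1 + p^4` is a square of a unit of `ℤ_p`: Hensel for `X^2 - (1 + p^4)` at `1`: value `-p^4`, derivative `2`: `‖p^4‖ = p^(-4) < ‖2‖^2` (`‖2‖^2 = 1` or `1/4`, `2^(-4) < 1/4`).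
`exists_pt_unit`: `1^4 + 3^4 = 82 = 2·41`, `3^4 + 7^4 = 2482 = 2·17·73`, `4^4 + 15^4 = 50881 = 17·41·73`, product `= (2·17·41·73)^2`.  For `p ∉ {2, 3, 5, 7, 17, 41, 73}` the three numbers are units mod `p` with square product, so one of them is a
square mod `p` (Legendre symbols: `ZMod.quadraticChar` / `legendreSym` is multiplicative with values `±1`), and then a square of a unit `c` of `ℤ_p` (Hensel, `p` odd).  For `(x, y) = (1, 3), (3, 7), (4, 15)`: `a = x / y`, `b = c / y^2`; `x, y` are units at `p`.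
-/

namespace Pool.Agent.Helper1.SX

theorem hensAux (p : ℕ) [Fact p.Prime] (n a : ℤ_[p]) (h : ‖a ^ 2 - n‖ < ‖2 * a‖ ^ 2) :
    ∃ z : ℤ_[p], z ^ 2 = n := by
  have h1 : (Polynomial.X ^ 2 - Polynomial.C n : Polynomial ℤ_[p]).aeval a = a ^ 2 - n := by simp
  have h2 : (Polynomial.X ^ 2 - Polynomial.C n : Polynomial ℤ_[p]).derivative.aeval a = 2 * a := by
    simp
    left; norm_num
  have h3 := hensels_lemma (F := (Polynomial.X ^ 2 - Polynomial.C n : Polynomial ℤ_[p])) (a := a)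
    (by rw [h1, h2]; exact h)
  obtain ⟨z, hz, -⟩ := h3
  refine ⟨z, ?_⟩
  have h4 : (Polynomial.X ^ 2 - Polynomial.C n : Polynomial ℤ_[p]).aeval z = z ^ 2 - n := by simp
  rw [h4] at hz
  exact sub_eq_zero.1 hz

theorem unitAux (p : ℕ) [Fact p.Prime] (hp2 : p ≠ 2) (N : ℕ) (hN : ¬ p ∣ N)
    (hs : IsSquare ((N : ℕ) : ZMod p)) : ∃ z : ℚ_[p], ‖z‖ = 1 ∧ z ^ 2 = (N : ℚ_[p]) := by
  obtain ⟨c, hc⟩ := hs
  have hpp : p.Prime := Fact.out
  set m : ℕ := c.val with hm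
  have hmc : ((m : ℕ) : ZMod p) = c := by rw [hm]; simp
  have hdiv : (p : ℤ) ∣ ((m : ℤ) ^ 2 - (N : ℤ)) := by
    rw [← ZMod.intCast_zmod_eq_zero_iff_dvd]
    push_cast
    rw [hmc, hc]; ring
  have hmp : ¬ p ∣ m := by
    intro h
    apply hN
    have h1 : ((m : ℕ) : ZMod p) = 0 := (ZMod.natCast_eq_zero_iff m p).2 h
    have h2 : ((N : ℕ) : ZMod p) = 0 := by rw [hc, ← hmc, h1]; simp
    exact (ZMod.natCast_eq_zero_iff N p).1 h2
  have h1 : ‖((m : ℤ_[p]) ^ 2 - (N : ℤ_[p]))‖ < 1 := by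
    have := (PadicInt.norm_int_lt_one_iff_dvd (p := p) ((m : ℤ) ^ 2 - (N : ℤ))).2 hdiv
    push_cast at this
    exact this
  have h2 : ‖(2 * (m : ℤ_[p]))‖ = 1 := by
    have h3 : ¬ (p : ℤ) ∣ ((2 * m : ℕ) : ℤ) := by
      rw [Int.natCast_dvd_natCast]
      intro h
      rcases (Nat.Prime.dvd_mul hpp).1 h with h | h
      · exact hp2 ((Nat.prime_dvd_prime_iff_eq hpp Nat.prime_two).1 h)
      · exact hmp h
    have h4 : ¬ ‖(((2 * m : ℕ) : ℤ) : ℤ_[p])‖ < 1 := by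
      rw [PadicInt.norm_int_lt_one_iff_dvd]; exact h3
    have h5 : ‖(((2 * m : ℕ) : ℤ) : ℤ_[p])‖ ≤ 1 := PadicInt.norm_le_one _
    have h6 : ‖(((2 * m : ℕ) : ℤ) : ℤ_[p])‖ = 1 := le_antisymm h5 (not_lt.1 h4)
    push_cast at h6
    exact h6
  obtain ⟨z, hz⟩ := hensAux p (N : ℤ_[p]) (m : ℤ_[p]) (by rw [h2]; simpa using h1)
  have hNn : ‖((N : ℕ) : ℤ_[p])‖ = 1 := by
    have h4 : ¬ ‖((N : ℤ) : ℤ_[p])‖ < 1 := by
      rw [PadicInt.norm_int_lt_one_iff_dvd, Int.natCast_dvd_natCast]; exact hN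
    have h5 : ‖((N : ℤ) : ℤ_[p])‖ ≤ 1 := PadicInt.norm_le_one _
    have h6 : ‖((N : ℤ) : ℤ_[p])‖ = 1 := le_antisymm h5 (not_lt.1 h4)
    push_cast at h6
    exact h6
  have hzn : ‖z‖ = 1 := by
    have h7 : ‖z‖ ^ 2 = 1 := by rw [← norm_pow, hz, hNn]
    have h8 : 0 ≤ ‖z‖ := norm_nonneg _
    nlinarith
  refine ⟨(z : ℚ_[p]), ?_, ?_⟩
  · rw [← PadicInt.norm_def]; exact hzn
  · have := congrArg (fun t : ℤ_[p] => (t : ℚ_[p])) hz
    push_cast at this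
    exact this

theorem sqAux (p : ℕ) [Fact p.Prime] (a b c d : ZMod p) (ha : a ≠ 0) (hb : b ≠ 0) (hc : c ≠ 0)
    (h : a * b * c = d ^ 2) : IsSquare a ∨ IsSquare b ∨ IsSquare c := by
  classical
  have hd : d ≠ 0 := by
    rintro rfl
    have : a * b * c = 0 := by rw [h]; ring
    rcases mul_eq_zero.1 this with h1 | h1
    · rcases mul_eq_zero.1 h1 with h2 | h2
      · exact ha h2
      · exact hb h2
    · exact hc h1
  have h1 : quadraticChar (ZMod p) a * quadraticChar (ZMod p) b * quadraticChar (ZMod p) c = 1 := by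
    rw [← map_mul, ← map_mul, h]
    exact quadraticChar_sq_one' hd
  rcases quadraticChar_dichotomy ha with h2 | h2
  · left; exact (quadraticChar_one_iff_isSquare ha).1 h2
  · rcases quadraticChar_dichotomy hb with h3 | h3
    · right; left; exact (quadraticChar_one_iff_isSquare hb).1 h3
    · rcases quadraticChar_dichotomy hc with h4 | h4
      · right; right; exact (quadraticChar_one_iff_isSquare hc).1 h4
      · rw [h2, h3, h4] at h1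
        norm_num at h1

theorem ptAux (p : ℕ) [Fact p.Prime] (x y N : ℕ) (hx : ¬ p ∣ x) (hy : ¬ p ∣ y)
    (hN : N = x ^ 4 + y ^ 4) (h : ∃ z : ℚ_[p], ‖z‖ = 1 ∧ z ^ 2 = (N : ℚ_[p])) :
    ∃ a b : ℚ_[p], ‖a‖ = 1 ∧ ‖b‖ = 1 ∧ b ^ 2 = a ^ 4 + 1 := by
  obtain ⟨z, hz1, hz2⟩ := h
  have hun : ∀ t : ℕ, ¬ p ∣ t → ‖(t : ℚ_[p])‖ = 1 := by
    intro t ht
    have h4 : ¬ ‖((t : ℤ) : ℤ_[p])‖ < 1 := by
      rw [PadicInt.norm_int_lt_one_iff_dvd, Int.natCast_dvd_natCast]; exact ht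
    have h5 : ‖((t : ℤ) : ℤ_[p])‖ ≤ 1 := PadicInt.norm_le_one _
    have h6 : ‖((t : ℤ) : ℤ_[p])‖ = 1 := le_antisymm h5 (not_lt.1 h4)
    rw [PadicInt.norm_def] at h6
    push_cast at h6
    exact h6
  have hx1 := hun x hx
  have hy1 := hun y hy
  have hy0 : (y : ℚ_[p]) ≠ 0 := by
    intro h0
    rw [h0, norm_zero] at hy1
    exact zero_ne_one hy1
  refine ⟨(x : ℚ_[p]) / y, z / (y : ℚ_[p]) ^ 2, ?_, ?_, ?_⟩
  · rw [norm_div, hx1, hy1]; norm_num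
  · rw [norm_div, norm_pow, hz1, hy1]; norm_num
  · rw [div_pow, hz2, hN]
    push_cast
    field_simp

theorem no_rat (q r : ℚ) (hq : q ≠ 0) : r ^ 2 ≠ q ^ 4 + 1 := by
  intro h
  set a : ℤ := q.num with ha
  set b : ℤ := (q.den : ℤ) with hb
  have hb0 : b ≠ 0 := by rw [hb]; exact_mod_cast q.den_nz
  have ha0 : a ≠ 0 := by rw [ha]; exact Rat.num_ne_zero.2 hq
  have hbq : (b : ℚ) ≠ 0 := by exact_mod_cast hb0
  have hq2 : q = (a : ℚ) / (b : ℚ) := by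
    rw [ha, hb]; push_cast; exact (Rat.num_div_den q).symm
  have h1 : (r * (b : ℚ) ^ 2) * (r * (b : ℚ) ^ 2) = ((a ^ 4 + b ^ 4 : ℤ) : ℚ) := by
    have : (r * (b : ℚ) ^ 2) * (r * (b : ℚ) ^ 2) = r ^ 2 * (b : ℚ) ^ 4 := by ring
    rw [this, h, hq2]
    push_cast
    field_simp
  have h2 : IsSquare (((a ^ 4 + b ^ 4 : ℤ)) : ℚ) := ⟨_, h1.symm⟩
  rw [Rat.isSquare_intCast_iff] at h2
  obtain ⟨c, hc⟩ := h2
  exact not_fermat_42 ha0 hb0 (c := c) (by rw [hc]; ring)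

theorem exists_pt (p : ℕ) [Fact p.Prime] :
    ∃ a b : ℚ_[p], a ≠ 0 ∧ b ≠ 0 ∧ b ^ 2 = a ^ 4 + 1 := by
  have hpp : p.Prime := Fact.out
  have hp0 : (0:ℝ) < (p:ℝ) := by exact_mod_cast hpp.pos
  have hp1 : (2:ℝ) ≤ (p:ℝ) := by exact_mod_cast hpp.two_le
  have hinv : ((p:ℝ))⁻¹ ≤ 1/2 := by
    rw [one_div]; exact inv_anti₀ (by norm_num) hp1
  have hinv0 : 0 < ((p:ℝ))⁻¹ := inv_pos.2 hp0
  have hn2 : (1/2 : ℝ) ≤ ‖((2:ℤ_[p]))‖ := by
    by_cases h2 : p = 2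
    · subst h2
      have : ‖((2:ℕ) : ℤ_[2])‖ = ((2:ℕ):ℝ)⁻¹ := PadicInt.norm_p
      push_cast at this
      rw [this]; norm_num
    · have h4 : ¬ ‖((2 : ℤ) : ℤ_[p])‖ < 1 := by
        rw [PadicInt.norm_int_lt_one_iff_dvd]
        intro h
        have h' : p ∣ 2 := by exact_mod_cast h
        exact h2 ((Nat.prime_dvd_prime_iff_eq hpp Nat.prime_two).1 h')
      push_cast at h4
      linarith [not_lt.1 h4]
  have hpow : ‖((p : ℤ_[p])) ^ 4‖ = ((p:ℝ)⁻¹) ^ 4 := by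
    rw [norm_pow, PadicInt.norm_p]
  obtain ⟨z, hz⟩ := hensAux p (1 + (p : ℤ_[p]) ^ 4) 1 (by
    have h1 : ((1 : ℤ_[p]) ^ 2 - (1 + (p : ℤ_[p]) ^ 4)) = -((p : ℤ_[p]) ^ 4) := by ring
    rw [h1, norm_neg, hpow, mul_one]
    have h3 : ((p:ℝ)⁻¹) ^ 4 ≤ (1/2 : ℝ) ^ 4 := pow_le_pow_left₀ hinv0.le hinv 4
    have h4 : (1/2:ℝ) ^ 2 ≤ ‖((2:ℤ_[p]))‖ ^ 2 := pow_le_pow_left₀ (by norm_num) hn2 2
    have h5 : ((1:ℝ)/2) ^ 4 < (1/2) ^ 2 := by norm_num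
    linarith)
  have hz' : ((z : ℤ_[p]) : ℚ_[p]) ^ 2 = (p : ℚ_[p]) ^ 4 + 1 := by
    have := congrArg (fun t : ℤ_[p] => (t : ℚ_[p])) hz
    push_cast at this
    rw [this]; ring
  have hpn : (p : ℚ_[p]) ≠ 0 := by exact_mod_cast hpp.ne_zero
  refine ⟨(p : ℚ_[p]), (z : ℚ_[p]), hpn, ?_, hz'⟩
  intro h0
  rw [h0] at hz'
  have h1 : ((p ^ 4 + 1 : ℕ) : ℚ_[p]) = 0 := by
    push_cast
    rw [← hz']; ring
  have h2 : p ^ 4 + 1 = 0 := by exact_mod_cast h1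
  omega

theorem exists_pt_unit (p : ℕ) [Fact p.Prime] (hp : p ∉ ({2, 3, 5, 7, 17, 41, 73} : Finset ℕ)) :
    ∃ a b : ℚ_[p], ‖a‖ = 1 ∧ ‖b‖ = 1 ∧ b ^ 2 = a ^ 4 + 1 := by
  have hpp : p.Prime := Fact.out
  have hnd : ∀ q : ℕ, q.Prime → p ≠ q → ¬ p ∣ q := fun q hq hne h =>
    hne ((Nat.prime_dvd_prime_iff_eq hpp hq).1 h)
  simp only [Finset.mem_insert, Finset.mem_singleton, not_or] at hp
  obtain ⟨p2, p3, p5, p7, p17, p41, p73⟩ := hp
  have d2 := hnd 2 (by norm_num) p2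
  have d3 := hnd 3 (by norm_num) p3
  have d5 := hnd 5 (by norm_num) p5
  have d7 := hnd 7 (by norm_num) p7
  have d17 := hnd 17 (by norm_num) p17
  have d41 := hnd 41 (by norm_num) p41
  have d73 := hnd 73 (by norm_num) p73
  have dm : ∀ s t : ℕ, ¬ p ∣ s → ¬ p ∣ t → ¬ p ∣ s * t := fun s t hs ht h => by
    rcases (Nat.Prime.dvd_mul hpp).1 h with h | h
    · exact hs h
    · exact ht h
  have d1 : ¬ p ∣ 1 := hpp.one_lt.ne' ∘ Nat.dvd_one.1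
  have d4 : ¬ p ∣ 4 := by have := dm 2 2 d2 d2; simpa using this
  have d15 : ¬ p ∣ 15 := by have := dm 3 5 d3 d5; simpa using this
  have dA : ¬ p ∣ 82 := by have := dm 2 41 d2 d41; simpa using this
  have dB : ¬ p ∣ 2482 := by have := dm (2 * 17) 73 (dm 2 17 d2 d17) d73; simpa using this
  have dC : ¬ p ∣ 50881 := by have := dm (17 * 41) 73 (dm 17 41 d17 d41) d73; simpa using this
  have key := sqAux p ((82 : ℕ) : ZMod p) ((2482 : ℕ) : ZMod p) ((50881 : ℕ) : ZMod p)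
    ((101762 : ℕ) : ZMod p)
    (fun h => dA ((ZMod.natCast_eq_zero_iff _ p).1 h))
    (fun h => dB ((ZMod.natCast_eq_zero_iff _ p).1 h))
    (fun h => dC ((ZMod.natCast_eq_zero_iff _ p).1 h))
    (by rw [← Nat.cast_mul, ← Nat.cast_mul, ← Nat.cast_pow]; norm_num)
  rcases key with h | h | h
  · exact ptAux p 1 3 82 d1 d3 (by norm_num) (unitAux p p2 82 dA h)
  · exact ptAux p 3 7 2482 d3 d7 (by norm_num) (unitAux p p2 2482 dB h)
  · exact ptAux p 4 15 50881 d4 d15 (by norm_num) (unitAux p p2 50881 dC h)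

end Pool.Agent.Helper1.SX
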