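import Pool.Agent.Helper1.SX.Curve
import Pool.Agent.Helper1.SX.LocPts

set_option autoImplicit false

/-!
# SX-D-04: adelic points exist; units of the coordinate ring

`adPt_nonempty`: for `p` outside the finite set `{2, 3, 5, 7, 17, 41, 73}` take `a, b` from `exists_pt_unit`, otherwise from `exists_pt`; real: `a = 1`, `b = √2`; `exists_hom` gives the homomorphisms.
`int`: the set of `r ∈ Rc u w` with `{p | ¬ ‖fin p r‖ ≤ 1}` finite is closed under sums and products (ultrametric), contains the constants (a rational number is integral at almost all `p`;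
`fin p` of a constant `c` is `(c : ℚ_[p])`: `map_ratCast`), and `u, w, u⁻¹, w⁻¹` (norm `1` outside a finite set): `Algebra.adjoin_induction`.
-/

namespace Pool.Agent.Helper1.SX

private theorem fin_primes (S : Finset ℕ) : {p : Nat.Primes | (p : ℕ) ∈ S}.Finite :=
  Set.Finite.preimage (Nat.Primes.coe_nat_injective.injOn) S.finite_toSet

private theorem fin_int {Ω : Type} [Field Ω] [Algebra ℚ Ω] (u w : Ω) (hu0 : u ≠ 0) (hw0 : w ≠ 0)
    (S : Finset ℕ) (f : ∀ p : Nat.Primes, Rc u w →+* ℚ_[p])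
    (hf : ∀ p : Nat.Primes, (p : ℕ) ∉ S →
      ‖f p ⟨u, u_mem u w⟩‖ = 1 ∧ ‖f p ⟨w, w_mem u w⟩‖ = 1) (x : Ω) (hx : x ∈ Rc u w) :
    {p | ¬ ‖f p ⟨x, hx⟩‖ ≤ 1}.Finite := by
  have hSf := fin_primes S
  induction hx using Algebra.adjoin_induction with
  | mem x hx =>
    refine hSf.subset fun p hp => ?_
    by_contra hpS
    obtain ⟨h1, h2⟩ := hf p hpS
    apply hp
    rcases hx with rfl | rfl | rfl | hx
    · exact h1.le
    · exact h2.le
    · have h3 : f p ⟨u⁻¹, u_inv_mem u w⟩ * f p ⟨u, u_mem u w⟩ = 1 := by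
        rw [← map_mul, ← map_one (f p)]
        congr 1
        exact Subtype.ext (inv_mul_cancel₀ hu0)
      have h4 := congrArg norm h3
      rw [norm_mul, h1, mul_one, norm_one] at h4
      exact h4.le
    · rw [Set.mem_singleton_iff] at hx
      subst hx
      have h3 : f p ⟨w⁻¹, w_inv_mem u w⟩ * f p ⟨w, w_mem u w⟩ = 1 := by
        rw [← map_mul, ← map_one (f p)]
        congr 1
        exact Subtype.ext (inv_mul_cancel₀ hw0)
      have h4 := congrArg norm h3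
      rw [norm_mul, h2, mul_one, norm_one] at h4
      exact h4.le
  | algebraMap r =>
    refine (fin_primes r.den.primeFactors).subset fun p hp => ?_
    by_contra hpS
    apply hp
    have h1 : f p ⟨algebraMap ℚ Ω r, Subalgebra.algebraMap_mem _ r⟩ = (r : ℚ_[p]) :=
      eq_ratCast ((f p).comp (algebraMap ℚ (Rc u w))) r
    change ‖f p ⟨algebraMap ℚ Ω r, Subalgebra.algebraMap_mem _ r⟩‖ ≤ 1
    rw [h1]
    refine Padic.norm_rat_le_one fun h => hpS ?_
    exact Nat.mem_primeFactors.2 ⟨p.2, h, r.den_nz⟩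
  | add x y hx hy ihx ihy =>
    refine (ihx.union ihy).subset fun p hp => ?_
    by_contra hpS
    rw [Set.mem_union, not_or] at hpS
    have h1 : ‖f p ⟨x, hx⟩‖ ≤ 1 := not_not.1 hpS.1
    have h2 : ‖f p ⟨y, hy⟩‖ ≤ 1 := not_not.1 hpS.2
    apply hp
    have h3 : f p ⟨x + y, Subalgebra.add_mem _ hx hy⟩ = f p ⟨x, hx⟩ + f p ⟨y, hy⟩ :=
      (map_add (f p) (⟨x, hx⟩ : Rc u w) ⟨y, hy⟩)
    change ‖f p ⟨x + y, Subalgebra.add_mem _ hx hy⟩‖ ≤ 1
    rw [h3]
    exact (Padic.nonarchimedean _ _).trans (max_le h1 h2)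
  | mul x y hx hy ihx ihy =>
    refine (ihx.union ihy).subset fun p hp => ?_
    by_contra hpS
    rw [Set.mem_union, not_or] at hpS
    have h1 : ‖f p ⟨x, hx⟩‖ ≤ 1 := not_not.1 hpS.1
    have h2 : ‖f p ⟨y, hy⟩‖ ≤ 1 := not_not.1 hpS.2
    apply hp
    have h3 : f p ⟨x * y, Subalgebra.mul_mem _ hx hy⟩ = f p ⟨x, hx⟩ * f p ⟨y, hy⟩ :=
      (map_mul (f p) (⟨x, hx⟩ : Rc u w) ⟨y, hy⟩)
    change ‖f p ⟨x * y, Subalgebra.mul_mem _ hx hy⟩‖ ≤ 1
    rw [h3, norm_mul]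
    exact mul_le_one₀ h1 (norm_nonneg _) h2

theorem adPt_nonempty {Ω : Type} [Field Ω] [Algebra ℚ Ω] (u w : Ω)
    (hu : Transcendental ℚ u) (hw : w ^ 2 = u ^ 4 + 1) : Nonempty (AdPt (Rc u w)) := by
  have hu0 : u ≠ 0 := by
    rintro rfl
    exact hu isAlgebraic_zero
  have hex : ∀ p : Nat.Primes, ∃ f : Rc u w →+* ℚ_[p],
      (p : ℕ) ∉ ({2, 3, 5, 7, 17, 41, 73} : Finset ℕ) →
        ‖f ⟨u, u_mem u w⟩‖ = 1 ∧ ‖f ⟨w, w_mem u w⟩‖ = 1 := by
    intro p
    by_cases hp : (p : ℕ) ∈ ({2, 3, 5, 7, 17, 41, 73} : Finset ℕ)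
    · obtain ⟨a, b, ha, hb, hab⟩ := exists_pt p
      obtain ⟨f, -, -⟩ := exists_hom u w hu hw a b ha hb hab
      exact ⟨f, fun h => absurd hp h⟩
    · obtain ⟨a, b, ha, hb, hab⟩ := exists_pt_unit p hp
      have ha0 : a ≠ 0 := by
        rintro rfl
        rw [norm_zero] at ha
        exact zero_ne_one ha
      have hb0 : b ≠ 0 := by
        rintro rfl
        rw [norm_zero] at hb
        exact zero_ne_one hb
      obtain ⟨f, h1, h2⟩ := exists_hom u w hu hw a b ha0 hb0 hab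
      exact ⟨f, fun _ => ⟨by rw [h1, ha], by rw [h2, hb]⟩⟩
  choose f hf using hex
  obtain ⟨g, -, hg⟩ := exists_hom u w hu hw (1 : ℝ) (√2) one_ne_zero
    (Real.sqrt_ne_zero'.2 two_pos) (by rw [Real.sq_sqrt zero_le_two]; norm_num)
  have hw0 : w ≠ 0 := by
    rintro rfl
    have h1 : g ⟨0, w_mem u 0⟩ = 0 := map_zero g
    rw [h1] at hg
    exact (Real.sqrt_ne_zero'.2 two_pos) hg.symm
  exact ⟨⟨f, g, fun r => fin_int u w hu0 hw0 _ f hf r.1 r.2⟩⟩

/-- the unit `u` -/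
def uU {Ω : Type} [Field Ω] [Algebra ℚ Ω] (u w : Ω) (hu : u ≠ 0) : (Rc u w)ˣ where
  val := ⟨u, u_mem u w⟩
  inv := ⟨u⁻¹, u_inv_mem u w⟩
  val_inv := Subtype.ext (mul_inv_cancel₀ hu)
  inv_val := Subtype.ext (inv_mul_cancel₀ hu)

/-- the unit `w` -/
def wU {Ω : Type} [Field Ω] [Algebra ℚ Ω] (u w : Ω) (hw : w ≠ 0) : (Rc u w)ˣ where
  val := ⟨w, w_mem u w⟩
  inv := ⟨w⁻¹, w_inv_mem u w⟩
  val_inv := Subtype.ext (mul_inv_cancel₀ hw)
  inv_val := Subtype.ext (inv_mul_cancel₀ hw)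

end Pool.Agent.Helper1.SX
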