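import Pool.Agent.Helper1.SX.Two

set_option autoImplicit false

/-!
# SX-C-03: approximation of units of `ℤ_3` by powers of `2`

`exists_two_approx`: `PadicInt.toZModPow (n + 1)` maps `u` to a unit of `ZMod (3^(n+1))`, which is `2^s` (`exists_two_pow`); the kernel of `toZModPow` is `span {3^(n+1)}` (`PadicInt.ker_toZModPow`).
`two_pow_sub_one`: `two_pow_eq_one` and the same kernel.  `eq_one_of_dvd`: an element of `ℤ_[3]` divisible by all powers of `3` is `0` (norm `≤ 3^(-(n+1))` for all `n`).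
-/

namespace Pool.Agent.Helper1.SX

theorem exists_two_approx (n : ℕ) (u : ℤ_[3]) (hu : IsUnit u) :
    ∃ s : ℕ, (3 : ℤ_[3]) ^ (n + 1) ∣ u - 2 ^ s := by
  sorry

theorem two_pow_sub_one (n s : ℕ) (h : 2 * 3 ^ n ∣ s) : (3 : ℤ_[3]) ^ (n + 1) ∣ 2 ^ s - 1 := by
  sorry

theorem eq_one_of_dvd (u : ℤ_[3]) (h : ∀ n : ℕ, (3 : ℤ_[3]) ^ (n + 1) ∣ u - 1) : u = 1 := by
  sorry

end Pool.Agent.Helper1.SX
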