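import Pool.Agent.Helper1.SX.Idele
import Pool.Agent.Helper1.SX.AdPts

set_option autoImplicit false

/-!
# SX-D-05: the Brauer-Manin set is empty

PROOF.  Let `P ∈ BM (Rc u w) I`.  For a unit `x` of `Rc u w` put `x p = Units.map (P.fin p) x`, `y = Units.map P.real x`.  `‖x p‖ = 1` for almost all `p` (`P.int` for `x` and `x⁻¹`).  By `brc_map`
`Br.map (P.fin p) (brc n (Rc u w) x) = brc n ℚ_[p] (x p)`, so `Orth I P (brc n (Rc u w) x)` is the hypothesis of `idele_rat`.  So `P.fin 3 x` is rational.  For `x = u` and `x = w`: `q, r ∈ ℚ`, `r² = q⁴ + 1` (the relation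
`w² = u⁴ + 1` in `Rc u w`, `ℚ → ℚ_[3]` injective), `q ≠ 0`: contradiction to `no_rat`.  (`u ≠ 0`, `w ≠ 0`: `u` transcendental; `w = 0` gives `u^4 = -1` algebraic.)
-/

namespace Pool.Agent.Helper1.SX

open Pool.Agent.Helper8.BR

theorem bm_empty {Ω : Type} [Field Ω] [Algebra ℚ Ω] (u w : Ω) (hu : Transcendental ℚ u)
    (hw : w ^ 2 = u ^ 4 + 1) (I : InvFam) : BM (Rc u w) I = ∅ := by
  sorry

end Pool.Agent.Helper1.SX
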