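import Pool.Agent.Helper1.SX.CycLift

set_option autoImplicit false

/-!
# SX-A-03: the cyclic algebra is Azumaya

PROOF.  `A = CA C x`.  `IsAzumaya`: `A` is finite free (so projective) and faithful (`R → A` injective: if `d ≥ 2`, `A` is free of rank `d² > 0`
... if `R` is trivial everything is trivial), and `AlgHom.mulLeftRight R A : A ⊗ Aᵐᵒᵖ → End_R A` is bijective.  Both sides are finite free of the same rank
`d⁴` over the commutative ring `R`, so it is enough to prove surjectivity (`OrzechProperty` / a surjective linear map between finite free modules of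
equal rank is bijective: compose with a linear equivalence and use `OrzechProperty.injective_of_surjective_endomorphism`).
Let `I` be the range, a subalgebra of `End_R A`.  It contains the left multiplications `a ↦ t a` and the right multiplications `a ↦ a t`.
(G1) As the matrix `V = (σ^i(e_k))` is invertible there are `a_k ∈ S` with `∑_k a_k σ^i(e_k) = δ_{i0}` (`i < d`).
The map `p_0 : a ↦ ∑_k ι(a_k) a ι(e_k)` is in `I`; for `a = ∑ s_i z^i` it is `∑_i s_i (∑_k a_k σ^i(e_k)) z^i = s_0`.  `z` is invertible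
(`z^d = x` a unit), so the maps `p_i : a ↦ p_0 (a z^{-i}) z^i` (`a ↦ s_i z^i`) are in `I`, and `∑ p_i = 1`.
(G2) Every `R`-linear `T : S → S` is `s ↦ ∑_i c_i σ^i(s)` for suitable `c_i ∈ S`: solve `∑_i c_i σ^i(e_k) = T(e_k)` (`V` invertible), `e` is a basis.
The map `a ↦ z^i a z^{-i}` is `s ↦ σ^i(s)` on `S = ι(S)`.  So for `R`-linear `T : S → S` the map `T' : a ↦ ι(T(s_0))` is in `I` (`∑_i ι(c_i) z^i p_0(a) z^{-i}`).
Any `f ∈ End_R A` is `∑_{i,j} p_j f p_i`, and `p_j f p_i` is `a ↦ T_{ij}(s_i) z^j` for an `R`-linear `T_{ij}`, i.e. `a ↦ T'_{ij}(a z^{-i}) z^j`: in `I`.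
-/

namespace Pool.Agent.Helper1.SX

variable {R S : Type} [CommRing R] [CommRing S] [Algebra R S]

open scoped TensorProduct

/-- the element with the single coefficient `s` at `i` -/
private noncomputable def sg (C : Cyc R S) (x : R) (i : ZMod C.d) (s : S) : CA C x :=
  (Pi.single i s : ZMod C.d → S)

/-- the coefficient at `i` -/
private def cf (C : Cyc R S) (x : R) (a : CA C x) (i : ZMod C.d) : S := (a : ZMod C.d → S) i

private theorem ca_ext (C : Cyc R S) (x : R) {a b : CA C x} (h : ∀ i, cf C x a i = cf C x b i) :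
    a = b := funext h

private theorem cf_sg (C : Cyc R S) (x : R) (i : ZMod C.d) (s : S) (j : ZMod C.d) :
    cf C x (sg C x i s) j = if j = i then s else 0 := by
  show (Pi.single i s : ZMod C.d → S) j = _
  rw [Pi.single_apply]

private theorem ι_eq (C : Cyc R S) (x : R) (s : S) : ι C x s = sg C x 0 s := rfl

private theorem ι_z (C : Cyc R S) (x : R) (s : S) (i : ZMod C.d) :
    ι C x s * zz C x ^ i.val = sg C x i s := ι_mul_z_pow C x s i

private theorem cf_add (C : Cyc R S) (x : R) (a b : CA C x) (i : ZMod C.d) :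
    cf C x (a + b) i = cf C x a i + cf C x b i := rfl

private theorem cf_sum (C : Cyc R S) (x : R) {κ : Type} (s : Finset κ) (F : κ → CA C x)
    (i : ZMod C.d) : cf C x (∑ k ∈ s, F k) i = ∑ k ∈ s, cf C x (F k) i := by
  exact Finset.sum_apply i s (fun k => (F k : ZMod C.d → S))

private theorem cf_ι_mul (C : Cyc R S) (x : R) (s : S) (a : CA C x) (m : ZMod C.d) :
    cf C x (ι C x s * a) m = s * cf C x a m := by
  show caMul C x (Pi.single 0 s) a m = _
  rw [caMul_single_left, wr_zero_left, map_one, mul_one, ZMod.val_zero, pow_zero, sub_zero]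
  rfl

private theorem cf_mul_ι (C : Cyc R S) (x : R) (a : CA C x) (u : S) (m : ZMod C.d) :
    cf C x (a * ι C x u) m = cf C x a m * (C.σ ^ m.val) u := by
  show caMul C x a (Pi.single 0 u) m = _
  unfold caMul
  rw [Finset.sum_eq_single m]
  · rw [sub_self, Pi.single_eq_same, wr_zero_right, map_one, mul_one]
    rfl
  · intro i _ hi
    rw [Pi.single_eq_of_ne (sub_ne_zero.mpr hi.symm), map_zero, mul_zero, zero_mul]
  · intro h
    exact absurd (Finset.mem_univ m) h

private theorem z_pow_ι (C : Cyc R S) (x : R) (n : ℕ) (s : S) :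
    zz C x ^ n * ι C x s = ι C x ((C.σ ^ n) s) * zz C x ^ n := by
  induction n generalizing s with
  | zero => simp
  | succ n ih =>
    rw [pow_succ, mul_assoc, z_comm, ← mul_assoc, ih, mul_assoc, ← pow_succ, pow_succ C.σ n]
    rfl

private theorem cf_mul_z (C : Cyc R S) (x : R) (b : CA C x) (i : ZMod C.d) :
    cf C x (b * zz C x ^ i.val) i = cf C x b 0 := by
  have h1 : zz C x ^ i.val = sg C x i 1 := by
    rw [← ι_z, map_one, one_mul]
  rw [h1]
  show caMul C x b (Pi.single i 1) i = _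
  unfold caMul
  rw [Finset.sum_eq_single 0]
  · rw [sub_zero, Pi.single_eq_same, wr_zero_left, map_one, map_one, mul_one, mul_one]
    rfl
  · intro j _ hj
    rw [Pi.single_eq_of_ne, map_zero, mul_zero, zero_mul]
    intro h
    apply hj
    have h2 : i - (i - j) = i - i := by rw [h]
    rw [sub_self] at h2
    rw [← h2]
    ring
  · intro h
    exact absurd (Finset.mem_univ _) h

private theorem z_unit (C : Cyc R S) (x : R) (hx : IsUnit x) : IsUnit (zz C x) := by
  have h := C.two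
  rw [← isUnit_pow_iff (n := C.d) (by omega), z_pow]
  exact hx.map (algebraMap R (CA C x))

/-- the range of `mulLeftRight` -/
private noncomputable def II (C : Cyc R S) (x : R) : Subalgebra R (Module.End R (CA C x)) :=
  (AlgHom.mulLeftRight R (CA C x)).range

private theorem left_mem (C : Cyc R S) (x : R) (t : CA C x) :
    LinearMap.mulLeft R t ∈ II C x := by
  refine ⟨t ⊗ₜ[R] 1, ?_⟩
  refine LinearMap.ext fun a => ?_
  show AlgHom.mulLeftRight R (CA C x) (t ⊗ₜ[R] 1) a = t * a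
  rw [AlgHom.mulLeftRight_apply, MulOpposite.unop_one, mul_one]

private theorem right_mem (C : Cyc R S) (x : R) (t : CA C x) :
    LinearMap.mulRight R t ∈ II C x := by
  refine ⟨1 ⊗ₜ[R] MulOpposite.op t, ?_⟩
  refine LinearMap.ext fun a => ?_
  show AlgHom.mulLeftRight R (CA C x) (1 ⊗ₜ[R] MulOpposite.op t) a = a * t
  rw [AlgHom.mulLeftRight_apply, MulOpposite.unop_op, one_mul]

/-- the projection to the coefficient `i`, followed by an `R`-linear map `T` and the inclusion at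
the coefficient `j` -/
private noncomputable def pr (C : Cyc R S) (x : R) (T : S →ₗ[R] S) (i j : ZMod C.d) :
    Module.End R (CA C x) :=
  (show (ZMod C.d → S) →ₗ[R] (ZMod C.d → S) from
    (LinearMap.single R (fun _ : ZMod C.d => S) j) ∘ₗ T ∘ₗ
      (LinearMap.proj i : (ZMod C.d → S) →ₗ[R] S))

private theorem pr_apply (C : Cyc R S) (x : R) (T : S →ₗ[R] S) (i j : ZMod C.d) (a : CA C x) :
    pr C x T i j a = sg C x j (T (cf C x a i)) := rfl

private theorem pr00_mem (C : Cyc R S) (e : Module.Basis (Fin C.d) R S)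
    (hV : IsUnit (Matrix.of fun i k : Fin C.d => (C.σ ^ (i : ℕ)) (e k)).det) (x : R) :
    pr C x LinearMap.id 0 0 ∈ II C x := by
  classical
  set V : Matrix (Fin C.d) (Fin C.d) S := Matrix.of fun i k : Fin C.d => (C.σ ^ (i : ℕ)) (e k)
    with hVd
  have hd : 0 < C.d := by have := C.two; omega
  let w : Fin C.d → S := Pi.single ⟨0, hd⟩ 1
  let α : Fin C.d → S := V⁻¹.mulVec w
  have hα : V.mulVec α = w := by
    show V.mulVec (V⁻¹.mulVec w) = w
    rw [Matrix.mulVec_mulVec, Matrix.mul_nonsing_inv _ hV, Matrix.one_mulVec]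
  have hα' : ∀ m : ZMod C.d, ∑ k, α k * (C.σ ^ m.val) (e k) = if m = 0 then 1 else 0 := by
    intro m
    have h1 := congrFun hα ⟨m.val, ZMod.val_lt m⟩
    have h2 : V.mulVec α ⟨m.val, ZMod.val_lt m⟩ = ∑ k, α k * (C.σ ^ m.val) (e k) := by
      show ∑ k, (C.σ ^ m.val) (e k) * α k = _
      exact Finset.sum_congr rfl fun k _ => mul_comm _ _
    rw [← h2, h1]
    show (Pi.single (⟨0, hd⟩ : Fin C.d) (1 : S) : Fin C.d → S) ⟨m.val, ZMod.val_lt m⟩ = _
    rw [Pi.single_apply]
    by_cases hm : m = 0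
    · rw [if_pos hm, if_pos]
      rw [Fin.mk.injEq, hm, ZMod.val_zero]
    · rw [if_neg hm, if_neg]
      rw [Fin.mk.injEq, ZMod.val_eq_zero]
      exact hm
  have hs : ∑ k, (LinearMap.mulLeft R (ι C x (α k))) * (LinearMap.mulRight R (ι C x (e k))) ∈
      II C x :=
    Subalgebra.sum_mem _ fun k _ => Subalgebra.mul_mem _ (left_mem C x _) (right_mem C x _)
  convert hs using 1
  refine LinearMap.ext fun a => ?_
  rw [LinearMap.sum_apply, pr_apply]
  refine ca_ext C x fun m => ?_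
  rw [cf_sum, cf_sg]
  have h3 : ∀ k, cf C x ((LinearMap.mulLeft R (ι C x (α k)) *
      LinearMap.mulRight R (ι C x (e k))) a) m = cf C x a m * (α k * (C.σ ^ m.val) (e k)) := by
    intro k
    show cf C x (ι C x (α k) * (a * ι C x (e k))) m = _
    rw [cf_ι_mul, cf_mul_ι]
    ring
  rw [Finset.sum_congr rfl fun k _ => h3 k, ← Finset.mul_sum, hα']
  by_cases hm : m = 0
  · rw [if_pos hm, if_pos hm, mul_one, hm]
    rfl
  · rw [if_neg hm, if_neg hm, mul_zero]

private theorem exists_coef (C : Cyc R S) (e : Module.Basis (Fin C.d) R S)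
    (hV : IsUnit (Matrix.of fun i k : Fin C.d => (C.σ ^ (i : ℕ)) (e k)).det) (T : S →ₗ[R] S) :
    ∃ c : Fin C.d → S, ∀ s, T s = ∑ i, c i * (C.σ ^ (i : ℕ)) s := by
  classical
  set V : Matrix (Fin C.d) (Fin C.d) S := Matrix.of fun i k : Fin C.d => (C.σ ^ (i : ℕ)) (e k)
    with hVd
  let w : Fin C.d → S := fun k => T (e k)
  refine ⟨Matrix.vecMul w V⁻¹, ?_⟩
  have hc : Matrix.vecMul (Matrix.vecMul w V⁻¹) V = w := by
    rw [Matrix.vecMul_vecMul, Matrix.nonsing_inv_mul _ hV, Matrix.vecMul_one]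
  let T2 : S →ₗ[R] S := ∑ i, (LinearMap.mulLeft R (Matrix.vecMul w V⁻¹ i)) ∘ₗ
    (C.σ ^ (i : ℕ) : S ≃ₐ[R] S).toLinearMap
  have hT2 : ∀ s, T2 s = ∑ i, Matrix.vecMul w V⁻¹ i * (C.σ ^ (i : ℕ)) s := by
    intro s
    show (∑ i, (LinearMap.mulLeft R (Matrix.vecMul w V⁻¹ i)) ∘ₗ
      (C.σ ^ (i : ℕ) : S ≃ₐ[R] S).toLinearMap) s = _
    rw [LinearMap.sum_apply]
    rfl
  have h1 : T = T2 := by
    refine e.ext fun k => ?_
    rw [hT2]
    exact (congrFun hc k).symm
  intro s
  rw [← hT2, ← h1]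

private theorem pr0_mem (C : Cyc R S) (e : Module.Basis (Fin C.d) R S)
    (hV : IsUnit (Matrix.of fun i k : Fin C.d => (C.σ ^ (i : ℕ)) (e k)).det) (x : R)
    (hx : IsUnit x) (T : S →ₗ[R] S) : pr C x T 0 0 ∈ II C x := by
  classical
  obtain ⟨u, hu⟩ := z_unit C x hx
  obtain ⟨c, hc⟩ := exists_coef C e hV T
  have hs : ∑ i : Fin C.d, (LinearMap.mulLeft R (ι C x (c i) * zz C x ^ (i : ℕ))) *
      ((LinearMap.mulRight R ((↑u⁻¹ : CA C x) ^ (i : ℕ))) * pr C x LinearMap.id 0 0) ∈
      II C x :=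
    Subalgebra.sum_mem _ fun k _ => Subalgebra.mul_mem _ (left_mem C x _)
      (Subalgebra.mul_mem _ (right_mem C x _) (pr00_mem C e hV x))
  convert hs using 1
  refine LinearMap.ext fun a => ?_
  rw [LinearMap.sum_apply, pr_apply]
  have h3 : ∀ i : Fin C.d, ((LinearMap.mulLeft R (ι C x (c i) * zz C x ^ (i : ℕ))) *
      ((LinearMap.mulRight R ((↑u⁻¹ : CA C x) ^ (i : ℕ))) * pr C x LinearMap.id 0 0)) a =
      ι C x (c i * (C.σ ^ (i : ℕ)) (cf C x a 0)) := by
    intro i
    show ι C x (c i) * zz C x ^ (i : ℕ) * (ι C x (cf C x a 0) * (↑u⁻¹ : CA C x) ^ (i : ℕ)) = _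
    have h4 : zz C x ^ (i : ℕ) * (↑u⁻¹ : CA C x) ^ (i : ℕ) = 1 := by
      rw [← hu, ← Units.val_pow_eq_pow_val, ← Units.val_pow_eq_pow_val, ← Units.val_mul,
        inv_pow, mul_inv_cancel, Units.val_one]
    have h5 : ι C x (c i) * zz C x ^ (i : ℕ) * (ι C x (cf C x a 0) * (↑u⁻¹ : CA C x) ^ (i : ℕ)) =
        ι C x (c i) * (zz C x ^ (i : ℕ) * ι C x (cf C x a 0)) * (↑u⁻¹ : CA C x) ^ (i : ℕ) := by
      simp only [mul_assoc]
    have h6 : ι C x (c i) * (ι C x ((C.σ ^ (i : ℕ)) (cf C x a 0)) * zz C x ^ (i : ℕ)) *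
        (↑u⁻¹ : CA C x) ^ (i : ℕ) = ι C x (c i) * ι C x ((C.σ ^ (i : ℕ)) (cf C x a 0)) *
        (zz C x ^ (i : ℕ) * (↑u⁻¹ : CA C x) ^ (i : ℕ)) := by
      simp only [mul_assoc]
    rw [h5, z_pow_ι, h6, h4, mul_one, ← map_mul]
  rw [Finset.sum_congr rfl fun i _ => h3 i, ← map_sum, ← hc, ι_eq]

private theorem pr_mem (C : Cyc R S) (e : Module.Basis (Fin C.d) R S)
    (hV : IsUnit (Matrix.of fun i k : Fin C.d => (C.σ ^ (i : ℕ)) (e k)).det) (x : R)
    (hx : IsUnit x) (T : S →ₗ[R] S) (i j : ZMod C.d) : pr C x T i j ∈ II C x := by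
  obtain ⟨u, hu⟩ := z_unit C x hx
  have hs : LinearMap.mulRight R (zz C x ^ j.val) * (pr C x T 0 0 *
      LinearMap.mulRight R ((↑u⁻¹ : CA C x) ^ i.val)) ∈ II C x :=
    Subalgebra.mul_mem _ (right_mem C x _)
      (Subalgebra.mul_mem _ (pr0_mem C e hV x hx T) (right_mem C x _))
  convert hs using 1
  refine LinearMap.ext fun a => ?_
  rw [pr_apply]
  show _ = sg C x 0 (T (cf C x (a * (↑u⁻¹ : CA C x) ^ i.val) 0)) * zz C x ^ j.val
  have h4 : (↑u⁻¹ : CA C x) ^ i.val * zz C x ^ i.val = 1 := by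
    rw [← hu, ← Units.val_pow_eq_pow_val, ← Units.val_pow_eq_pow_val, ← Units.val_mul,
      inv_pow, inv_mul_cancel, Units.val_one]
  rw [← cf_mul_z C x (a * (↑u⁻¹ : CA C x) ^ i.val) i, mul_assoc, h4, mul_one, ← ι_eq, ι_z]

private theorem sum_pr (C : Cyc R S) (x : R) (f : Module.End R (CA C x)) :
    ∃ T : ZMod C.d → ZMod C.d → (S →ₗ[R] S), f = ∑ i, ∑ j, pr C x (T i j) i j := by
  classical
  let T : ZMod C.d → ZMod C.d → (S →ₗ[R] S) := fun i j =>
    (LinearMap.proj j : (ZMod C.d → S) →ₗ[R] S) ∘ₗ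
      (show (ZMod C.d → S) →ₗ[R] (ZMod C.d → S) from f) ∘ₗ
        (LinearMap.single R (fun _ : ZMod C.d => S) i)
  have hT : ∀ i j s, T i j s = cf C x (f (sg C x i s)) j := fun i j s => rfl
  refine ⟨T, ?_⟩
  refine LinearMap.ext fun a => ?_
  rw [LinearMap.sum_apply]
  have h1 : a = ∑ i, sg C x i (cf C x a i) :=
    (Finset.univ_sum_single (a : ZMod C.d → S)).symm
  conv_lhs => rw [h1, map_sum]
  refine Finset.sum_congr rfl fun i _ => ?_
  rw [LinearMap.sum_apply]
  have h2 : ∀ b : CA C x, b = ∑ j, sg C x j (cf C x b j) := fun b =>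
    (Finset.univ_sum_single (b : ZMod C.d → S)).symm
  rw [h2 (f (sg C x i (cf C x a i)))]
  refine Finset.sum_congr rfl fun j _ => ?_
  rw [pr_apply, hT]

theorem ca_azumaya (C : Cyc R S) (hC : GalC C) (x : R) (hx : IsUnit x) :
    IsAzumaya R (CA C x) := by
  classical
  obtain ⟨e, hV⟩ := hC
  haveI : Module.Free R S := Module.Free.of_basis e
  haveI : Module.Finite R S := Module.Finite.of_basis e
  haveI : Module.Free R (CA C x) := inferInstance
  haveI : Module.Finite R (CA C x) := inferInstance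
  have hsurj : Function.Surjective (AlgHom.mulLeftRight R (CA C x)) := by
    intro f
    obtain ⟨T, rfl⟩ := sum_pr C x f
    exact Subalgebra.sum_mem (II C x) fun i _ => Subalgebra.sum_mem (II C x) fun j _ =>
      pr_mem C e hV x hx (T i j) i j
  have hd : 0 < C.d := by have := C.two; omega
  haveI : FaithfulSMul R (CA C x) := by
    refine ⟨fun {r r'} h => ?_⟩
    have h1 := h (sg C x 0 (e ⟨0, hd⟩))
    have h2 : r • e ⟨0, hd⟩ = r' • e ⟨0, hd⟩ := by
      have h3 := congrArg (fun a => cf C x a 0) h1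
      have h4 : ∀ t : R, cf C x (t • sg C x 0 (e ⟨0, hd⟩)) 0 = t • e ⟨0, hd⟩ := by
        intro t
        show t • (Pi.single 0 (e ⟨0, hd⟩) : ZMod C.d → S) 0 = _
        rw [Pi.single_eq_same]
      rw [← h4, ← h4]
      exact h3
    have h5 := congrArg (fun s => e.repr s ⟨0, hd⟩) h2
    simpa using h5
  refine { bij := ?_ }
  cases subsingleton_or_nontrivial R
  · haveI := Module.subsingleton R (CA C x ⊗[R] (CA C x)ᵐᵒᵖ)
    exact ⟨Function.injective_of_subsingleton _, hsurj⟩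
  · refine OrzechProperty.bijective_of_surjective_of_finrank_le
      (AlgHom.mulLeftRight R (CA C x)).toLinearMap hsurj ?_
    rw [Module.finrank_tensorProduct, Module.finrank_linearMap]
    have h6 : Module.finrank R (CA C x)ᵐᵒᵖ = Module.finrank R (CA C x) :=
      (MulOpposite.opLinearEquiv R : CA C x ≃ₗ[R] (CA C x)ᵐᵒᵖ).finrank_eq.symm
    rw [h6]

end Pool.Agent.Helper1.SX
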