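import Pool.Agent.Helper1.SX.CycLift
import Pool.Agent.Helper8.BR.Calc

set_option autoImplicit false

/-!
# SX-A-05: equality of the classes of two cyclic algebras over a field

`K` a field, `M / K` a field extension with `GalC C` (so `[M : K] = d`), `a, b ∈ K^*`.  If `CA C a` and `CA C b` are Brauer equivalent, then
`a = b Nm(c)` for some `c ∈ M^*`.
PROOF.  Both have dimension `d²`, so by `BrEq.same_size` there is `e : M_n(CA C a) ≃ M_n(CA C b)`, `n ≥ 1`.  Let `B = CA C b`, `Y = B^n` (columns), a left
`M_n(B)`-module and a right `B`-module, `K`-dimension `n d²`.  `E = e (E_11 ⊗ 1)` is an idempotent; the `e (E_ii)` are conjugate orthogonal idempotents with sum `1`, so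
`W = E Y` has `K`-dimension `d²`.  `CA C a` acts on `W` from the left by `α w = e(α E_11) w`, `B` from the right, the actions commute.
For `i < d` let `W_i = {w ∈ W : m w = w σ^i(m) for all m ∈ M}`.  By (G1) (see SX-A-03; `GalC`: the matrix `(σ^i(e_k))` is invertible) there is `ε = ∑_k a_k ⊗ e_k ∈ M ⊗ M` with
`∑_k a_k σ^i(e_k) = δ_{i0}`; `M ⊗ M → ∏_{i<d} M`, `x ⊗ y ↦ (x σ^i(y))_i` is injective (dimension and invertibility of the matrix), so
`(m ⊗ 1 - 1 ⊗ m) ε = 0`.  So the maps `q_i(w) = ∑_k a_k w σ^i(e_k)`... (apply `1 ⊗ σ^i` to `ε`) have values in `W_i`, and `∑_i q_i(w) = ∑_k a_k w Tr(e_k) = w` (because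
`∑_k a_k Tr(e_k) = ∑_i δ_{i0} = 1` and `Tr(e_k) = ∑_i σ^i(e_k) ∈ K`).  [Only needed: `W = ∑ W_i`.]  Left multiplication with `z_a` maps `W_i` bijectively to `W_(i-1)` or `W_(i+1)`
(indices mod `d`; `z_a m w = σ(m) z_a w`), so all `W_i` have the same `K`-dimension `δ`, and `d² = dim W ≤ d δ`, `δ ≥ d > 0`.  `W_0 ≠ 0`; take `0 ≠ w ∈ W_0`.
`W_0` is an `M`-vector space; it has `M`-dimension one: if the sum `∑ W_i` is direct (eigenspaces for different characters `σ^i` of `M`: linear independence) then `d δ = d²`, `δ = d`, `dim_M W_0 = 1`.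
`z_a w z_b⁻¹ ∈ W_0`, so `z_a w = (c w) z_b` with `c ∈ M`, `c ≠ 0`.  Iterating `z_a^j w = (c σ(c) ... σ^(j-1)(c) w) z_b^j` (`z_a (m w) = σ(m) z_a w`), so `a w = Nm(c) w b`, and
`a = Nm(c) b` (`w ≠ 0`, `M` a field).
(Any other proof is fine, e.g. `CA C a ≃ CA C b` and Skolem-Noether.)
-/

open scoped TensorProduct

namespace Pool.Agent.Helper1.SX

open Pool.Agent.Helper8.BR

section core

variable {K M W : Type} [Field K] [Field M] [Algebra K M] [AddCommGroup W] [Module K W]

private theorem exists_inverse (C : Cyc K M) (e : Module.Basis (Fin C.d) K M)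
    (hdet : IsUnit (Matrix.of fun i k : Fin C.d => (C.σ ^ (i : ℕ)) (e k)).det) :
    ∃ N : Matrix (Fin C.d) (Fin C.d) M,
      (∀ i j : Fin C.d, ∑ k : Fin C.d, (C.σ ^ (i : ℕ)) (e k) * N k j = if i = j then 1 else 0) ∧
      (∀ k l : Fin C.d, ∑ j : Fin C.d, N k j * (C.σ ^ (j : ℕ)) (e l) = if k = l then 1 else 0) := by
  classical
  set V : Matrix (Fin C.d) (Fin C.d) M := Matrix.of fun i k : Fin C.d => (C.σ ^ (i : ℕ)) (e k)
    with hV
  refine ⟨V⁻¹, fun i j => ?_, fun k l => ?_⟩
  · have h := congrFun (congrFun (Matrix.mul_nonsing_inv V hdet) i) j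
    rw [Matrix.mul_apply, Matrix.one_apply] at h
    exact h
  · have h := congrFun (congrFun (Matrix.nonsing_inv_mul V hdet) k) l
    rw [Matrix.mul_apply, Matrix.one_apply] at h
    exact h

private theorem inverse_eigen (C : Cyc K M) (e : Module.Basis (Fin C.d) K M)
    (N : Matrix (Fin C.d) (Fin C.d) M)
    (h1 : ∀ i j : Fin C.d, ∑ k : Fin C.d, (C.σ ^ (i : ℕ)) (e k) * N k j = if i = j then 1 else 0)
    (h2 : ∀ k l : Fin C.d, ∑ j : Fin C.d, N k j * (C.σ ^ (j : ℕ)) (e l) = if k = l then 1 else 0)
    (m : M) (j i : Fin C.d) :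
    ∑ k, algebraMap K M (e.repr (m * e k) i) * N k j = (C.σ ^ (j : ℕ)) m * N i j := by
  classical
  set v : Fin C.d → M := fun i => ∑ k, algebraMap K M (e.repr (m * e k) i) * N k j -
    (C.σ ^ (j : ℕ)) m * N i j with hv
  have hσ : ∀ (l k : Fin C.d), ∑ i, (C.σ ^ (l : ℕ)) (e i) * algebraMap K M (e.repr (m * e k) i) =
      (C.σ ^ (l : ℕ)) m * (C.σ ^ (l : ℕ)) (e k) := by
    intro l k
    have h3 : m * e k = ∑ i, e.repr (m * e k) i • e i := (e.sum_repr _).symm
    rw [← map_mul]
    conv_rhs => rw [h3]
    rw [map_sum]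
    refine Finset.sum_congr rfl fun i _ => ?_
    rw [map_smul, Algebra.smul_def, mul_comm]
  have hz : ∀ l : Fin C.d, ∑ i, (C.σ ^ (l : ℕ)) (e i) * v i = 0 := by
    intro l
    have h4 : ∑ i, (C.σ ^ (l : ℕ)) (e i) * ∑ k, algebraMap K M (e.repr (m * e k) i) * N k j =
        (C.σ ^ (l : ℕ)) m * (if l = j then 1 else 0) := by
      rw [← h1 l j, Finset.mul_sum]
      simp only [Finset.mul_sum]
      rw [Finset.sum_comm]
      refine Finset.sum_congr rfl fun k _ => ?_
      simp only [← mul_assoc]
      rw [← Finset.sum_mul, hσ l k]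
    have h5 : ∑ i, (C.σ ^ (l : ℕ)) (e i) * ((C.σ ^ (j : ℕ)) m * N i j) =
        (C.σ ^ (j : ℕ)) m * (if l = j then 1 else 0) := by
      rw [← h1 l j, Finset.mul_sum]
      refine Finset.sum_congr rfl fun k _ => ?_
      ring
    simp only [hv, mul_sub, Finset.sum_sub_distrib]
    rw [h4, h5]
    by_cases h : l = j
    · subst h
      simp
    · simp [h]
  have hv0 : v i = 0 := by
    have h6 : v i = ∑ k, (if i = k then 1 else 0) * v k := by simp
    rw [h6]
    simp only [← h2 i]
    simp only [Finset.sum_mul]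
    rw [Finset.sum_comm]
    refine Finset.sum_eq_zero fun l _ => ?_
    simp only [mul_assoc]
    rw [← Finset.mul_sum, hz l, mul_zero]
  exact sub_eq_zero.mp hv0

private theorem core (C : Cyc K M) (hC : GalC C) (a b : K) (ha : a ≠ 0) (hb : b ≠ 0)
    (L R : M →ₐ[K] Module.End K W) (A B : Module.End K W)
    (hA : ∀ m w, A (L m w) = L (C.σ m) (A w))
    (hB : ∀ m w, R m (B w) = B (R (C.σ m) w))
    (hLR : ∀ m m' w, L m (R m' w) = R m' (L m w))
    (hAR : ∀ m w, A (R m w) = R m (A w))
    (hBL : ∀ m w, B (L m w) = L m (B w))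
    (hAB : ∀ w, A (B w) = B (A w))
    (hAd : ∀ w, (A ^ C.d) w = a • w) (hBd : ∀ w, (B ^ C.d) w = b • w)
    (hW : Module.finrank K W = C.d * C.d) :
    ∃ c : M, c ≠ 0 ∧ algebraMap K M a = algebraMap K M b * Nm C c := by
  classical
  obtain ⟨e, hdet⟩ := hC
  obtain ⟨N, h1, h2⟩ := exists_inverse C e hdet
  have hd := C.two
  have hMfin : Module.Finite K M := Module.Finite.of_basis e
  have hfr : Module.finrank K M = C.d := by
    rw [Module.finrank_eq_card_basis e, Fintype.card_fin]
  have hWfin : Module.Finite K W := Module.finite_of_finrank_pos (by rw [hW]; positivity)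
  have hWnt : Nontrivial W := Module.nontrivial_of_finrank_pos (R := K) (by rw [hW]; positivity)
  -- the idempotent operators
  let Q : Fin C.d → Module.End K W := fun j => ∑ k, R (e k) * L (N k j)
  have hQ : ∀ j w, Q j w = ∑ k, R (e k) (L (N k j) w) := by
    intro j w
    simp only [Q, LinearMap.sum_apply, Module.End.mul_apply]
  have hLinj : ∀ (m : M) (w : W), L m w = 0 → m ≠ 0 → w = 0 := by
    intro m w h hm
    have h3 : L (m⁻¹ * m) w = L m⁻¹ (L m w) := by rw [map_mul]; rfl
    rw [inv_mul_cancel₀ hm, h, map_zero, map_one] at h3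
    exact h3
  have hRinj : ∀ (m : M) (w : W), R m w = 0 → m ≠ 0 → w = 0 := by
    intro m w h hm
    have h3 : R (m⁻¹ * m) w = R m⁻¹ (R m w) := by rw [map_mul]; rfl
    rw [inv_mul_cancel₀ hm, h, map_zero, map_one] at h3
    exact h3
  have hLL : ∀ (m m' : M) (w : W), L m (L m' w) = L (m * m') w := by
    intro m m' w; rw [map_mul]; rfl
  have hRR : ∀ (m m' : M) (w : W), R m (R m' w) = R (m * m') w := by
    intro m m' w; rw [map_mul]; rfl
  -- (1)
  have hq1 : ∀ (j : Fin C.d) (m : M) (w : W), R m (Q j w) = L ((C.σ ^ (j : ℕ)) m) (Q j w) := by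
    intro j m w
    rw [hQ, map_sum, map_sum]
    have h3 : ∀ k, R m (R (e k) (L (N k j) w)) =
        ∑ i, R (e i) (L (algebraMap K M (e.repr (m * e k) i) * N k j) w) := by
      intro k
      rw [hRR]
      have h4 : m * e k = ∑ i, e.repr (m * e k) i • e i := (e.sum_repr _).symm
      conv_lhs => rw [h4]
      rw [map_sum, LinearMap.sum_apply]
      refine Finset.sum_congr rfl fun i _ => ?_
      rw [map_smul, LinearMap.smul_apply, ← Algebra.smul_def, map_smul, LinearMap.smul_apply,
        map_smul]
    simp only [h3]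
    rw [Finset.sum_comm]
    refine Finset.sum_congr rfl fun i _ => ?_
    rw [← map_sum, ← LinearMap.sum_apply, ← map_sum, inverse_eigen C e N h1 h2 m j i, hLR, hLL]
  -- (2)
  have hq2 : ∀ (i j : Fin C.d) (w : W), (∀ m, R m w = L ((C.σ ^ (i : ℕ)) m) w) →
      Q j w = if i = j then w else 0 := by
    intro i j w hw
    rw [hQ]
    have h3 : ∀ k, R (e k) (L (N k j) w) = L ((C.σ ^ (i : ℕ)) (e k) * N k j) w := by
      intro k
      rw [← hLR, hw, hLL, mul_comm]
    simp only [h3]
    rw [← LinearMap.sum_apply, ← map_sum, h1]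
    by_cases h : i = j
    · simp [h]
    · simp [h]
  -- (3)
  have hq3 : ∀ (l : Fin C.d) (w : W), ∑ j : Fin C.d, L ((C.σ ^ (j : ℕ)) (e l)) (Q j w) = R (e l) w := by
    intro l w
    simp only [hQ, map_sum]
    rw [Finset.sum_comm]
    have h3 : ∀ k, ∑ j : Fin C.d, L ((C.σ ^ (j : ℕ)) (e l)) (R (e k) (L (N k j) w)) =
        R (e k) (L (if k = l then 1 else 0) w) := by
      intro k
      rw [← h2 k l, map_sum, LinearMap.sum_apply, map_sum]
      refine Finset.sum_congr rfl fun j _ => ?_
      rw [hLR, hLL, mul_comm]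
    simp only [h3]
    rw [Finset.sum_eq_single l]
    · simp
    · intro k _ hk
      simp [hk]
    · intro h
      exact absurd (Finset.mem_univ _) h
  -- shift with A and B
  have hshA : ∀ (n k : ℕ) (w : W), (∀ m, R m w = L ((C.σ ^ n) m) w) →
      ∀ m, R m ((A ^ k) w) = L ((C.σ ^ (n + k)) m) ((A ^ k) w) := by
    intro n k w hw
    induction k with
    | zero => simpa using hw
    | succ k ih =>
      intro m
      rw [pow_succ', Module.End.mul_apply, ← hAR, ih, hA, ← add_assoc, pow_succ' C.σ (n + k)]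
      rfl
  have hshB : ∀ (n k : ℕ) (w : W), (∀ m, R m w = L ((C.σ ^ n) m) w) →
      ∀ m, R m ((B ^ k) w) = L ((C.σ ^ (n + k)) m) ((B ^ k) w) := by
    intro n k w hw
    induction k with
    | zero => simpa using hw
    | succ k ih =>
      intro m
      rw [pow_succ', Module.End.mul_apply, hB, ih, hBL, ← add_assoc, pow_succ C.σ (n + k)]
      rfl
  have hAinj : ∀ (k : ℕ) (w : W), k ≤ C.d → (A ^ k) w = 0 → w = 0 := by
    intro k w hk h
    have h3 := hAd w
    have h4 : C.d = (C.d - k) + k := by omega
    rw [h4, pow_add, Module.End.mul_apply, h, map_zero] at h3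
    exact (smul_eq_zero.mp h3.symm).resolve_left ha
  have hBinj : ∀ (k : ℕ) (w : W), k ≤ C.d → (B ^ k) w = 0 → w = 0 := by
    intro k w hk h
    have h3 := hBd w
    have h4 : C.d = (C.d - k) + k := by omega
    rw [h4, pow_add, Module.End.mul_apply, h, map_zero] at h3
    exact (smul_eq_zero.mp h3.symm).resolve_left hb
  -- a nonzero vector of index 0
  obtain ⟨w0, hw0, hw0'⟩ : ∃ w0 : W, w0 ≠ 0 ∧ ∀ m, R m w0 = L m w0 := by
    obtain ⟨w, hw⟩ := exists_ne (0 : W)
    let l : Fin C.d := ⟨0, by omega⟩
    have h3 : R (e l) w ≠ 0 := fun h => hw (hRinj _ _ h (e.ne_zero l))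
    rw [← hq3 l w] at h3
    obtain ⟨j, -, hj⟩ := Finset.exists_ne_zero_of_sum_ne_zero h3
    have h4 : Q j w ≠ 0 := by
      intro h
      rw [h, map_zero] at hj
      exact hj rfl
    refine ⟨(A ^ (C.d - j)) (Q j w), fun h => h4 (hAinj _ _ (by omega) h), fun m => ?_⟩
    have h5 := hshA j (C.d - j) (Q j w) (fun m => hq1 j m w) m
    have h6 : (j : ℕ) + (C.d - j) = C.d := by have := j.2; omega
    rw [h6, C.pow] at h5
    exact h5
  -- the map Ψ
  let Ψ : (Fin C.d → M) →ₗ[K] W :=
    { toFun := fun s => ∑ i, L (s i) ((B ^ (i : ℕ)) w0)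
      map_add' := fun s t => by
        simp only [Pi.add_apply, map_add, LinearMap.add_apply, Finset.sum_add_distrib]
      map_smul' := fun r s => by
        simp only [Pi.smul_apply, map_smul, LinearMap.smul_apply, Finset.smul_sum,
          RingHom.id_apply] }
  have hΨ : ∀ s, Ψ s = ∑ i, L (s i) ((B ^ (i : ℕ)) w0) := fun s => rfl
  have hidx : ∀ (s : M) (i : Fin C.d) (m : M), R m (L s ((B ^ (i : ℕ)) w0)) =
      L ((C.σ ^ (i : ℕ)) m) (L s ((B ^ (i : ℕ)) w0)) := by
    intro s i m
    have h3 := hshB 0 i w0 (fun m => by simpa using hw0' m) m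
    rw [zero_add] at h3
    rw [← hLR, h3, hLL, hLL, mul_comm]
  have hQΨ : ∀ j s, Q j (Ψ s) = L (s j) ((B ^ (j : ℕ)) w0) := by
    intro j s
    rw [hΨ, map_sum, Finset.sum_eq_single j]
    · rw [hq2 j j _ (hidx (s j) j), if_pos rfl]
    · intro i _ hi
      rw [hq2 i j _ (hidx (s i) i), if_neg hi]
    · intro h
      exact absurd (Finset.mem_univ _) h
  have hBLp : ∀ (k : ℕ) (m : M) (w : W), (B ^ k) (L m w) = L m ((B ^ k) w) := by
    intro k m w
    induction k with
    | zero => rfl
    | succ k ih => rw [pow_succ', Module.End.mul_apply, Module.End.mul_apply, ih, hBL]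
  have hΨinj : Function.Injective Ψ := by
    rw [injective_iff_map_eq_zero]
    intro s hs
    funext j
    have h3 := hQΨ j s
    rw [hs, map_zero, ← hBLp] at h3
    have h4 := hBinj j _ (by have := j.2; omega) h3.symm
    by_contra h5
    exact hw0 (hLinj _ _ h4 h5)
  have hΨsurj : Function.Surjective Ψ := by
    have h3 : Module.finrank K (Fin C.d → M) = Module.finrank K W := by
      rw [hW, Module.finrank_pi_fintype, Finset.sum_const, Finset.card_univ, Fintype.card_fin,
        hfr, smul_eq_mul]
    exact (LinearMap.injective_iff_surjective_of_finrank_eq_finrank h3).mp hΨinj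
  obtain ⟨s, hs⟩ := hΨsurj (A w0)
  let i1 : Fin C.d := ⟨1, by omega⟩
  have h3 := hQΨ i1 s
  have h4 : Q i1 (A w0) = A w0 := by
    have h5 := hshA 0 1 w0 (fun m => by simpa using hw0' m)
    rw [pow_one] at h5
    rw [hq2 i1 i1 (A w0) (fun m => h5 m), if_pos rfl]
  rw [hs, h4] at h3
  have h5 : A w0 = L (s i1) (B w0) := by
    rw [h3]
    change L (s i1) ((B ^ 1) w0) = _
    rw [pow_one]
  set c := s i1 with hc
  have hc0 : c ≠ 0 := by
    intro h
    rw [h, map_zero, LinearMap.zero_apply] at h5
    exact hw0 (hAinj 1 w0 (by omega) (by rw [pow_one]; exact h5))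
  have hABp : ∀ (k : ℕ) (w : W), A ((B ^ k) w) = (B ^ k) (A w) := by
    intro k w
    induction k with
    | zero => rfl
    | succ k ih => rw [pow_succ', Module.End.mul_apply, Module.End.mul_apply, hAB, ih]
  have hprod : ∀ n : ℕ, (A ^ n) w0 =
      L (∏ i ∈ Finset.range n, (C.σ ^ i) c) ((B ^ n) w0) := by
    intro n
    induction n with
    | zero => simp
    | succ n ih =>
      rw [pow_succ', Module.End.mul_apply, ih, hA, hABp, h5, hBLp, hLL,
        ← Module.End.mul_apply (B ^ n) B, ← pow_succ, Finset.prod_range_succ', map_prod]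
      congr 2
      rw [pow_zero]
      congr 1
      refine Finset.prod_congr rfl fun i _ => ?_
      rw [pow_succ']
      rfl
  have h6 := hprod C.d
  rw [hAd, hBd] at h6
  refine ⟨c, hc0, ?_⟩
  have h7 : L (algebraMap K M a - algebraMap K M b * Nm C c) w0 = 0 := by
    rw [map_sub, LinearMap.sub_apply, sub_eq_zero, AlgHom.commutes, mul_comm, ← hLL,
      AlgHom.commutes]
    change a • w0 = L (Nm C c) (b • w0)
    exact h6
  by_contra h8
  exact hw0 (hLinj _ _ h7 (sub_ne_zero.mpr h8))

end core

section corner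

set_option linter.unusedSectionVars false

variable {K P Q : Type} [Field K] [Ring P] [Algebra K P] [Ring Q] [Algebra K Q] {n : ℕ} [NeZero n]

/-- the corner of a matrix algebra between the unit `e(E_00)` and the unit `E_00` -/
private def corner (e : Matrix (Fin n) (Fin n) P ≃ₐ[K] Matrix (Fin n) (Fin n) Q) :
    Submodule K (Matrix (Fin n) (Fin n) Q) where
  carrier := {x | e (Matrix.single 0 0 1) * x = x ∧ x * Matrix.single 0 0 1 = x}
  add_mem' := by
    rintro x y ⟨h1, h2⟩ ⟨h3, h4⟩
    exact ⟨by rw [mul_add, h1, h3], by rw [add_mul, h2, h4]⟩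
  zero_mem' := ⟨mul_zero _, zero_mul _⟩
  smul_mem' := by
    rintro r x ⟨h1, h2⟩
    exact ⟨by rw [mul_smul_comm, h1], by rw [smul_mul_assoc, h2]⟩

variable (e : Matrix (Fin n) (Fin n) P ≃ₐ[K] Matrix (Fin n) (Fin n) Q)

private theorem F_mul_F (i j k : Fin n) :
    e (Matrix.single i j 1) * e (Matrix.single j k 1) = e (Matrix.single i k 1) := by
  rw [← map_mul, Matrix.single_mul_single_same, one_mul]

private theorem F_mul_F_ne (i j k l : Fin n) (h : j ≠ k) :
    e (Matrix.single i j 1) * e (Matrix.single k l 1) = 0 := by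
  rw [← map_mul, Matrix.single_mul_single_of_ne _ _ _ _ h, map_zero]

private theorem G_mul_G (i j k : Fin n) :
    (Matrix.single i j 1 : Matrix (Fin n) (Fin n) Q) * Matrix.single j k 1 =
      Matrix.single i k 1 := by
  rw [Matrix.single_mul_single_same, one_mul]

private theorem G_mul_G_ne (i j k l : Fin n) (h : j ≠ k) :
    (Matrix.single i j 1 : Matrix (Fin n) (Fin n) Q) * Matrix.single k l 1 = 0 :=
  Matrix.single_mul_single_of_ne _ _ _ _ h _

private noncomputable def cornerEquiv :
    Matrix (Fin n) (Fin n) Q ≃ₗ[K] (Fin n → Fin n → corner e) where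
  toFun x := fun i j => ⟨e (Matrix.single 0 i 1) * x * Matrix.single j 0 1,
    by rw [← mul_assoc, ← mul_assoc, F_mul_F], by rw [mul_assoc, G_mul_G]⟩
  map_add' x y := by
    funext i j
    refine Subtype.ext ?_
    change e _ * (x + y) * _ = e _ * x * _ + e _ * y * _
    rw [mul_add, add_mul]
  map_smul' r x := by
    funext i j
    refine Subtype.ext ?_
    change e _ * (r • x) * _ = r • (e _ * x * _)
    rw [mul_smul_comm, smul_mul_assoc]
  invFun w := ∑ i, ∑ j, e (Matrix.single i 0 1) * (w i j : Matrix (Fin n) (Fin n) Q) *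
    Matrix.single 0 j 1
  left_inv x := by
    change ∑ i, ∑ j, e (Matrix.single i 0 1) * (e (Matrix.single 0 i 1) * x *
      Matrix.single j 0 1) * Matrix.single 0 j 1 = x
    have h1 : ∀ i j : Fin n, e (Matrix.single i 0 1) * (e (Matrix.single 0 i 1) * x *
        Matrix.single j 0 1) * Matrix.single 0 j 1 =
        e (Matrix.single i i 1) * x * Matrix.single j j 1 := by
      intro i j
      rw [← F_mul_F e i 0 i, ← G_mul_G (Q := Q) j 0 j]
      simp only [mul_assoc]
    simp only [h1, ← Finset.mul_sum]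
    rw [Matrix.sum_single_one, ← Finset.sum_mul, ← Finset.sum_mul, ← map_sum,
      Matrix.sum_single_one, map_one, one_mul, mul_one]
  right_inv w := by
    funext i' j'
    refine Subtype.ext ?_
    change e (Matrix.single 0 i' 1) * (∑ i, ∑ j, e (Matrix.single i 0 1) *
      (w i j : Matrix (Fin n) (Fin n) Q) * Matrix.single 0 j 1) * Matrix.single j' 0 1 =
      (w i' j' : Matrix (Fin n) (Fin n) Q)
    simp only [Finset.mul_sum, Finset.sum_mul]
    rw [Finset.sum_eq_single i']
    · rw [Finset.sum_eq_single j']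
      · have h1 := (w i' j').2
        calc e (Matrix.single 0 i' 1) * (e (Matrix.single i' 0 1) *
              (w i' j' : Matrix (Fin n) (Fin n) Q) * Matrix.single 0 j' 1) * Matrix.single j' 0 1
            = (e (Matrix.single 0 i' 1) * e (Matrix.single i' 0 1)) *
              (w i' j' : Matrix (Fin n) (Fin n) Q) *
              (Matrix.single 0 j' 1 * Matrix.single j' 0 1) := by simp only [mul_assoc]
          _ = (w i' j' : Matrix (Fin n) (Fin n) Q) := by rw [F_mul_F, G_mul_G, h1.1, h1.2]
      · intro j _ hj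
        calc e (Matrix.single 0 i' 1) * (e (Matrix.single i' 0 1) *
              (w i' j : Matrix (Fin n) (Fin n) Q) * Matrix.single 0 j 1) * Matrix.single j' 0 1
            = (e (Matrix.single 0 i' 1) * e (Matrix.single i' 0 1)) *
              (w i' j : Matrix (Fin n) (Fin n) Q) *
              (Matrix.single 0 j 1 * Matrix.single j' 0 1) := by simp only [mul_assoc]
          _ = 0 := by rw [G_mul_G_ne _ _ _ _ hj, mul_zero]
      · intro h
        exact absurd (Finset.mem_univ _) h
    · intro i _ hi
      refine Finset.sum_eq_zero fun j _ => ?_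
      calc e (Matrix.single 0 i' 1) * (e (Matrix.single i 0 1) *
            (w i j : Matrix (Fin n) (Fin n) Q) * Matrix.single 0 j 1) * Matrix.single j' 0 1
          = (e (Matrix.single 0 i' 1) * e (Matrix.single i 0 1)) *
            (w i j : Matrix (Fin n) (Fin n) Q) *
            (Matrix.single 0 j 1 * Matrix.single j' 0 1) := by simp only [mul_assoc]
        _ = 0 := by rw [F_mul_F_ne e _ _ _ _ hi.symm, zero_mul, zero_mul]
    · intro h
      exact absurd (Finset.mem_univ _) h

private theorem finrank_corner [Module.Finite K Q] :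
    Module.finrank K (corner e) = Module.finrank K Q := by
  have h1 := (cornerEquiv e).finrank_eq
  rw [Module.finrank_matrix, Fintype.card_fin] at h1
  simp only [Module.finrank_pi_fintype, Finset.sum_const, Finset.card_univ, Fintype.card_fin,
    smul_eq_mul] at h1
  rw [← mul_assoc] at h1
  have h2 : 0 < n * n := by
    have := NeZero.pos n
    positivity
  exact (Nat.eq_of_mul_eq_mul_left h2 h1).symm

/-- the left action on the corner -/
private noncomputable def lact : P →ₐ[K] Module.End K (corner e) :=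
  AlgHom.ofLinearMap
    { toFun := fun p =>
        { toFun := fun w => ⟨e (Matrix.single 0 0 p) * w,
            by rw [← mul_assoc, ← map_mul, Matrix.single_mul_single_same, one_mul],
            by rw [mul_assoc, w.2.2]⟩
          map_add' := fun w w' => Subtype.ext (mul_add _ _ _)
          map_smul' := fun r w => Subtype.ext (mul_smul_comm _ _ _) }
      map_add' := fun p q => by
        refine LinearMap.ext fun w => Subtype.ext ?_
        change e (Matrix.single 0 0 (p + q)) * _ = e _ * _ + e _ * _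
        rw [Matrix.single_add, map_add, add_mul]
      map_smul' := fun r p => by
        refine LinearMap.ext fun w => Subtype.ext ?_
        change e (Matrix.single 0 0 (r • p)) * _ = r • (e _ * _)
        rw [← Matrix.smul_single, map_smul, smul_mul_assoc] }
    (LinearMap.ext fun w => Subtype.ext w.2.1)
    (fun p q => by
      refine LinearMap.ext fun w => Subtype.ext ?_
      change e (Matrix.single 0 0 (p * q)) * _ = e _ * (e _ * _)
      rw [← mul_assoc, ← map_mul, Matrix.single_mul_single_same])

private theorem lact_apply (p : P) (w : corner e) :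
    ((lact e p w : corner e) : Matrix (Fin n) (Fin n) Q) = e (Matrix.single 0 0 p) * w := rfl

/-- the right action on the corner -/
private noncomputable def ract : Q →ₗ[K] Module.End K (corner e) where
  toFun := fun q =>
    { toFun := fun w => ⟨(w : Matrix (Fin n) (Fin n) Q) * Matrix.single 0 0 q,
        by rw [← mul_assoc, w.2.1],
        by rw [mul_assoc, Matrix.single_mul_single_same, mul_one]⟩
      map_add' := fun w w' => Subtype.ext (add_mul _ _ _)
      map_smul' := fun r w => Subtype.ext (smul_mul_assoc _ _ _) }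
  map_add' := fun p q => by
    refine LinearMap.ext fun w => Subtype.ext ?_
    change _ * (Matrix.single 0 0 (p + q)) = _ * _ + _ * _
    rw [Matrix.single_add, mul_add]
  map_smul' := fun r p => by
    refine LinearMap.ext fun w => Subtype.ext ?_
    change _ * (Matrix.single 0 0 (r • p)) = r • (_ * _)
    rw [← Matrix.smul_single, mul_smul_comm]

private theorem ract_apply (q : Q) (w : corner e) :
    ((ract e q w : corner e) : Matrix (Fin n) (Fin n) Q) =
      (w : Matrix (Fin n) (Fin n) Q) * Matrix.single 0 0 q := rfl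

private theorem ract_one (w : corner e) : ract e 1 w = w := Subtype.ext w.2.2

private theorem ract_mul (p q : Q) (w : corner e) : ract e (p * q) w = ract e q (ract e p w) := by
  refine Subtype.ext ?_
  rw [ract_apply, ract_apply, ract_apply, mul_assoc, Matrix.single_mul_single_same]

private theorem lact_ract (p : P) (q : Q) (w : corner e) :
    lact e p (ract e q w) = ract e q (lact e p w) := by
  refine Subtype.ext ?_
  rw [ract_apply, lact_apply, ract_apply, lact_apply, mul_assoc]

end corner


private theorem finrank_CA {K M : Type} [Field K] [Field M] [Algebra K M] (C : Cyc K M)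
    (e : Module.Basis (Fin C.d) K M) (x : K) : Module.finrank K (CA C x) = C.d * C.d := by
  have hMfin : Module.Finite K M := Module.Finite.of_basis e
  change Module.finrank K (ZMod C.d → M) = _
  rw [Module.finrank_pi_fintype, Finset.sum_const, Finset.card_univ, ZMod.card, smul_eq_mul,
    Module.finrank_eq_card_basis e, Fintype.card_fin]

theorem ca_field {K M : Type} [Field K] [Field M] [Algebra K M] (C : Cyc K M) (hC : GalC C)
    (a b : K) (ha : a ≠ 0) (hb : b ≠ 0) (h : BrEq K (CA C a) (CA C b)) :
    ∃ c : M, c ≠ 0 ∧ algebraMap K M a = algebraMap K M b * Nm C c := by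
  classical
  have hd := C.two
  obtain ⟨ba, hba⟩ := hC
  have hMfin : Module.Finite K M := Module.Finite.of_basis ba
  have hfa : Module.Finite K (CA C a) := inferInstance
  have hfb : Module.Finite K (CA C b) := inferInstance
  obtain ⟨n, hn, ⟨e⟩⟩ := BrEq.same_size
    ((finrank_CA C ba a).trans (finrank_CA C ba b).symm)
    (by rw [finrank_CA C ba a]; positivity) h
  have hn' : NeZero n := ⟨hn⟩
  let L : M →ₐ[K] Module.End K (corner e) := (lact e).comp (ι C a)
  have hL : ∀ m w, L m w = lact e (ι C a m) w := fun m w => rfl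
  let R : M →ₐ[K] Module.End K (corner e) :=
    AlgHom.ofLinearMap ((ract e).comp (ι C b).toLinearMap)
      (LinearMap.ext fun w => by
        change ract e (ι C b 1) w = w
        rw [map_one, ract_one])
      (fun m m' => LinearMap.ext fun w => by
        change ract e (ι C b (m * m')) w = ract e (ι C b m) (ract e (ι C b m') w)
        rw [mul_comm, map_mul, ract_mul])
  have hR : ∀ m w, R m w = ract e (ι C b m) w := fun m w => rfl
  have hpow : ∀ (k : ℕ) (w : corner e), ((ract e (zz C b)) ^ k) w = ract e (zz C b ^ k) w := by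
    intro k w
    induction k with
    | zero => rw [pow_zero, pow_zero, ract_one]; rfl
    | succ k ih => rw [pow_succ', Module.End.mul_apply, ih, pow_succ, ract_mul]
  refine core C ⟨ba, hba⟩ a b ha hb L R (lact e (zz C a)) (ract e (zz C b)) ?_ ?_ ?_ ?_ ?_ ?_ ?_ ?_ ?_
  · intro m w
    rw [hL, hL, ← Module.End.mul_apply, ← Module.End.mul_apply, ← map_mul, ← map_mul, z_comm]
  · intro m w
    rw [hR, hR, ← ract_mul, ← ract_mul, z_comm]
  · intro m m' w
    rw [hL, hR, hR, hL, lact_ract]
  · intro m w
    rw [hR, hR, lact_ract]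
  · intro m w
    rw [hL, hL, lact_ract]
  · intro w
    rw [lact_ract]
  · intro w
    rw [← map_pow, z_pow, AlgHom.commutes]
    rfl
  · intro w
    rw [hpow, z_pow, Algebra.algebraMap_eq_smul_one, map_smul, LinearMap.smul_apply, ract_one]
  · rw [finrank_corner, finrank_CA C ba b]

end Pool.Agent.Helper1.SX
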