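import Pool.Agent.Helper1.SX.CycLift

set_option autoImplicit false

/-!
# SX-A-04: base change and change of the parameter by a norm

`ca_baseChange`: `ψ : S → S'` is a ring homomorphism over `R → R'` commuting with the automorphisms, mapping a basis of `S / R` to a basis of `S' / R'`.
The map `f : CA C x → CA C' x'` (`R`-algebra homomorphism; from `exists_lift` with `B = CA C' x'` restricted to `R`, `φ = ι ∘ ψ`, `Z = z`), then
`R' ⊗ CA C x → CA C' x'` (`Algebra.TensorProduct.lift` with `Algebra.ofId R' _` and `f`, which commute: `R'` is central).  Bijective: it maps the basis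
`1 ⊗ e_k z^i` to the basis `ψ(e_k) z^i`.
`ca_norm`: `B = CA C x`, `Z = ι(m) * z`: `Z ι(s) = ι(m) ι(σ s) z = ι(σ s) Z`, `Z^i = ι(m σ(m) ... σ^(i-1)(m)) z^i`, `Z^d = ι(Nm m) z^d = y x`.  `exists_lift`
gives `f : CA C (x * y) → CA C x`; bijective: it maps `ι(s) z^i` to `ι(s m σ(m) ... σ^(i-1) (m)) z^i` and `m` is a unit (or the inverse map from `m⁻¹`).
-/

open scoped TensorProduct

namespace Pool.Agent.Helper1.SX

variable {R S : Type} [CommRing R] [CommRing S] [Algebra R S]

private theorem bc_aux {R' S' : Type} [CommRing R'] [CommRing S'] [Algebra R' S'] [Algebra R R']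
    (d : ℕ) (h2 : 2 ≤ d) (σ : S ≃ₐ[R] S) (hp : σ ^ d = 1) (σ' : S' ≃ₐ[R'] S') (hp' : σ' ^ d = 1)
    (ψ : S →+* S')
    (hψ : ∀ r : R, ψ (algebraMap R S r) = algebraMap R' S' (algebraMap R R' r))
    (hσ : ∀ s, ψ (σ s) = σ' (ψ s)) {κ : Type} [Fintype κ] (e : Module.Basis κ R S)
    (e' : Module.Basis κ R' S') (he : ∀ i, ψ (e i) = e' i) (x : R) :
    Nonempty (R' ⊗[R] CA (⟨d, h2, σ, hp⟩ : Cyc R S) x ≃ₐ[R']
      CA (⟨d, h2, σ', hp'⟩ : Cyc R' S') (algebraMap R R' x)) := by
  classical
  haveI : NeZero d := ⟨by omega⟩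
  let C : Cyc R S := ⟨d, h2, σ, hp⟩
  let C' : Cyc R' S' := ⟨d, h2, σ', hp'⟩
  let x' := algebraMap R R' x
  letI : Algebra R (CA C' x') := Algebra.compHom (CA C' x') (algebraMap R R')
  have hmap : ∀ r : R, algebraMap R (CA C' x') r = algebraMap R' (CA C' x') (algebraMap R R' r) :=
    fun r => rfl
  haveI : IsScalarTower R R' (CA C' x') := IsScalarTower.of_algebraMap_eq hmap
  let φ : S →ₐ[R] CA C' x' :=
    { toRingHom := (ι C' x').toRingHom.comp ψ
      commutes' := fun r => by
        show ι C' x' (ψ (algebraMap R S r)) = _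
        rw [hψ, hmap]
        exact (ι C' x').commutes _ }
  have hφ : ∀ s, φ s = ι C' x' (ψ s) := fun s => rfl
  obtain ⟨f, -, -, hf⟩ := exists_lift C x φ (zz C' x')
    (fun s => by
      rw [hφ, hφ, z_comm]
      show ι C' x' (σ' (ψ s)) * zz C' x' = ι C' x' (ψ (σ s)) * zz C' x'
      rw [hσ])
    (by
      rw [hmap]
      exact z_pow C' x')
  let F : R' ⊗[R] CA C x →ₐ[R'] CA C' x' :=
    Algebra.TensorProduct.lift (Algebra.ofId R' (CA C' x')) f
      (fun r a => Algebra.commutes r (f a))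
  have hF : ∀ a : CA C x, F (1 ⊗ₜ[R] a) = f a := by
    intro a
    show Algebra.TensorProduct.lift (Algebra.ofId R' (CA C' x')) f _ (1 ⊗ₜ[R] a) = f a
    rw [Algebra.TensorProduct.lift_tmul, map_one, one_mul]
  let B : Module.Basis ((_ : ZMod C.d) × κ) R (CA C x) :=
    (Pi.basis (fun _ : ZMod C.d => e) : Module.Basis _ R (ZMod C.d → S))
  let B' : Module.Basis ((_ : ZMod C.d) × κ) R' (CA C' x') :=
    (Pi.basis (fun _ : ZMod C.d => e') : Module.Basis _ R' (ZMod C.d → S'))
  have hB : ∀ j, B j = (Pi.single j.1 (e j.2) : ZMod C.d → S) := fun j => Pi.basis_apply _ j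
  have hB' : ∀ j, B' j = (Pi.single j.1 (e' j.2) : ZMod C.d → S') := fun j => Pi.basis_apply _ j
  have hfs : ∀ (i : ZMod C.d) (s : S), f (show CA C x from (Pi.single i s : ZMod C.d → S)) =
      (Pi.single i (ψ s) : ZMod C.d → S') := by
    intro i s
    rw [hf, Finset.sum_eq_single i]
    · show φ ((Pi.single i s : ZMod C.d → S) i) * zz C' x' ^ i.val = _
      rw [Pi.single_eq_same, hφ]
      exact ι_mul_z_pow C' x' (ψ s) i
    · intro j _ hj
      show φ ((Pi.single i s : ZMod C.d → S) j) * zz C' x' ^ j.val = _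
      rw [Pi.single_eq_of_ne hj, map_zero, zero_mul]
    · intro h
      exact absurd (Finset.mem_univ _) h
  have hlin : F.toLinearMap = ((B.baseChange R').equiv B' (Equiv.refl _)).toLinearMap := by
    refine (B.baseChange R').ext fun j => ?_
    rw [LinearEquiv.coe_coe, Module.Basis.equiv_apply, Module.Basis.baseChange_apply,
      AlgHom.toLinearMap_apply, hF, hB, hfs, he, Equiv.refl_apply, hB']
  have hbij : Function.Bijective F := by
    have h : (F : R' ⊗[R] CA C x → CA C' x') =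
        ⇑((B.baseChange R').equiv B' (Equiv.refl _)) := by
      funext a
      exact LinearMap.congr_fun hlin a
    rw [h]
    exact LinearEquiv.bijective _
  exact ⟨AlgEquiv.ofBijective F hbij⟩

theorem ca_baseChange {R' S' : Type} [CommRing R'] [CommRing S'] [Algebra R' S'] [Algebra R R']
    (C : Cyc R S) (C' : Cyc R' S') (hd : C.d = C'.d) (ψ : S →+* S')
    (hψ : ∀ r : R, ψ (algebraMap R S r) = algebraMap R' S' (algebraMap R R' r))
    (hσ : ∀ s, ψ (C.σ s) = C'.σ (ψ s)) {κ : Type} [Fintype κ] (e : Module.Basis κ R S)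
    (e' : Module.Basis κ R' S') (he : ∀ i, ψ (e i) = e' i) (x : R) :
    Nonempty (R' ⊗[R] CA C x ≃ₐ[R'] CA C' (algebraMap R R' x)) := by
  obtain ⟨d, h2, σ, hp⟩ := C
  obtain ⟨d', h2', σ', hp'⟩ := C'
  change d = d' at hd
  subst hd
  exact bc_aux d h2 σ hp σ' hp' ψ hψ hσ e e' he x

/-- the partial norms -/
private def pn (C : Cyc R S) (m : S) (n : ℕ) : S := ∏ i ∈ Finset.range n, (C.σ ^ i) m

private theorem pn_unit (C : Cyc R S) {m : S} (hm : IsUnit m) (n : ℕ) : IsUnit (pn C m n) := by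
  refine IsUnit.prod_iff.2 fun i _ => ?_
  exact hm.map (C.σ ^ i : S ≃ₐ[R] S)

private theorem z_pow_comm' (C : Cyc R S) (x : R) (n : ℕ) (s : S) :
    zz C x ^ n * ι C x s = ι C x ((C.σ ^ n) s) * zz C x ^ n := by
  induction n generalizing s with
  | zero => simp
  | succ n ih =>
    rw [pow_succ, mul_assoc, z_comm, ← mul_assoc, ih, mul_assoc, ← pow_succ, pow_succ C.σ n]
    rfl

private theorem Z_pow_eq (C : Cyc R S) (x : R) (m : S) (n : ℕ) :
    (ι C x m * zz C x) ^ n = ι C x (pn C m n) * zz C x ^ n := by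
  induction n with
  | zero => simp [pn]
  | succ n ih =>
    rw [pow_succ, ih]
    have h1 : ι C x (pn C m n) * zz C x ^ n * (ι C x m * zz C x) =
        ι C x (pn C m n) * (zz C x ^ n * ι C x m) * zz C x := by
      simp only [mul_assoc]
    rw [h1, z_pow_comm']
    have h2 : pn C m (n + 1) = pn C m n * (C.σ ^ n) m := Finset.prod_range_succ _ _
    rw [h2, map_mul, pow_succ]
    simp only [mul_assoc]

theorem ca_norm (C : Cyc R S) (x y : R) (m : S) (hm : IsUnit m)
    (hy : Nm C m = algebraMap R S y) : Nonempty (CA C (x * y) ≃ₐ[R] CA C x) := by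
  classical
  obtain ⟨f, -, -, hf⟩ := exists_lift C (x * y) (ι C x) (ι C x m * zz C x)
    (fun s => by
      have h1 : ι C x m * zz C x * ι C x s = ι C x m * (zz C x * ι C x s) := mul_assoc _ _ _
      rw [h1, z_comm, ← mul_assoc, ← mul_assoc, ← map_mul, ← map_mul, mul_comm m])
    (by
      rw [Z_pow_eq]
      have h1 : pn C m C.d = algebraMap R S y := hy
      rw [h1, z_pow, AlgHom.commutes, ← map_mul, mul_comm y])
  have hfa : ∀ a : CA C (x * y), f a =
      (fun i => (a : ZMod C.d → S) i * pn C m i.val : ZMod C.d → S) := by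
    intro a
    rw [hf]
    have h1 : ∀ i : ZMod C.d, ι C x ((a : ZMod C.d → S) i) * (ι C x m * zz C x) ^ i.val =
        (Pi.single i ((a : ZMod C.d → S) i * pn C m i.val) : ZMod C.d → S) := by
      intro i
      rw [Z_pow_eq, ← mul_assoc, ← map_mul]
      exact ι_mul_z_pow C x _ i
    rw [Finset.sum_congr rfl fun i _ => h1 i]
    exact Finset.univ_sum_single (fun i => (a : ZMod C.d → S) i * pn C m i.val)
  refine ⟨AlgEquiv.ofBijective f ⟨?_, ?_⟩⟩
  · intro a b hab
    rw [hfa, hfa] at hab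
    have h1 : ∀ i, (a : ZMod C.d → S) i = (b : ZMod C.d → S) i := fun i =>
      (pn_unit C hm i.val).mul_right_cancel (congrFun hab i)
    exact funext h1
  · intro b
    have hu : ∀ i : ZMod C.d, ∃ v : S, v * pn C m i.val = 1 := fun i =>
      (pn_unit C hm i.val).exists_left_inv
    choose v hv using hu
    refine ⟨(fun i => (b : ZMod C.d → S) i * v i : ZMod C.d → S), ?_⟩
    rw [hfa]
    refine funext fun i => ?_
    show (b : ZMod C.d → S) i * v i * pn C m i.val = (b : ZMod C.d → S) i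
    rw [mul_assoc, hv, mul_one]

end Pool.Agent.Helper1.SX
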