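import Pool.Agent.Helper1.SX.CyGal
import Pool.Agent.Helper1.SX.CycAz
import Pool.Agent.Helper1.SX.CycMaps
import Pool.Agent.Helper1.SX.CycField
import Pool.Agent.Helper8.BR.Group

set_option autoImplicit false

/-!
# SX-B-04: the classes `(x, χ_n)`

`brc n R x` is the class of the cyclic algebra of `x` for the cyclotomic ring of level `3^(n+1)`.
`brc_map`: `Br.map_mk_eq_iff` (for `algebraMap`; make `f.toAlgebra` an instance; `R'` is a `ℚ`-algebra, no compatibility of the two `ℚ`-structures is needed in the
statement), `ca_baseChange` with the bases of `exists_cy_basis` and `ψ` of `exists_cyMap`, `BrEq.of_algEquiv`.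
`brc_norm`: `ca_norm`, `Br.mk_eq_iff`.  `brc_field`: `Br.mk_eq_iff` and `ca_field` with `M = Cy n K`, a field by `hK`
(`let _ := hK.toField`-style instance; the ring structure must stay the one of `AdjoinRoot`; e.g. `(Fact.mk hirr)` and the instance `AdjoinRoot.instField`,
so the hypothesis is the irreducibility of the cyclotomic polynomial).
-/

open Polynomial
open scoped TensorProduct

namespace Pool.Agent.Helper1.SX

open Pool.Agent.Helper8.BR

/-- `Cy n R` is free -/
theorem cy_free (n : ℕ) (R : Type) [CommRing R] [Nontrivial R] : Module.Free R (Cy n R) :=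
  Module.Free.of_basis (exists_cy_basis n R).choose

/-- the class of the cyclic algebra `(x, χ_n)` -/
noncomputable def brc (n : ℕ) (R : Type) [CommRing R] [Nontrivial R] [Algebra ℚ R] (x : Rˣ) :
    Br R :=
  haveI := cy_free n R
  haveI := ca_azumaya (cyc n R) (cy_galC n R) (x : R) x.isUnit
  Br.mk R (CA (cyc n R) (x : R))

theorem brc_map (n : ℕ) {R R' : Type} [CommRing R] [Nontrivial R] [Algebra ℚ R] [CommRing R']
    [Nontrivial R'] [Algebra ℚ R'] (f : R →+* R') (x : Rˣ) :
    Br.map f (brc n R x) = brc n R' (Units.map (f : R →* R') x) := by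
  sorry

theorem brc_norm (n : ℕ) {R : Type} [CommRing R] [Nontrivial R] [Algebra ℚ R] (x y : Rˣ)
    (m : Cy n R) (hm : IsUnit m) (hy : Nm (cyc n R) m = algebraMap R (Cy n R) (y : R)) :
    brc n R (x * y) = brc n R x := by
  sorry

theorem brc_field (n : ℕ) {K : Type} [Field K] [Algebra ℚ K]
    (hK : Irreducible (cyclotomic (3 ^ (n + 1)) K)) (a b : Kˣ)
    (h : brc n K a = brc n K b) :
    ∃ c : Cy n K, c ≠ 0 ∧
      algebraMap K (Cy n K) (a : K) = algebraMap K (Cy n K) (b : K) * Nm (cyc n K) c := by
  sorry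

/-- constants: `Nm r = r ^ d` -/
theorem Nm_const (n : ℕ) (R : Type) [CommRing R] (r : R) :
    Nm (cyc n R) (algebraMap R (Cy n R) r) = algebraMap R (Cy n R) (r ^ (2 * 3 ^ n)) := by
  sorry

end Pool.Agent.Helper1.SX
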