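import Pool.Agent.Helper1.SX.Stat

set_option autoImplicit false

/-!
# SX-E-10: continuity for the Krull topology via stabilisers of elements
-/

open IntermediateField Pool.Agent.SB

namespace Pool.Agent.Helper1.SX

/-- a homomorphism into a Galois group with open stabilisers is continuous -/
theorem continuous_of_stab {G : Type} [Group G] [TopologicalSpace G] [IsTopologicalGroup G]
    {K L : Type} [Field K] [Field L] [Algebra K L] (s : G →* (L ≃ₐ[K] L))
    (h : ∀ x : L, IsOpen {g : G | s g x = x}) : Continuous s := by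
  refine continuous_of_continuousAt_one s ?_
  rw [ContinuousAt, map_one]
  intro U hU
  obtain ⟨E, hE, hEU⟩ := (krullTopology_mem_nhds_one_iff K L U).1 hU
  haveI : FiniteDimensional K E := hE
  have h1 : IsOpen (⋂ i, {g : G | s g (Module.finBasis K E i : L) = Module.finBasis K E i}) :=
    isOpen_iInter_of_finite fun i => h _
  have h2 : (⋂ i, {g : G | s g (Module.finBasis K E i : L) = Module.finBasis K E i}) ∈
      nhds (1 : G) := h1.mem_nhds (by simp)
  refine Filter.mem_map.2 (Filter.mem_of_superset h2 fun g hg => ?_)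
  refine hEU ?_
  show s g ∈ E.fixingSubgroup
  rw [IntermediateField.mem_fixingSubgroup_iff]
  intro x hx
  have h3 := (Module.finBasis K E).sum_repr ⟨x, hx⟩
  have h4 := congrArg (fun y : E => (y : L)) h3
  simp only [AddSubmonoidClass.coe_finset_sum, IntermediateField.coe_smul] at h4
  rw [← h4, map_sum]
  refine Finset.sum_congr rfl fun i _ => ?_
  rw [map_smul, Set.mem_iInter.1 hg i]

/-- stabilisers of elements are open in the Galois group of an algebraic extension -/
theorem isOpen_stab {K L : Type} [Field K] [Field L] [Algebra K L] [Algebra.IsAlgebraic K L]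
    (x : L) : IsOpen {σ : L ≃ₐ[K] L | σ x = x} := by
  have hfd : FiniteDimensional K K⟮x⟯ :=
    IntermediateField.adjoin.finiteDimensional (Algebra.IsAlgebraic.isAlgebraic x).isIntegral
  have h1 := IntermediateField.fixingSubgroup_isOpen K⟮x⟯
  convert h1 using 1
  ext σ
  simp only [Set.mem_setOf_eq, SetLike.mem_coe, IntermediateField.mem_fixingSubgroup_iff]
  constructor
  · intro h y hy
    refine IntermediateField.adjoin_induction (F := K) (s := {x})
      (p := fun x _ => σ x = x) ?_ ?_ ?_ ?_ ?_ hy
    · rintro y rfl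
      exact h
    · intro a
      exact σ.commutes a
    · intro a b _ _ ha hb
      rw [map_add, ha, hb]
    · intro a _ ha
      rw [map_inv₀, ha]
    · intro a b _ _ ha hb
      rw [map_mul, ha, hb]
  · intro h
    exact h x (IntermediateField.mem_adjoin_simple_self K x)

/-- a continuous section of `Gal(Ω/K) → Gal(kbar/k)`, `K` the fraction field of `R` (`Ω` an
algebraic closure of `K`) -/
def StrongSec {k Ω : Type} [Field k] [Field Ω] [Algebra k Ω] (R : Subalgebra k Ω) : Prop :=
  ∃ s : (kbar k Ω ≃ₐ[k] kbar k Ω) →* (Ω ≃ₐ[ff R] Ω), Continuous s ∧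
    ∀ (γ : kbar k Ω ≃ₐ[k] kbar k Ω) (θ : kbar k Ω), s γ (θ : Ω) = ((γ θ : kbar k Ω) : Ω)

end Pool.Agent.Helper1.SX
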