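import Pool.Agent.Helper79.BM.Stat
import Pool.Agent.Helper6.NP.Res

set_option autoImplicit false

/-!
# Bridge from `Helper6/NP` to the definitions of `Helper79/BM/Stat.lean`
-/

open IntermediateField

namespace Pool.Agent.Helper1.SX

open Pool.Agent.SB Pool.Agent.Helper6.NP

/-- the compositum of all connected finite étale covers of `Spec B`, `B` between `R` and its
fraction field; for `B` normal the étale fundamental group of `Spec B` is `Gal(K_B/K)` -/
def etK {k Ω : Type} [Field k] [Field Ω] [Algebra k Ω] (R B : Subalgebra k Ω) :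
    IntermediateField (ff R) Ω := adjoin (ff R) (Pool.Agent.BM.etSet B Ω)

theorem etK_eq {k Ω : Type} [Field k] [Field Ω] [Algebra k Ω] (R B : Subalgebra k Ω) :
    etK R B = covB R B := rfl

/-- the projection from the absolute Galois group of the function field of `Spec R` to the
absolute Galois group of `k` has a continuous splitting -/
def StrongCond {k Ω : Type} [Field k] [Field Ω] [Algebra k Ω] (R : Subalgebra k Ω) : Prop :=
  Pool.Agent.BM.HasSplitting k (algebraicClosure k Ω) (ff R) Ω Ω

/-- the splitting condition for the affine variety with coordinate ring `R`, for all rings `B`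
between `R` and its fraction field -/
def SplitCond {k Ω : Type} [Field k] [Field Ω] [Algebra k Ω] (R : Subalgebra k Ω) : Prop :=
  ∀ B : Subalgebra k Ω, R ≤ B → (∀ b ∈ B, b ∈ ff R) →
    Pool.Agent.BM.Splits k (ff R) Ω (etK R B)

theorem strongCond_of_strong {k Ω : Type} [Field k] [Field Ω] [Algebra k Ω]
    (R : Subalgebra k Ω) (h : StrongSplitting R) : StrongCond R := by
  obtain ⟨s, hs, h1⟩ := h
  exact ⟨s, hs, fun γ θ η hη => h1 γ θ η hη⟩

theorem splitCond_of_all {k Ω : Type} [Field k] [Field Ω] [Algebra k Ω]
    (R : Subalgebra k Ω) (h : SplitAll R) : SplitCond R := by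
  intro B h1 h2
  obtain ⟨s, hs, h3⟩ := (h B h1 h2).2
  exact ⟨s, hs, fun γ θ η hη => h3 γ θ η hη⟩

end Pool.Agent.Helper1.SX
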