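import Pool.Agent.Helper1.SX.Frame
import Mathlib.RingTheory.LaurentSeries
import Mathlib.Analysis.Normed.Unbundled.SpectralNorm
import Mathlib.Topology.Algebra.Valued.NormedValued

set_option autoImplicit false

/-!
# SX-E-08: the frame of Laurent series

`F = LaurentSeries ℚ` with `LaurentSeries.valued : Valued F ℤᵐ⁰`, complete (`LaurentSeries.instLaurentSeriesComplete`).  `Valued.v` is nontrivial (`v (single 1 1) = exp (-1)`,
`LaurentSeries.valuation_single_zpow`) and its value group embeds into `ℤᵐ⁰`, archimedean, so `Valuation.nonempty_rankOne_iff_mulArchimedean` gives a `RankOne` structure; then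
`Valued.toNormedField`, `Valued.toNontriviallyNormedField` (same uniformity, so `F` is complete), `IsUltrametricDist` (`Valued.isNonarchimedean_norm`/instance in `NormedValued`).
`N = spectralNorm F Ω`, `Ω = AlgebraicClosure F`: `spectralNorm_nonneg`, `eq_zero_of_map_spectralNorm_eq_zero`, `spectralMulAlgNorm`/`spectralAlgNorm_mul` (multiplicative, `F` complete),
`isNonarchimedean_spectralNorm`, `inv`: `spectralNorm_eq_of_equiv`; `spectralNorm_extends`: `N (algebraMap F Ω x) = ‖x‖`.  `t = HahnSeries.single 1 1`.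
`const`: a rational constant `a ≠ 0` is `HahnSeries.single 0 a` (`HahnSeries.C a`), `v = 1` (`valuation_le_iff_coeff_lt_eq_zero` for `a` and `a⁻¹`), norms and valuations are compared by
`Valued.toNormedField.norm_le_iff`, `one_lt_norm_iff`, `norm_lt_one_iff`, ...  `t_lt`: `v t = exp (-1) < 1`.
`res`: `‖x‖ ≤ 1`: `x.coeff n = 0` for `n < 0` (`valuation_le_iff_coeff_lt_eq_zero`, `D = 0`), `a = x.coeff 0`: `v (x - C a) ≤ exp (-1)` by the same lemma with `D = 1`.
`val`: `v x = exp (-m)` for some `m`, `= v (t ^ m)`, so `‖x‖ = ‖t ^ m‖ = ‖t‖ ^ m`.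
`coeff`: `spectralNorm x ≤ 1` iff all coefficients of `minpoly F x` have norm `≤ 1` (`spectralValue_le_one_iff`).
(The algebra structure over `ℚ` is only used through `algebraMap ℚ (AlgebraicClosure F) a`, which is the cast `(a : AlgebraicClosure F)` by `eq_ratCast` whatever the instance is.)
`pow`: `spectralNorm_eq_norm_coeff_zero_rpow` (or `spectralNorm_pow_natDegree_eq_prod_roots`): `N x ^ n = ‖(minpoly F x).coeff 0‖`, `n` the degree, and `(minpoly F x).coeff 0 ≠ 0`; use `val`.
-/

open IntermediateField Pool.Agent.SB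

namespace Pool.Agent.Helper1.SX

/-- The frame of a complete normed field. -/
private theorem frl_of_normed (F : Type) [NontriviallyNormedField F] [IsUltrametricDist F]
    [CompleteSpace F] [CharZero F] (t : F) (ht0 : t ≠ 0) (ht1 : ‖t‖ < 1)
    (hconst : ∀ a : ℚ, a ≠ 0 → ‖(a : F)‖ = 1)
    (hres : ∀ x : F, ‖x‖ ≤ 1 → ∃ a : ℚ, ‖x - (a : F)‖ < 1)
    (hval : ∀ x : F, x ≠ 0 → ∃ m : ℤ, ‖x‖ = ‖t‖ ^ m) :
    Nonempty (Fr ℚ F (AlgebraicClosure F)) := by
  have hq : ∀ a : ℚ, algebraMap ℚ (AlgebraicClosure F) a =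
      algebraMap F (AlgebraicClosure F) (a : F) := by
    intro a
    rw [eq_ratCast, map_ratCast]
  have hext : ∀ x : F, spectralNorm F (AlgebraicClosure F) (algebraMap F _ x) = ‖x‖ :=
    fun x => spectralNorm_extends x
  have hzero : ∀ x : AlgebraicClosure F, spectralNorm F (AlgebraicClosure F) x = 0 ↔ x = 0 := by
    intro x
    refine ⟨fun h => eq_zero_of_map_spectralNorm_eq_zero h
      (Algebra.IsAlgebraic.isAlgebraic x), fun h => ?_⟩
    rw [h]
    exact spectralNorm_zero
  exact ⟨{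
    N := spectralNorm F (AlgebraicClosure F)
    t := t
    nonneg := spectralNorm_nonneg
    zero_iff := hzero
    mul := fun x y => map_mul (spectralMulAlgNorm F (AlgebraicClosure F)) x y
    add := fun x y => isNonarchimedean_spectralNorm x y
    inv := fun σ x => (spectralNorm_eq_of_equiv σ x).symm
    const := fun a ha => by rw [hq, hext]; exact hconst a ha
    t_pos := by rw [hext]; exact norm_pos_iff.2 ht0
    t_lt := by rw [hext]; exact ht1
    res := fun x hx => by
      rw [hext] at hx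
      obtain ⟨a, ha⟩ := hres x hx
      refine ⟨a, ?_⟩
      rw [hq, ← map_sub, hext]
      exact ha
    val := fun x hx => by
      rw [hext, hext]
      exact hval x hx
    coeff := fun x hx i => by
      rw [hext]
      exact (spectralValue_le_one_iff (minpoly.monic
        (Algebra.IsAlgebraic.isAlgebraic x).isIntegral)).1 hx i
    pow := fun x hx => by
      have hint : IsIntegral F x := (Algebra.IsAlgebraic.isAlgebraic x).isIntegral
      have hd : 0 < (minpoly F x).natDegree := minpoly.natDegree_pos hint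
      refine ⟨(minpoly F x).natDegree, hd, ?_⟩
      obtain ⟨m, hm⟩ := hval ((minpoly F x).coeff 0) (minpoly.coeff_zero_ne_zero hint hx)
      refine ⟨m, ?_⟩
      rw [hext, ← hm, spectralNorm.spectralNorm_eq_norm_coeff_zero_rpow, ← Real.rpow_natCast,
        ← Real.rpow_mul (norm_nonneg _), one_div, inv_mul_cancel₀ (Nat.cast_ne_zero.2 hd.ne'),
        Real.rpow_one] }⟩

section

open WithZero

private theorem frl_v_t : Valued.v (HahnSeries.single (1 : ℤ) (1 : ℚ) : LaurentSeries ℚ) =
    exp (-1 : ℤ) := LaurentSeries.valuation_single_zpow ℚ 1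

private theorem frl_v_le (x : LaurentSeries ℚ) (h : ∀ n : ℤ, n < 0 → x.coeff n = 0) :
    Valued.v x ≤ (1 : ℤᵐ⁰) := by
  have h1 := (LaurentSeries.valuation_le_iff_coeff_lt_eq_zero ℚ (D := 0) (f := x)).2 h
  simpa using h1

private theorem frl_cast (b : ℚ) :
    ((b : ℚ) : LaurentSeries ℚ) = (HahnSeries.C b : LaurentSeries ℚ) := by
  have h := map_ratCast (HahnSeries.C : ℚ →+* LaurentSeries ℚ) b
  rw [Rat.cast_id] at h
  exact h.symm

private theorem frl_charZero : CharZero (LaurentSeries ℚ) :=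
  charZero_of_injective_ringHom (f := (HahnSeries.C : ℚ →+* LaurentSeries ℚ))
    HahnSeries.C_injective

private theorem frl_v_cast (a : ℚ) (ha : a ≠ 0) :
    Valued.v ((a : ℚ) : LaurentSeries ℚ) = (1 : ℤᵐ⁰) := by
  have := frl_charZero
  have h1 : ∀ b : ℚ, Valued.v ((b : ℚ) : LaurentSeries ℚ) ≤ (1 : ℤᵐ⁰) := by
    intro b
    apply frl_v_le
    intro n hn
    rw [frl_cast, HahnSeries.C_apply, HahnSeries.coeff_single_of_ne hn.ne]
  refine le_antisymm (h1 a) ?_
  have h2 := h1 a⁻¹
  rw [Rat.cast_inv, map_inv₀] at h2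
  have h3 : Valued.v ((a : ℚ) : LaurentSeries ℚ) ≠ (0 : ℤᵐ⁰) := by
    rw [Valuation.ne_zero_iff]
    exact Rat.cast_ne_zero.2 ha
  rwa [inv_le_one₀ (zero_lt_iff.2 h3)] at h2

private theorem frl_res (x : LaurentSeries ℚ) (h : Valued.v x ≤ (1 : ℤᵐ⁰)) :
    ∃ a : ℚ, Valued.v (x - ((a : ℚ) : LaurentSeries ℚ)) < (1 : ℤᵐ⁰) := by
  refine ⟨x.coeff 0, ?_⟩
  have hc : ((x.coeff 0 : ℚ) : LaurentSeries ℚ) = HahnSeries.C (x.coeff 0) := frl_cast _
  have h1 : Valued.v (x - ((x.coeff 0 : ℚ) : LaurentSeries ℚ)) ≤ exp (-1 : ℤ) := by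
    rw [LaurentSeries.valuation_le_iff_coeff_lt_eq_zero]
    intro n hn
    rw [hc, HahnSeries.coeff_sub, HahnSeries.C_apply]
    rcases (show n < 0 ∨ n = 0 by omega) with h0 | rfl
    · have h2 : Valued.v x ≤ exp (-(0 : ℤ)) := by simpa using h
      rw [LaurentSeries.coeff_zero_of_lt_valuation ℚ h2 h0, HahnSeries.coeff_single_of_ne h0.ne,
        sub_zero]
    · rw [HahnSeries.coeff_single_same, sub_self]
  refine lt_of_le_of_lt h1 ?_
  rw [← exp_zero, exp_lt_exp]
  norm_num

private theorem frl_val (x : LaurentSeries ℚ) (hx : x ≠ 0) :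
    ∃ m : ℤ, Valued.v x =
      (Valued.v ((HahnSeries.single (1 : ℤ) (1 : ℚ) : LaurentSeries ℚ) ^ m) : ℤᵐ⁰) := by
  have h1 : Valued.v x ≠ (0 : ℤᵐ⁰) := by
    rw [Valuation.ne_zero_iff]
    exact hx
  refine ⟨-(log (Valued.v x)), ?_⟩
  rw [map_zpow₀, frl_v_t, ← exp_zsmul, smul_eq_mul, mul_neg, mul_one, neg_neg, exp_log h1]

private theorem frl_rankOne :
    Nonempty (Valued.v : Valuation (LaurentSeries ℚ) ℤᵐ⁰).RankOne := by
  have h1 : (Valued.v : Valuation (LaurentSeries ℚ) ℤᵐ⁰).IsNontrivial := by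
    refine ⟨HahnSeries.single (1 : ℤ) (1 : ℚ), ?_, ?_⟩
    · rw [frl_v_t]
      exact exp_ne_zero
    · rw [frl_v_t, ← exp_zero]
      intro h
      have := exp_injective h
      omega
  rw [Valuation.nonempty_rankOne_iff_mulArchimedean]
  exact MulArchimedean.comap MonoidWithZeroHom.ValueGroup₀.embedding.toMonoidHom
    MonoidWithZeroHom.ValueGroup₀.embedding_strictMono

end

theorem exists_frame : ∃ (F : Type) (_ : Field F) (_ : CharZero F),
    Nonempty (Fr ℚ F (AlgebraicClosure F)) := by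
  have hch := frl_charZero
  obtain ⟨hv⟩ := frl_rankOne
  refine ⟨LaurentSeries ℚ, inferInstance, hch, ?_⟩
  let _ : NontriviallyNormedField (LaurentSeries ℚ) :=
    Valued.toNontriviallyNormedField (LaurentSeries ℚ) (WithZero (Multiplicative ℤ))
  have : IsUltrametricDist (LaurentSeries ℚ) := inferInstance
  have : CompleteSpace (LaurentSeries ℚ) := LaurentSeries.instLaurentSeriesComplete
  refine frl_of_normed (LaurentSeries ℚ) (HahnSeries.single (1 : ℤ) (1 : ℚ)) ?_ ?_ ?_ ?_ ?_
  · exact HahnSeries.single_ne_zero one_ne_zero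
  · refine Valued.toNormedField.norm_lt_one_iff.2 ?_
    rw [frl_v_t, ← WithZero.exp_zero, WithZero.exp_lt_exp]
    norm_num
  · intro a ha
    have h := frl_v_cast a ha
    exact le_antisymm (Valued.toNormedField.norm_le_one_iff.2 h.le)
      (Valued.toNormedField.one_le_norm_iff.2 h.ge)
  · intro x hx
    obtain ⟨a, ha⟩ := frl_res x (Valued.toNormedField.norm_le_one_iff.1 hx)
    exact ⟨a, Valued.toNormedField.norm_lt_one_iff.2 ha⟩
  · intro x hx
    obtain ⟨m, hm⟩ := frl_val x hx
    refine ⟨m, ?_⟩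
    rw [← norm_zpow]
    exact le_antisymm (Valued.toNormedField.norm_le_iff.2 hm.le)
      (Valued.toNormedField.norm_le_iff.2 hm.ge)

example (F : Type) [Field F] [CharZero F] : IsScalarTower ℚ F (AlgebraicClosure F) :=
  inferInstance

end Pool.Agent.Helper1.SX
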