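import Pool.Agent.Helper1.SX.Frame

set_option autoImplicit false

/-!
# SX-E-07: `1 + t⁴` is a square in `F`

Let `w ∈ Ω` with `w ^ 2 = t ^ 4 + 1` (`IsAlgClosed.exists_pow_nat_eq`).  `(w - 1)(w + 1) = t ^ 4`, so `N (w-1) * N (w+1) < 1`, and `N 2 = 1` (`P.const 2`, `2 ≠ 0` in `k`),
`2 = (w + 1) - (w - 1)`, so not both of `N (w ± 1)` are `< 1`.  If `σ ∈ Gal(Ω/F)` has `σ w ≠ w` then `σ w = - w` (`(σ w)^2 = w^2`) and `N (w - 1) = N (σ (w - 1)) = N (- (w + 1)) = N (w + 1)`:
both are `< 1` or both are `≥ 1`, contradiction.  So `w` is fixed by `Gal(Ω/F)`, `Ω/F` is Galois (characteristic 0), and `w ∈ F` (`InfiniteGalois.mem_bot_iff_fixed` or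
`IsGalois.mem_bot_iff_fixed`; or: the minimal polynomial of `w` over `F` is linear).
-/

open IntermediateField Pool.Agent.SB

namespace Pool.Agent.Helper1.SX

theorem exists_sqrt {k F Ω : Type} [Field k] [Field F] [Field Ω] [Algebra k F] [Algebra F Ω]
    [Algebra k Ω] [IsScalarTower k F Ω] [CharZero k] [Algebra.IsAlgebraic F Ω] [IsAlgClosed Ω]
    (P : Fr k F Ω) : ∃ w : F, w ^ 2 = P.t ^ 4 + 1 := by
  classical
  have hcF : CharZero F := charZero_of_injective_algebraMap (algebraMap k F).injective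
  have hac : IsAlgClosure F Ω := ⟨inferInstance, inferInstance⟩
  have hnor : Normal F Ω := IsAlgClosure.normal F Ω
  have hsep : Algebra.IsSeparable F Ω := inferInstance
  have hgal : IsGalois F Ω := ⟨⟩
  obtain ⟨w, hw⟩ := IsAlgClosed.exists_pow_nat_eq ((algebraMap F Ω P.t) ^ 4 + 1) (n := 2) two_pos
  have h1 : P.N (w - 1) * P.N (w + 1) < 1 := by
    rw [← P.mul]
    have : (w - 1) * (w + 1) = (algebraMap F Ω P.t) ^ 4 := by linear_combination hw
    rw [this, P.N_pow]
    exact pow_lt_one₀ P.t_pos.le P.t_lt (by norm_num)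
  have h2 : P.N (2 : Ω) = 1 := by
    have := P.const 2 two_ne_zero
    rwa [map_ofNat] at this
  have h3 : ¬ (P.N (w - 1) < 1 ∧ P.N (w + 1) < 1) := by
    rintro ⟨ha, hb⟩
    have h4 : P.N ((w + 1) - (w - 1)) < 1 := P.N_sub_lt hb ha
    have h5 : (w + 1) - (w - 1) = 2 := by ring
    rw [h5, h2] at h4
    exact lt_irrefl _ h4
  have h4 : P.N (w - 1) ≠ P.N (w + 1) := by
    intro h
    by_cases h5 : P.N (w + 1) < 1
    · exact h3 ⟨by rw [h]; exact h5, h5⟩
    · push Not at h5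
      rw [h] at h1
      nlinarith
  have hfix : ∀ σ : Ω ≃ₐ[F] Ω, σ w = w := by
    intro σ
    by_contra hne
    have h5 : (σ w) ^ 2 = w ^ 2 := by
      rw [← map_pow, hw, map_add, map_pow, map_one, σ.commutes]
    have h6 : σ w = -w := by
      rcases sq_eq_sq_iff_eq_or_eq_neg.1 h5 with h6 | h6
      · exact absurd h6 hne
      · exact h6
    apply h4
    rw [← P.inv σ (w - 1), map_sub, map_one, h6, show -w - 1 = -(w + 1) by ring, P.N_neg]
  have hbot : w ∈ (⊥ : IntermediateField F Ω) := (InfiniteGalois.mem_bot_iff_fixed w).2 hfix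
  obtain ⟨v, hv⟩ := IntermediateField.mem_bot.1 hbot
  refine ⟨v, (algebraMap F Ω).injective ?_⟩
  rw [map_pow, hv, hw, map_add, map_pow, map_one]

end Pool.Agent.Helper1.SX
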