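import Pool.Agent.Helper1.SX.Krull

set_option autoImplicit false

/-!
# SX-E-12: restriction of automorphisms to a smaller algebraically closed field

`R ⊆ E ⊆ Ω0`, `R ⊆ F ⊆ Ω0`, `E` stable under `Gal(Ω0/F)`.  For `σ ∈ Gal(Ω0/F)`, `z ↦ σ z` is a `k`-automorphism of `E` (inverse from `σ⁻¹`); it fixes `R` pointwise (elements of `R` lie in
`F`), hence `ff R = adjoin k R` pointwise (`adjoin_induction`), so it is an element `τ σ` of `E ≃ₐ[ff R] E`.  `τ` is a homomorphism.  Continuity: `continuous_of_stab`,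
`{σ | τ σ z = z} = {σ | σ (z : Ω0) = z}` is open by `isOpen_stab`.
-/

open IntermediateField Pool.Agent.SB

namespace Pool.Agent.Helper1.SX

theorem gal_transfer {k F Ω0 : Type} [Field k] [Field F] [Field Ω0] [Algebra k F]
    [Algebra F Ω0] [Algebra k Ω0] [IsScalarTower k F Ω0] [Algebra.IsAlgebraic F Ω0]
    (E : IntermediateField k Ω0) (hE : ∀ (σ : Ω0 ≃ₐ[F] Ω0) (z : Ω0), z ∈ E → σ z ∈ E)
    (R : Subalgebra k E) (hR : ∀ r ∈ R, ∃ a : F, algebraMap F Ω0 a = ((r : E) : Ω0)) :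
    ∃ τ : (Ω0 ≃ₐ[F] Ω0) →* (E ≃ₐ[ff R] E), Continuous τ ∧
      ∀ (σ : Ω0 ≃ₐ[F] Ω0) (z : E), ((τ σ z : E) : Ω0) = σ (z : Ω0) := by
  have hfix : ∀ (σ : Ω0 ≃ₐ[F] Ω0) (w : E), w ∈ ff R → σ (w : Ω0) = (w : Ω0) := by
    intro σ w hw
    refine IntermediateField.adjoin_induction (F := k) (s := (R : Set E))
      (p := fun z _ => σ (z : Ω0) = (z : Ω0)) ?_ ?_ ?_ ?_ ?_ hw
    · intro z hz
      obtain ⟨a, ha⟩ := hR z hz
      rw [← ha]
      exact σ.commutes a
    · intro a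
      have e : ((algebraMap k E a : E) : Ω0) = algebraMap F Ω0 (algebraMap k F a) := by
        rw [← IsScalarTower.algebraMap_apply k F Ω0]
        rfl
      rw [e]
      exact σ.commutes _
    · intro a b _ _ ha hb
      rw [E.coe_add, map_add, ha, hb]
    · intro a _ ha
      rw [E.coe_inv, map_inv₀, ha]
    · intro a b _ _ ha hb
      rw [E.coe_mul, map_mul, ha, hb]
  let τ : (Ω0 ≃ₐ[F] Ω0) →* (E ≃ₐ[ff R] E) :=
    { toFun := fun σ =>
        { toFun := fun z => ⟨σ z, hE σ z z.2⟩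
          invFun := fun z => ⟨σ.symm z, hE σ.symm z z.2⟩
          left_inv := fun z => Subtype.ext (σ.symm_apply_apply _)
          right_inv := fun z => Subtype.ext (σ.apply_symm_apply _)
          map_mul' := fun x y => Subtype.ext (map_mul σ _ _)
          map_add' := fun x y => Subtype.ext (map_add σ _ _)
          commutes' := fun w => Subtype.ext (hfix σ w.1 w.2) }
      map_one' := by
        ext z
        rfl
      map_mul' := fun σ ρ => by
        ext z
        rfl }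
  have hτ : ∀ (σ : Ω0 ≃ₐ[F] Ω0) (z : E), ((τ σ z : E) : Ω0) = σ (z : Ω0) := fun _ _ => rfl
  refine ⟨τ, ?_, hτ⟩
  refine continuous_of_stab τ fun x => ?_
  have e : {σ : Ω0 ≃ₐ[F] Ω0 | τ σ x = x} = {σ | σ (x : Ω0) = (x : Ω0)} := by
    ext σ
    show τ σ x = x ↔ σ (x : Ω0) = (x : Ω0)
    rw [← hτ σ x]
    exact Subtype.ext_iff
  rw [e]
  exact isOpen_stab (x : Ω0)

end Pool.Agent.Helper1.SX
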