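import Pool.Agent.Helper1.SX.Krull

set_option autoImplicit false

/-!
# SX-E-11: comparison of the algebraic closures of `k` in `E ⊆ Ω0`

`E` contains all elements of `Ω0` algebraic over `k`, so `e : kbar k E ≃ₐ[k] kbar k Ω0`, `θ ↦ ((θ : E) : Ω0)` is an isomorphism (an element of `E` is algebraic over `k` iff its image in `Ω0` is:
`isAlgebraic_algebraMap_iff`/`isAlgebraic_algHom_iff`).  `c γ = e γ e⁻¹` (`AlgEquiv.autCongr e`); continuity by `continuous_of_stab`: `{γ | c γ θ0 = θ0} = {γ | γ (e⁻¹ θ0) = e⁻¹ θ0}`, open by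
`isOpen_stab` (`kbar k E` is algebraic over `k`).
-/

open IntermediateField Pool.Agent.SB

namespace Pool.Agent.Helper1.SX

theorem kbar_transfer {k Ω0 : Type} [Field k] [Field Ω0] [Algebra k Ω0]
    (E : IntermediateField k Ω0) (hE : ∀ z : Ω0, IsAlgebraic k z → z ∈ E) :
    ∃ c : (kbar k E ≃ₐ[k] kbar k E) →* (kbar k Ω0 ≃ₐ[k] kbar k Ω0), Continuous c ∧
      ∀ (γ : kbar k E ≃ₐ[k] kbar k E) (θ : kbar k E) (θ0 : kbar k Ω0),
        (θ0 : Ω0) = ((θ : E) : Ω0) →
        ((c γ θ0 : kbar k Ω0) : Ω0) = (((γ θ : kbar k E) : E) : Ω0) := by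
  have hmem : ∀ θ : kbar k E, ((θ : E) : Ω0) ∈ kbar k Ω0 := by
    intro θ
    have h1 : IsAlgebraic k (θ : E) := mem_algebraicClosure_iff.1 θ.2
    exact mem_algebraicClosure_iff.2 ((isAlgebraic_algHom_iff E.val E.val.injective).2 h1)
  let f : kbar k E →ₐ[k] kbar k Ω0 :=
    { toFun := fun θ => ⟨((θ : E) : Ω0), hmem θ⟩
      map_one' := rfl
      map_mul' := fun _ _ => rfl
      map_zero' := rfl
      map_add' := fun _ _ => rfl
      commutes' := fun _ => rfl }
  have hf : Function.Bijective f := by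
    constructor
    · intro a b hab
      have h1 : ((a : E) : Ω0) = ((b : E) : Ω0) := congrArg (fun t : kbar k Ω0 => (t : Ω0)) hab
      exact Subtype.ext (Subtype.ext h1)
    · intro z
      have hz : IsAlgebraic k (z : Ω0) := mem_algebraicClosure_iff.1 z.2
      have h2 : IsAlgebraic k (⟨(z : Ω0), hE _ hz⟩ : E) :=
        (isAlgebraic_algHom_iff E.val E.val.injective).1 hz
      exact ⟨⟨⟨(z : Ω0), hE _ hz⟩, mem_algebraicClosure_iff.2 h2⟩, rfl⟩
  let e : kbar k E ≃ₐ[k] kbar k Ω0 := AlgEquiv.ofBijective f hf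
  refine ⟨(AlgEquiv.autCongr e).toMonoidHom, ?_, ?_⟩
  · refine continuous_of_stab _ fun θ0 => ?_
    have h1 : {γ : kbar k E ≃ₐ[k] kbar k E | (AlgEquiv.autCongr e).toMonoidHom γ θ0 = θ0} =
        {γ : kbar k E ≃ₐ[k] kbar k E | γ (e.symm θ0) = e.symm θ0} := by
      ext γ
      show e (γ (e.symm θ0)) = θ0 ↔ γ (e.symm θ0) = e.symm θ0
      constructor
      · intro h
        apply e.injective
        rw [h, AlgEquiv.apply_symm_apply]
      · intro h
        rw [h, AlgEquiv.apply_symm_apply]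
    rw [h1]
    exact isOpen_stab _
  · intro γ θ θ0 h
    have h1 : e θ = θ0 := Subtype.ext h.symm
    show ((e (γ (e.symm θ0)) : kbar k Ω0) : Ω0) = _
    rw [← h1, AlgEquiv.symm_apply_apply]
    rfl

end Pool.Agent.Helper1.SX
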