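import Pool.Agent.Helper1.SX.FrSec
import Pool.Agent.Helper1.SX.FrSqrt
import Pool.Agent.Helper1.SX.FrLaurent
import Pool.Agent.Helper1.SX.TrK
import Pool.Agent.Helper1.SX.TrG

set_option autoImplicit false

/-!
# SX-E-09: the curve with a section of its absolute Galois group

`exists_frame`: `F`, `P`; `Ω0 = AlgebraicClosure F`; `exists_section P`: `s0`; `exists_sqrt P`: `w1 ∈ F`; `u0 = algebraMap F Ω0 P.t`, `w0 = algebraMap F Ω0 w1`, `u0`
transcendental over `ℚ` (`t_transc`), `w0 ^ 2 = u0 ^ 4 + 1`.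
`K0 = adjoin ℚ {u0, w0}`, `E : IntermediateField ℚ Ω0` the elements algebraic over `K0` (`(algebraicClosure K0 Ω0).restrictScalars ℚ`); the type `Ω = E` is a field, algebraically closed, and
`u = ⟨u0, _⟩`, `w = ⟨w0, _⟩`.  Every `z : E` is algebraic over `ff (Rc u w)`: the image of `ff (Rc u w)` in `Ω0` contains `u0`, `w0`, so `K0`; a polynomial over `K0` killing `z` lifts to
`ff (Rc u w)` (`IsAlgebraic` transfer along the isomorphism or: `E` is algebraic over `K0 ⊆ E` and `K0 ≤ (ff (Rc u w)).map E.val`).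
`hE`: `σ ∈ Gal(Ω0/F)` fixes `u0`, `w0`, so `K0` pointwise, and maps elements algebraic over `K0` to such.  `hR`: an element of `Rc u w` is a polynomial in `u, w, u⁻¹, w⁻¹`, its image in `Ω0`
lies in the range of `algebraMap F Ω0` (`Algebra.adjoin_induction`; the range is a subfield containing `ℚ`, `u0`, `w0`).
`kbar_transfer` (elements algebraic over `ℚ` are algebraic over `K0`): `c`; `gal_transfer`: `τ`; `s = τ ∘ s0 ∘ c`: `((s γ θ : E) : Ω0) = s0 (c γ) θ = c γ θ0 = ((γ θ : E) : Ω0)` where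
`θ0 : kbar ℚ Ω0` is the image of `θ`.
(`StrongSec` is defined in `Krull.lean` for a general field `k`, so that `Gal(kbar/k)` has the same algebra structures as in `exists_section`, `kbar_transfer`, `gal_transfer` used with `k = ℚ`;
do not write `kbar ℚ Ω ≃ₐ[ℚ] kbar ℚ Ω` directly, Lean then takes `DivisionRing.toRatAlgebra`; if necessary prove the composition as a lemma over a general `k` first.)
-/

open IntermediateField Pool.Agent.SB

namespace Pool.Agent.Helper1.SX

private theorem Strong_aux {k F Ω0 : Type} [Field k] [Field F] [Field Ω0] [Algebra k F]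
    [Algebra F Ω0] [Algebra k Ω0] [IsScalarTower k F Ω0] [CharZero k] [Algebra.IsAlgebraic F Ω0]
    [IsAlgClosed Ω0] (P : Fr k F Ω0) :
    ∃ (E : IntermediateField k Ω0) (u w : E), IsAlgClosed E ∧ Transcendental k u ∧
      w ^ 2 = u ^ 4 + 1 ∧ (∀ z : E, IsAlgebraic (ff (Algebra.adjoin k {u, w, u⁻¹, w⁻¹})) z) ∧
      ∃ s : (kbar k E ≃ₐ[k] kbar k E) →* (E ≃ₐ[ff (Algebra.adjoin k {u, w, u⁻¹, w⁻¹})] E),
        Continuous s ∧ ∀ (γ : kbar k E ≃ₐ[k] kbar k E) (θ : kbar k E),
          s γ (θ : E) = ((γ θ : kbar k E) : E) := by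
  obtain ⟨s0, hs0c, hs0⟩ := exists_section P
  obtain ⟨w1, hw1⟩ := exists_sqrt P
  set u0 : Ω0 := algebraMap F Ω0 P.t with hu0
  set w0 : Ω0 := algebraMap F Ω0 w1 with hw0
  have hut : Transcendental k u0 := t_transc P
  have hw2 : w0 ^ 2 = u0 ^ 4 + 1 := by
    rw [hw0, hu0, ← map_pow, hw1, map_add, map_pow, map_one]
  set K0 : IntermediateField k Ω0 := adjoin k {u0, w0} with hK0
  have hu0K : u0 ∈ K0 := subset_adjoin k _ (by simp)
  have hw0K : w0 ∈ K0 := subset_adjoin k _ (by simp)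
  set E : IntermediateField k Ω0 := (algebraicClosure K0 Ω0).restrictScalars k with hEdef
  have hEmem : ∀ z : Ω0, z ∈ E ↔ IsAlgebraic K0 z := fun z => mem_algebraicClosure_iff
  have hKE : ∀ z ∈ K0, z ∈ E := fun z hz => by
    rw [hEmem]
    exact isAlgebraic_algebraMap (⟨z, hz⟩ : K0)
  have hclosed : IsAlgClosed E := by
    have h1 : IsAlgClosed (algebraicClosure K0 Ω0) := IsAlgClosure.isAlgClosed K0
    exact h1
  set u : E := ⟨u0, hKE u0 hu0K⟩ with hu
  set w : E := ⟨w0, hKE w0 hw0K⟩ with hw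
  have hKF : ∀ z ∈ K0, ∃ a : F, algebraMap F Ω0 a = z := by
    intro z hz
    have h1 : K0 ≤ (⊥ : IntermediateField F Ω0).restrictScalars k := by
      rw [hK0, adjoin_le_iff]
      rintro x hx
      rcases hx with rfl | hx
      · exact IntermediateField.algebraMap_mem (⊥ : IntermediateField F Ω0) P.t
      · rw [Set.mem_singleton_iff] at hx
        subst hx
        exact IntermediateField.algebraMap_mem (⊥ : IntermediateField F Ω0) w1
    have h2 : z ∈ (⊥ : IntermediateField F Ω0) := h1 hz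
    exact mem_bot.1 h2
  have hut' : Transcendental k u := by
    intro h
    exact hut (h.algHom E.val)
  have hw2' : w ^ 2 = u ^ 4 + 1 := Subtype.ext hw2
  set R : Subalgebra k E := Algebra.adjoin k {u, w, u⁻¹, w⁻¹} with hR
  have huR : u ∈ R := Algebra.subset_adjoin (by simp)
  have hwR : w ∈ R := Algebra.subset_adjoin (by simp)
  -- elements are algebraic over the function field
  have halg : ∀ z : E, IsAlgebraic (ff R) z := by
    intro z
    have hmap : (adjoin k ({u, w} : Set E)).map E.val = K0 := by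
      rw [adjoin_map, Set.image_pair]
      rfl
    have hz : IsAlgebraic K0 (E.val z) := (hEmem _).1 z.2
    let f : adjoin k ({u, w} : Set E) →+* K0 :=
      RingHom.codRestrict ((E.val : E →+* Ω0).comp (algebraMap (adjoin k ({u, w} : Set E)) E)) K0
        (fun x => by
          rw [← hmap]
          exact ⟨(x : E), x.2, rfl⟩)
    have hf : Function.Surjective f := by
      rintro ⟨y, hy⟩
      have hy' := hy
      rw [← hmap] at hy'
      obtain ⟨x, hx, hxy⟩ := hy'
      exact ⟨⟨x, hx⟩, Subtype.ext hxy⟩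
    have h1 : IsAlgebraic (adjoin k ({u, w} : Set E)) z :=
      hz.of_ringHom_of_comp_eq f (E.val : E →+* Ω0) hf E.val.injective rfl
    have h2 : adjoin k ({u, w} : Set E) ≤ ff R := by
      rw [adjoin_le_iff]
      intro x hx
      apply subset_adjoin
      rcases hx with rfl | hx
      · exact huR
      · rw [Set.mem_singleton_iff] at hx
        subst hx
        exact hwR
    exact IsAlgebraic.tower_top_of_subalgebra_le
      (A := (adjoin k ({u, w} : Set E)).toSubalgebra) (B := (ff R).toSubalgebra) h2 h1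
  have hRF : ∀ r ∈ R, ∃ a : F, algebraMap F Ω0 a = ((r : E) : Ω0) := by
    intro r hr
    apply hKF
    have h1 : R ≤ K0.toSubalgebra.comap E.val := by
      rw [hR, Algebra.adjoin_le_iff]
      intro x hx
      rcases hx with rfl | rfl | rfl | hx
      · exact hu0K
      · exact hw0K
      · exact K0.inv_mem hu0K
      · rw [Set.mem_singleton_iff] at hx
        subst hx
        exact K0.inv_mem hw0K
    exact h1 hr
  have hEs : ∀ (σ : Ω0 ≃ₐ[F] Ω0) (z : Ω0), z ∈ E → σ z ∈ E := by
    intro σ z hz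
    rw [hEmem] at hz ⊢
    refine hz.ringHom_of_comp_eq (RingHom.id K0) (σ : Ω0 →+* Ω0) Function.injective_id ?_
    ext x
    obtain ⟨a, ha⟩ := hKF (x : Ω0) x.2
    show (x : Ω0) = σ (x : Ω0)
    rw [← ha, σ.commutes]
  have hEk : ∀ z : Ω0, IsAlgebraic k z → z ∈ E := by
    intro z hz
    rw [hEmem]
    exact hz.tower_top K0
  obtain ⟨c, hc, hc'⟩ := kbar_transfer E hEk
  obtain ⟨τ, hτ, hτ'⟩ := gal_transfer E hEs R hRF
  refine ⟨E, u, w, hclosed, hut', hw2', halg, τ.comp (s0.comp c), hτ.comp (hs0c.comp hc), ?_⟩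
  intro γ θ
  have hθ : IsAlgebraic k (((θ : E)) : Ω0) := by
    have h1 : IsAlgebraic k (θ : E) := mem_algebraicClosure_iff.1 θ.2
    exact h1.algHom E.val
  have h2 := hs0 (c γ) ⟨((θ : E) : Ω0), mem_algebraicClosure_iff.2 hθ⟩
  have h3 := hc' γ θ ⟨((θ : E) : Ω0), mem_algebraicClosure_iff.2 hθ⟩ rfl
  apply Subtype.ext
  rw [← h3, ← h2]
  exact hτ' (s0 (c γ)) (θ : E)

theorem exists_strong :
    ∃ (Ω : Type) (_ : Field Ω) (_ : Algebra ℚ Ω) (_ : IsAlgClosed Ω) (u w : Ω),
      Transcendental ℚ u ∧ w ^ 2 = u ^ 4 + 1 ∧ (∀ z : Ω, IsAlgebraic (ff (Rc u w)) z) ∧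
      StrongSec (Rc u w) := by
  obtain ⟨F, _, _, ⟨P⟩⟩ := exists_frame
  obtain ⟨E, u, w, h1, h2, h3, h4, h5⟩ := Strong_aux P
  exact ⟨E, _, _, h1, u, w, h2, h3, h4, h5⟩

end Pool.Agent.Helper1.SX
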