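import Pool.Agent.Helper79.BM.Bridge
import Pool.Agent.Helper6.NP.Res
import Pool.Agent.Helper1.SX.Strong

set_option autoImplicit false

/-!
# MP_ad201b_nt: both readings of the question

`ProjectiveCase`: for projective varieties over number fields the splitting condition implies that
the Brauer-Manin set is not empty (the result of the hand-in SplittingGivesBrauerManin).
`NonProperCase`: there is a curve over `ℚ`, not proper, with adelic points and with the splitting
condition, whose Brauer-Manin set is empty (the result of the hand-in NonProper), in the language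
of `Helper79/BM/Stat.lean`.
-/

open IntermediateField

namespace Pool.Agent.Helper1.SX

section defs

variable {k Ω : Type} [Field k] [Field Ω] [Algebra k Ω]

/-- the compositum `K_B` of all connected finite étale covers of `Spec B`, `B` between `R` and its
fraction field `K = ff R`; for `B` normal the étale fundamental group of `Spec B` is
`Gal(K_B/K)` -/
def etCov (R B : Subalgebra k Ω) : IntermediateField (ff R) Ω :=
  adjoin (ff R) (Pool.Agent.BM.etSet B Ω)

/-- the projection from the absolute Galois group of the function field of `Spec R` to the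
absolute Galois group of `k` has a continuous splitting -/
def AbsSplits (R : Subalgebra k Ω) : Prop :=
  Pool.Agent.BM.HasSplitting k (algebraicClosure k Ω) (ff R) Ω Ω

/-- the splitting condition for `Spec R`: for all rings `B` between `R` and its fraction field `K`
the field `K_B` contains the algebraic closure of `k`, and the projection from `Gal(K_B/K)` to the
absolute Galois group of `k` has a continuous splitting -/
def AllSplit (R : Subalgebra k Ω) : Prop :=
  ∀ B : Subalgebra k Ω, R ≤ B → (∀ b ∈ B, b ∈ ff R) →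
    (∀ θ : algebraicClosure k Ω, (θ : Ω) ∈ etCov R B) ∧
      Pool.Agent.BM.Splits k (ff R) Ω (etCov R B)

end defs

section statements

open NumberField IsDedekindDomain Pool.Agent.BM

/-- the positive answer for projective varieties -/
def ProjectiveCase : Prop :=
  ∀ (k : Type) [Field k] [NumberField k] (Ω : Type) [Field Ω] [Algebra k Ω] [IsAlgClosed Ω]
    (n : ℕ) (ξ : Fin (n + 1) → Ω), ξ ≠ 0 → Algebra.IsAlgebraic (funField k ξ) Ω →
    SplittingCondition k ξ →
    ∃ (P : ∀ v : HeightOneSpectrum (𝓞 k), Fin (n + 1) → v.adicCompletion k)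
      (Q : ∀ w : InfinitePlace k, Fin (n + 1) → w.Completion),
      (∀ v, OnX k ξ (P v)) ∧ (∀ w, OnX k ξ (Q w)) ∧
      ∀ α : BrClass k ξ, ∃ (B : Type) (_ : Ring B) (_ : Algebra k B), IsAzumaya k B ∧
        (∀ v, ValueIs k α (P v) B) ∧ ∀ w, ValueIs k α (Q w) B

open Pool.Agent.Helper6.NP Pool.Agent.Helper8.BR

/-- the negative answer for varieties which need not be proper: the curve `w² = u⁴ + 1`,
`u w ≠ 0` over `ℚ` -/
def NonProperCase : Prop :=
  ∃ (Ω : Type) (_ : Field Ω) (_ : Algebra ℚ Ω) (_ : IsAlgClosed Ω) (u w : Ω),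
    Transcendental ℚ u ∧ w ^ 2 = u ^ 4 + 1 ∧ (∀ z : Ω, IsAlgebraic (ff (Rc u w)) z) ∧
    IsIntegrallyClosed (Rc u w) ∧ AbsSplits (Rc u w) ∧ AllSplit (Rc u w) ∧
    Nonempty (AdPt (Rc u w)) ∧
    (∀ P : AdPt (Rc u w), ∃ (r : Nat.Primes) (α : Br (Rc u w)), OneBad P α r) ∧
    ∀ I : LocInv, BMset (Rc u w) I = ∅

end statements

open Pool.Agent.Helper6.NP Pool.Agent.Helper8.BR

theorem projectiveCase : ProjectiveCase := by
  intro k _ _ Ω _ _ _ n ξ hξ halg hsplit
  have h1 : Algebra.IsAlgebraic (Pool.Agent.BM.funField k ξ) Ω := halg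
  exact Pool.Agent.BM.main k Ω ξ hξ hsplit

theorem absSplits_of_strong {k Ω : Type} [Field k] [Field Ω] [Algebra k Ω]
    (R : Subalgebra k Ω) (h : StrongSplitting R) : AbsSplits R := by
  obtain ⟨s, hs, h1⟩ := h
  exact ⟨s, hs, fun γ θ η hη => h1 γ θ η hη⟩

theorem allSplit_of_all {k Ω : Type} [Field k] [Field Ω] [Algebra k Ω]
    (R : Subalgebra k Ω) (h : SplitAll R) : AllSplit R := by
  intro B h1 h2
  obtain ⟨s, hs, h3⟩ := (h B h1 h2).2
  exact ⟨(h B h1 h2).1, s, hs, fun γ θ η hη => h3 γ θ η hη⟩

theorem nonProperCase : NonProperCase := by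
  obtain ⟨Ω, iF, iA, iC, u, w, hu, hw, halg, h1⟩ := exists_strong
  have h2 : StrongSplitting (Rc u w) := strong_of_sec (Rc u w) h1
  exact ⟨Ω, iF, iA, iC, u, w, hu, hw, halg, rc_integrallyClosed u w hu hw,
    absSplits_of_strong _ h2, allSplit_of_all _ (splitAll_of_strong (Rc u w) ⟨halg⟩ h2),
    adPt_nonempty u w hu hw, fun P => exists_oneBad u w hu hw P,
    fun I => bmset_empty u w hu hw I⟩

end Pool.Agent.Helper1.SX
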