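import Pool.Agent.Helper1.SX.Stat

set_option autoImplicit false

/-!
# SX-D-01: the curve `w² = u⁴ + 1`: independence, homomorphisms of the coordinate ring

`indep`: if `h1 ≠ 0` then `w = - h0(u)/h1(u)`, so `h0(u)^2 = h1(u)^2 (u^4 + 1)`, and `h0^2 = h1^2 (X^4 + 1)` in `ℚ[X]` (`u` transcendental).  `X^4 + 1` is squarefree of positive degree
(separable: `X^4+1` and `4 X^3` are coprime), and a prime factor of it divides the right side to an odd power: contradiction.  (Or degrees and `Polynomial` gcd argument: `X^4+1` is the cyclotomic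
polynomial `Φ_8`, irreducible over `ℚ`, its multiplicity in `h0^2` is even and in `h1^2 (X^4+1)` odd.)  So `h1 = 0` and `h0(u) = 0`, `h0 = 0`.
`exists_hom`: `π : MvPolynomial (Fin 4) ℚ → Ω`, `X ↦ (u, w, u⁻¹, w⁻¹)` has range `Rc u w` (`Algebra.adjoin_range_eq_range_aeval`); `ρ : MvPolynomial (Fin 4) ℚ → E`, `X ↦ (a, b, a⁻¹, b⁻¹)`.
If `π f = 0` then `ρ f = 0`: for every `f` there are `N` and `h0, h1 ∈ ℚ[X]` with `(u w)^N π f = h0(u) + h1(u) w` and `(a b)^N ρ f = h0(a) + h1(a) b` (induction on `f`: constants, sums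
(common `N`: multiply with `u w`, `(h0 + h1 w) u w = (u h1 (u^4 + 1)) + (u h0) w`), products with a variable).  So `π f = 0` gives `h0 = h1 = 0` by `indep`, `ρ f = 0` as `a b ≠ 0`.
Hence `ρ` factors through the range of `π` (`Ideal.quotientKerAlgEquivOfSurjective` / `Subalgebra` range and lift).
-/

open Polynomial

namespace Pool.Agent.Helper1.SX

section

variable {Ω : Type} [Field Ω] [Algebra ℚ Ω]

private theorem irr8 : Irreducible (X ^ 4 + 1 : ℚ[X]) := by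
  have h : cyclotomic 8 ℚ = X ^ 4 + 1 := by
    have := cyclotomic_prime_pow_eq_geom_sum (R := ℚ) (p := 2) (n := 2) Nat.prime_two
    norm_num [Finset.sum_range_succ] at this
    rw [this]
    ring
  rw [← h]
  exact cyclotomic.irreducible_rat (by norm_num)

private theorem sq_ne (h0 h1 : ℚ[X]) (h : h0 ^ 2 = h1 ^ 2 * (X ^ 4 + 1)) : h1 = 0 := by
  by_contra h1ne
  have hP : Prime (X ^ 4 + 1 : ℚ[X]) := irr8.prime
  have h0ne : h0 ≠ 0 := by
    rintro rfl
    have h2 : h1 ^ 2 * (X ^ 4 + 1) = 0 := by rw [← h]; ring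
    rcases mul_eq_zero.mp h2 with h3 | h3
    · exact h1ne (pow_eq_zero_iff (two_ne_zero) |>.mp h3)
    · exact hP.ne_zero h3
  have f0 : FiniteMultiplicity (X ^ 4 + 1 : ℚ[X]) h0 :=
    FiniteMultiplicity.of_not_isUnit hP.not_isUnit h0ne
  have f1 : FiniteMultiplicity (X ^ 4 + 1 : ℚ[X]) h1 :=
    FiniteMultiplicity.of_not_isUnit hP.not_isUnit h1ne
  have fp : FiniteMultiplicity (X ^ 4 + 1 : ℚ[X]) (h1 ^ 2 * (X ^ 4 + 1)) :=
    FiniteMultiplicity.of_not_isUnit hP.not_isUnit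
      (mul_ne_zero (pow_ne_zero _ h1ne) hP.ne_zero)
  have e0 : multiplicity (X ^ 4 + 1 : ℚ[X]) (h0 ^ 2) =
      2 * multiplicity (X ^ 4 + 1 : ℚ[X]) h0 := f0.multiplicity_pow hP
  have e1 : multiplicity (X ^ 4 + 1 : ℚ[X]) (h1 ^ 2) =
      2 * multiplicity (X ^ 4 + 1 : ℚ[X]) h1 := f1.multiplicity_pow hP
  have e2 : multiplicity (X ^ 4 + 1 : ℚ[X]) (h1 ^ 2 * (X ^ 4 + 1)) =
      multiplicity (X ^ 4 + 1 : ℚ[X]) (h1 ^ 2) + multiplicity (X ^ 4 + 1 : ℚ[X]) (X ^ 4 + 1) :=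
    multiplicity_mul hP fp
  rw [multiplicity_self, e1, ← h, e0] at e2
  omega

theorem indep (u w : Ω) (hu : Transcendental ℚ u) (hw : w ^ 2 = u ^ 4 + 1) (h0 h1 : ℚ[X])
    (h : aeval u h0 + aeval u h1 * w = 0) : h0 = 0 ∧ h1 = 0 := by
  have h1z : h1 = 0 := by
    apply sq_ne h0 h1
    have hinj : Function.Injective (aeval u : ℚ[X] →ₐ[ℚ] Ω) :=
      transcendental_iff_injective.mp hu
    apply hinj
    have e : aeval u h0 = - (aeval u h1 * w) := by linear_combination h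
    simp only [map_pow, map_mul, map_add, aeval_X, map_one]
    rw [e, neg_sq, mul_pow, hw]
  subst h1z
  have h2 : aeval u h0 = 0 := by simpa using h
  refine ⟨?_, rfl⟩
  by_contra hne
  exact hu ⟨h0, hne, h2⟩

theorem u_mem (u w : Ω) : u ∈ Rc u w := Algebra.subset_adjoin (by simp)

theorem w_mem (u w : Ω) : w ∈ Rc u w := Algebra.subset_adjoin (by simp)

theorem u_inv_mem (u w : Ω) : u⁻¹ ∈ Rc u w := Algebra.subset_adjoin (by simp)

theorem w_inv_mem (u w : Ω) : w⁻¹ ∈ Rc u w := Algebra.subset_adjoin (by simp)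

private theorem form {A : Type} [CommRing A] [Algebra ℚ A] (U W : A) (hW : W ^ 2 = U ^ 4 + 1)
    (s : A) (hs : s ∈ Algebra.adjoin ℚ ({U, W} : Set A)) :
    ∃ h0 h1 : ℚ[X], s = aeval U h0 + aeval U h1 * W := by
  induction hs using Algebra.adjoin_induction with
  | mem x hx =>
    rcases hx with rfl | hx
    · exact ⟨X, 0, by simp⟩
    · rw [Set.mem_singleton_iff] at hx
      subst hx
      exact ⟨0, 1, by simp⟩
  | algebraMap r => exact ⟨C r, 0, by simp⟩
  | add x y _ _ hx hy =>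
    obtain ⟨a0, a1, ha⟩ := hx
    obtain ⟨b0, b1, hb⟩ := hy
    refine ⟨a0 + b0, a1 + b1, ?_⟩
    rw [ha, hb, map_add, map_add]
    ring
  | mul x y _ _ hx hy =>
    obtain ⟨a0, a1, ha⟩ := hx
    obtain ⟨b0, b1, hb⟩ := hy
    refine ⟨a0 * b0 + a1 * b1 * (X ^ 4 + 1), a0 * b1 + a1 * b0, ?_⟩
    rw [ha, hb]
    simp only [map_add, map_mul, map_pow, aeval_X, map_one]
    linear_combination (aeval U a1 * aeval U b1) * hW

private theorem den {A : Type} [CommRing A] [Algebra ℚ A] (U W U' W' : A) (hU : U * U' = 1)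
    (hW : W * W' = 1) (s : A) (hs : s ∈ Algebra.adjoin ℚ ({U, W, U', W'} : Set A)) :
    ∃ N : ℕ, (U * W) ^ N * s ∈ Algebra.adjoin ℚ ({U, W} : Set A) := by
  have mU : U ∈ Algebra.adjoin ℚ ({U, W} : Set A) := Algebra.subset_adjoin (by simp)
  have mW : W ∈ Algebra.adjoin ℚ ({U, W} : Set A) := Algebra.subset_adjoin (by simp)
  have mUW : U * W ∈ Algebra.adjoin ℚ ({U, W} : Set A) := mul_mem mU mW
  induction hs using Algebra.adjoin_induction with
  | mem x hx =>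
    rcases hx with rfl | rfl | rfl | hx
    · exact ⟨0, by simpa using mU⟩
    · exact ⟨0, by simpa using mW⟩
    · refine ⟨1, ?_⟩
      have e : (U * W) ^ 1 * x = W := by linear_combination W * hU
      rw [e]
      exact mW
    · rw [Set.mem_singleton_iff] at hx
      subst hx
      refine ⟨1, ?_⟩
      have e : (U * W) ^ 1 * x = U := by linear_combination U * hW
      rw [e]
      exact mU
  | algebraMap r => exact ⟨0, mul_mem (pow_mem mUW 0) (Subalgebra.algebraMap_mem _ r)⟩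
  | add x y _ _ hx hy =>
    obtain ⟨N, hN⟩ := hx
    obtain ⟨M, hM⟩ := hy
    refine ⟨N + M, ?_⟩
    have e : (U * W) ^ (N + M) * (x + y) =
        (U * W) ^ M * ((U * W) ^ N * x) + (U * W) ^ N * ((U * W) ^ M * y) := by ring
    rw [e]
    exact add_mem (mul_mem (pow_mem mUW _) hN) (mul_mem (pow_mem mUW _) hM)
  | mul x y _ _ hx hy =>
    obtain ⟨N, hN⟩ := hx
    obtain ⟨M, hM⟩ := hy
    refine ⟨N + M, ?_⟩
    have e : (U * W) ^ (N + M) * (x * y) = ((U * W) ^ N * x) * ((U * W) ^ M * y) := by ring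
    rw [e]
    exact mul_mem hN hM

theorem exists_hom (u w : Ω) (hu : Transcendental ℚ u) (hw : w ^ 2 = u ^ 4 + 1) {E : Type}
    [Field E] [CharZero E] (a b : E) (ha : a ≠ 0) (hb : b ≠ 0) (hab : b ^ 2 = a ^ 4 + 1) :
    ∃ f : Rc u w →+* E, f ⟨u, u_mem u w⟩ = a ∧ f ⟨w, w_mem u w⟩ = b := by
  letI : Algebra ℚ E := DivisionRing.toRatAlgebra
  have hu0 : u ≠ 0 := by
    rintro rfl
    exact hu (isAlgebraic_zero)
  have hw0 : w ≠ 0 := by
    rintro rfl
    apply hu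
    refine ⟨X ^ 4 + 1, irr8.ne_zero, ?_⟩
    simp only [map_add, map_pow, aeval_X, map_one]
    rw [← hw]
    ring
  have hUU : ((u, a) : Ω × E) * (u⁻¹, a⁻¹) = 1 := by
    ext
    · exact mul_inv_cancel₀ hu0
    · exact mul_inv_cancel₀ ha
  have hWW : ((w, b) : Ω × E) * (w⁻¹, b⁻¹) = 1 := by
    ext
    · exact mul_inv_cancel₀ hw0
    · exact mul_inv_cancel₀ hb
  have hW2 : ((w, b) : Ω × E) ^ 2 = (u, a) ^ 4 + 1 := by
    ext
    · exact hw
    · exact hab
  let S : Subalgebra ℚ (Ω × E) :=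
    Algebra.adjoin ℚ ({(u, a), (w, b), (u⁻¹, a⁻¹), (w⁻¹, b⁻¹)} : Set (Ω × E))
  have hfst : S.map (AlgHom.fst ℚ Ω E) = Rc u w := by
    change (Algebra.adjoin ℚ _).map _ = Algebra.adjoin ℚ _
    rw [AlgHom.map_adjoin]
    congr 1
    simp only [Set.image_insert_eq, Set.image_singleton]
    rfl
  have hker : ∀ s ∈ S, s.1 = 0 → s.2 = 0 := by
    intro s hs hs1
    obtain ⟨N, hN⟩ := den _ _ _ _ hUU hWW s hs
    obtain ⟨h0, h1, hr⟩ := form _ _ hW2 _ hN
    have e1 := congrArg (AlgHom.fst ℚ Ω E) hr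
    have e2 := congrArg (AlgHom.snd ℚ Ω E) hr
    rw [map_add, map_mul, map_mul, ← aeval_algHom_apply, ← aeval_algHom_apply] at e1 e2
    have hs1' : (AlgHom.fst ℚ Ω E) s = 0 := hs1
    rw [hs1', mul_zero] at e1
    have hz := indep u w hu hw h0 h1 e1.symm
    rw [hz.1, hz.2, map_zero, zero_mul, add_zero, map_pow] at e2
    rcases mul_eq_zero.mp e2 with e3 | e3
    · exact absurd (eq_zero_of_pow_eq_zero e3) (mul_ne_zero ha hb)
    · exact e3
  let φ : S →ₐ[ℚ] Rc u w := ((AlgHom.fst ℚ Ω E).comp S.val).codRestrict (Rc u w) (by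
    intro x
    rw [← hfst]
    exact Subalgebra.mem_map.mpr ⟨x.1, x.2, rfl⟩)
  have hφ : ∀ x : S, ((φ x : Rc u w) : Ω) = x.1.1 := fun _ => rfl
  have hbij : Function.Bijective φ := by
    constructor
    · rw [injective_iff_map_eq_zero]
      intro x hx
      have h1 : x.1.1 = 0 := by
        rw [← hφ x, hx]
        rfl
      have h2 := hker x.1 x.2 h1
      apply Subtype.ext
      exact Prod.ext h1 h2
    · rintro ⟨y, hy⟩
      rw [← hfst] at hy
      obtain ⟨s, hs, hsy⟩ := Subalgebra.mem_map.mp hy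
      exact ⟨⟨s, hs⟩, Subtype.ext hsy⟩
  let e := AlgEquiv.ofBijective φ hbij
  have mU : ((u, a) : Ω × E) ∈ S := Algebra.subset_adjoin (by simp)
  have mW : ((w, b) : Ω × E) ∈ S := Algebra.subset_adjoin (by simp)
  refine ⟨((AlgHom.snd ℚ Ω E).comp S.val).toRingHom.comp (e.symm : Rc u w →+* S), ?_, ?_⟩
  · have h1 : e.symm ⟨u, u_mem u w⟩ = ⟨(u, a), mU⟩ := by
      rw [AlgEquiv.symm_apply_eq]
      rfl
    change ((e.symm ⟨u, u_mem u w⟩ : S) : Ω × E).2 = a
    rw [h1]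
  · have h1 : e.symm ⟨w, w_mem u w⟩ = ⟨(w, b), mW⟩ := by
      rw [AlgEquiv.symm_apply_eq]
      rfl
    change ((e.symm ⟨w, w_mem u w⟩ : S) : Ω × E).2 = b
    rw [h1]

end

end Pool.Agent.Helper1.SX
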