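import Mathlib

set_option autoImplicit false

/-!
# SX-B-01: `2` is a primitive root modulo `3 ^ (n + 1)`

`two_pow_eq_one`: `2^s = 1` mod `3^(n+1)` implies `2^s = 1` mod `3`, so `s = 2t`; `v_3(4^t - 1) = 1 + v_3(t)` for `t > 0` (lifting the exponent:
`Nat.emultiplicity_pow_sub_pow` / `padicValNat.pow_sub_pow`), so `3^(n+1) ∣ 4^t - 1` iff `3^n ∣ t`.
`exists_two_pow`: the unit group has `φ(3^(n+1)) = 2 * 3^n` elements, the order of the unit `2` is `2 * 3^n`, so it generates.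
-/

namespace Pool.Agent.Helper1.SX

theorem two_pow_eq_one (n s : ℕ) : (2 : ZMod (3 ^ (n + 1))) ^ s = 1 ↔ 2 * 3 ^ n ∣ s := by
  sorry

theorem exists_two_pow (n : ℕ) (a : ZMod (3 ^ (n + 1))) (ha : IsUnit a) :
    ∃ s : ℕ, a = 2 ^ s := by
  sorry

end Pool.Agent.Helper1.SX
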