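import Pool.Agent.Helper1.SX.CycDefs
import Pool.Agent.Helper1.SX.Two

set_option autoImplicit false

/-!
# SX-B-02: the cyclotomic rings `Cy n R = R[X] / Φ_{3^(n+1)}`

`exists_sg`: `ζ` = root.  `ζ ^ (3^(n+1)) = 1` (`cyclotomic.dvd_X_pow_sub_one`).  `Φ_m(ζ^2) = 0` in `Cy n R`, `m = 3^(n+1)`: `Φ_m(X^2) = Φ_(2m)(X) Φ_m(X)`
(`Polynomial.cyclotomic_expand_eq_cyclotomic_mul` with the prime `2`, `¬ 2 ∣ m`), so `ζ ↦ ζ^2` defines an algebra endomorphism `σ` (`AdjoinRoot.liftAlgHom`),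
`σ^i ζ = ζ^(2^i)`, and `2^(2 * 3^n) = 1` mod `m` (`two_pow_eq_one`), so `σ^(2 * 3^n) = id` (`AdjoinRoot.algHom_ext`); hence `σ` is an equivalence.
`cy_basis`: `AdjoinRoot.powerBasis'` (`cyclotomic.monic`), degree `φ(3^(n+1)) = 2 * 3^n`.
-/

open Polynomial

namespace Pool.Agent.Helper1.SX

/-- the cyclotomic ring of level `3 ^ (n + 1)` -/
abbrev Cy (n : ℕ) (R : Type) [CommRing R] : Type := AdjoinRoot (cyclotomic (3 ^ (n + 1)) R)

/-- the root of unity -/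
noncomputable abbrev zt (n : ℕ) (R : Type) [CommRing R] : Cy n R :=
  AdjoinRoot.root (cyclotomic (3 ^ (n + 1)) R)

theorem zt_pow (n : ℕ) (R : Type) [CommRing R] : zt n R ^ (3 ^ (n + 1)) = 1 := by
  sorry

theorem exists_sg (n : ℕ) (R : Type) [CommRing R] : ∃ σ : Cy n R ≃ₐ[R] Cy n R,
    σ (zt n R) = zt n R ^ 2 ∧ σ ^ (2 * 3 ^ n) = 1 := by
  sorry

/-- the cyclotomic data -/
noncomputable def cyc (n : ℕ) (R : Type) [CommRing R] : Cyc R (Cy n R) where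
  d := 2 * 3 ^ n
  two := by
    have := Nat.one_le_pow n 3 (by norm_num)
    omega
  σ := (exists_sg n R).choose
  pow := (exists_sg n R).choose_spec.2

theorem cyc_zt (n : ℕ) (R : Type) [CommRing R] : (cyc n R).σ (zt n R) = zt n R ^ 2 :=
  (exists_sg n R).choose_spec.1

theorem cyc_pow_zt (n : ℕ) (R : Type) [CommRing R] (i : ℕ) :
    ((cyc n R).σ ^ i) (zt n R) = zt n R ^ (2 ^ i) := by
  sorry

theorem exists_cy_basis (n : ℕ) (R : Type) [CommRing R] [Nontrivial R] :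
    ∃ e : Module.Basis (Fin (2 * 3 ^ n)) R (Cy n R), ∀ k, e k = zt n R ^ (k : ℕ) := by
  sorry

theorem exists_cyMap (n : ℕ) (R R' : Type) [CommRing R] [CommRing R'] [Algebra R R'] :
    ∃ ψ : Cy n R →+* Cy n R', ψ (zt n R) = zt n R' ∧
      (∀ r : R, ψ (algebraMap R (Cy n R) r) = algebraMap R' (Cy n R') (algebraMap R R' r)) ∧
      ∀ s, ψ ((cyc n R).σ s) = (cyc n R').σ (ψ s) := by
  sorry

end Pool.Agent.Helper1.SX
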