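import Pool.Agent.Helper1.SX.Cy

set_option autoImplicit false

/-!
# SX-B-03: the cyclotomic rings over `ℚ`-algebras are Galois

PROOF of `cy_galC`.  `m = 3^(n+1)`, `d = 2 * 3^n`.  Over `ℚ`: `Cy n ℚ` is a field (`cyclotomic.irreducible_rat`), `ζ` is a primitive `m`-th root of unity in it
(`isRoot_cyclotomic_iff`; root of `Φ_m` in a field of characteristic `0`).  The matrix `(σ^i (ζ^k)) = ((ζ^(2^i))^k)` is the Vandermonde matrix of the
elements `ζ^(2^i)`, `i < d`, which are distinct (`two_pow_eq_one`: `2^i = 2^j` mod `m` only for `i = j` mod `d`), so `det ≠ 0`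
(`Matrix.det_vandermonde_ne_zero_iff`), a unit.  For `R`: the basis of `exists_cy_basis`; the matrix for `R` is the image of the matrix for `ℚ` under the ring
homomorphism `ψ : Cy n ℚ → Cy n R` of `exists_cyMap` (`RingHom.map_det`), so its determinant is a unit.
-/

open Polynomial

namespace Pool.Agent.Helper1.SX

theorem cy_galC (n : ℕ) (R : Type) [CommRing R] [Nontrivial R] [Algebra ℚ R] :
    GalC (cyc n R) := by
  sorry

end Pool.Agent.Helper1.SX
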