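import Pool.Agent.Helper1.SX.Cy

set_option autoImplicit false

/-!
# SX-B-05: invariants of `σ`

Let `m = 3^(n+1)`, `d = 2 * 3^n`, `Tr s = ∑_{i<d} σ^i s`.
(1) `Tr (ζ^k) ∈ ℤ`: `∑_{i<d} ζ^(2^i k) = ∑_{a ∈ (ℤ/m)^*} ζ^(a k)` (`2^i` runs through the units mod `m`: `two_pow_eq_one`, `exists_two_pow`) `= ∑_{a mod m} ζ^(ak) - ∑_{b mod m/3} ζ^(3bk)`.
`∑_{a mod m} ζ^(ak)` is `m` if `m ∣ k` and `0` otherwise: for `R = ℤ` (`Cy n ℤ` is a domain, `cyclotomic.irreducible`) geometric sum; the general case by the map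
`Cy n ℤ → Cy n R`.  The same for the second sum (`ζ^3` has order `m/3`).  (Any other proof: `Tr(ζ^k)` is a symmetric expression; or show over `ℚ` that it is in `ℚ` and integral over `ℤ`.)
(2) so `Tr s ∈ R` for all `s` (`R`-linear, `ζ^k` is a basis).
(3) `ω = ζ^(3^n)`: `Tr ω = ∑_{i<d} ω^(2^i) = 3^n (ω + ω^2) = -3^n` (`ω^3 = 1`; `Φ_m(X) = Φ_3(X^(3^n))`: `cyclotomic_prime_pow_eq_geom_sum`, so `1 + ω + ω^2 = 0`).
`exists_trace_one`: `e = -(3^n)⁻¹ ω`.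
`inv_mem`: `s = s Tr(e) = Tr (s e)` if `σ s = s`; in `R` by (2).
-/

open Polynomial

namespace Pool.Agent.Helper1.SX

theorem trace_mem (n : ℕ) (R : Type) [CommRing R] [Nontrivial R] (s : Cy n R) :
    ∃ r : R, ∑ i ∈ Finset.range (2 * 3 ^ n), ((cyc n R).σ ^ i) s = algebraMap R (Cy n R) r := by
  sorry

theorem exists_trace_one (n : ℕ) (R : Type) [CommRing R] (h3 : IsUnit (3 : R)) :
    ∃ e : Cy n R, ∑ i ∈ Finset.range (2 * 3 ^ n), ((cyc n R).σ ^ i) e = 1 := by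
  sorry

theorem inv_mem (n : ℕ) (R : Type) [CommRing R] [Nontrivial R] (h3 : IsUnit (3 : R))
    (s : Cy n R) (hs : (cyc n R).σ s = s) : ∃ r : R, s = algebraMap R (Cy n R) r := by
  sorry

theorem Nm_mem (n : ℕ) (R : Type) [CommRing R] [Nontrivial R] (h3 : IsUnit (3 : R))
    (s : Cy n R) : ∃ r : R, Nm (cyc n R) s = algebraMap R (Cy n R) r := by
  sorry

end Pool.Agent.Helper1.SX
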