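import Mathlib

set_option autoImplicit false

/-!
# PROJECT SX, block A: cyclic algebras over commutative rings, definitions

`S` is a commutative `R`-algebra with an automorphism `σ` of order dividing `d ≥ 2`.  The cyclic
algebra `CA C x` is `⨁_{i < d} S z^i` with `z s = σ(s) z`, `z ^ d = x`.
-/

open scoped TensorProduct

namespace Pool.Agent.Helper1.SX

/-- an automorphism of order dividing `d` -/
structure Cyc (R S : Type) [CommRing R] [CommRing S] [Algebra R S] where
  /-- the order -/
  d : ℕ
  two : 2 ≤ d
  /-- the automorphism -/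
  σ : S ≃ₐ[R] S
  pow : σ ^ d = 1

section

variable {R S : Type} [CommRing R] [CommRing S] [Algebra R S]

instance (C : Cyc R S) : NeZero C.d := ⟨by have := C.two; omega⟩

/-- the wrap factor of `z^i z^j` -/
def wr (d : ℕ) (x : R) (i j : ZMod d) : R := if d ≤ i.val + j.val then x else 1

/-- the cyclic algebra: the function `a` stands for `∑ a_i z^i` -/
def CA (C : Cyc R S) (_ : R) : Type := ZMod C.d → S

instance (C : Cyc R S) (x : R) : AddCommGroup (CA C x) :=
  inferInstanceAs (AddCommGroup (ZMod C.d → S))

instance (C : Cyc R S) (x : R) : Module R (CA C x) :=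
  inferInstanceAs (Module R (ZMod C.d → S))

instance (C : Cyc R S) (x : R) : Module S (CA C x) :=
  inferInstanceAs (Module S (ZMod C.d → S))

/-- multiplication -/
noncomputable def caMul (C : Cyc R S) (x : R) (a b : ZMod C.d → S) : ZMod C.d → S := fun m =>
  ∑ i : ZMod C.d, a i * (C.σ ^ i.val) (b (m - i)) * algebraMap R S (wr C.d x i (m - i))

/-- the norm of `s` -/
def Nm (C : Cyc R S) (s : S) : S := ∏ i ∈ Finset.range C.d, (C.σ ^ i) s

/-- `S / R` is Galois with group generated by `σ`: for a basis `e` of `S` the matrix `σ^i(e_k)`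
is invertible -/
def GalC (C : Cyc R S) : Prop :=
  ∃ e : Module.Basis (Fin C.d) R S,
    IsUnit (Matrix.of fun i k : Fin C.d => (C.σ ^ (i : ℕ)) (e k)).det

end

end Pool.Agent.Helper1.SX
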