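import Pool.Agent.Helper1.SX.CycRing

set_option autoImplicit false

/-!
# SX-A-02: generators of the cyclic algebra and its universal property

`ι s = Pi.single 0 s`, `z = Pi.single 1 1` (`1 ≠ 0` in `ZMod d` as `d ≥ 2`).
`z_comm`, `z_mul`: compute `caMul` with `Pi.single` (`Finset.sum_eq_single`).
`ι_mul_z_pow`: `ι s * z ^ i = Pi.single i s` for `i < d` (induction on `i`: `Pi.single i s * z = Pi.single (i+1) s` for `i + 1 < d`,
`wr = 1` as `i + 1 < d`).  `z_pow`: `z ^ (d-1) = Pi.single (d-1) 1` and one more `z` wraps: factor `x`.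
`exists_lift`: `f a = ∑ i : ZMod d, φ (a i) * Z ^ i.val`; multiplicative: by bilinearity for `a = Pi.single i s`, `b = Pi.single j t`:
`φ s Z^i φ t Z^j = φ (s σ^i t) Z^(i+j)` and `Z^(i+j) = Z^((i+j).val) * (x or 1)` by `Z ^ d = x`.
-/

namespace Pool.Agent.Helper1.SX

variable {R S : Type} [CommRing R] [CommRing S] [Algebra R S]

theorem caMul_single_left (C : Cyc R S) (x : R) (i : ZMod C.d) (s : S) (b : ZMod C.d → S)
    (m : ZMod C.d) : caMul C x (Pi.single i s) b m =
      s * (C.σ ^ i.val) (b (m - i)) * algebraMap R S (wr C.d x i (m - i)) := by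
  unfold caMul
  rw [Finset.sum_eq_single i]
  · rw [Pi.single_eq_same]
  · intro j _ hj
    rw [Pi.single_eq_of_ne hj, zero_mul, zero_mul]
  · intro h
    exact absurd (Finset.mem_univ _) h

theorem caMul_single_single (C : Cyc R S) (x : R) (i j : ZMod C.d) (s t : S) :
    caMul C x (Pi.single i s) (Pi.single j t) =
      Pi.single (i + j) (s * (C.σ ^ i.val) t * algebraMap R S (wr C.d x i j)) := by
  funext m
  rw [caMul_single_left]
  by_cases h : m = i + j
  · subst h
    rw [add_sub_cancel_left, Pi.single_eq_same, Pi.single_eq_same]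
  · rw [Pi.single_eq_of_ne h, Pi.single_eq_of_ne, map_zero, mul_zero, zero_mul]
    intro h1
    exact h (by rw [← h1]; ring)

/-- the inclusion of `S` -/
noncomputable def ι (C : Cyc R S) (x : R) : S →ₐ[R] CA C x where
  toFun s := (Pi.single 0 s : ZMod C.d → S)
  map_one' := rfl
  map_mul' s t := by
    change (Pi.single 0 (s * t) : ZMod C.d → S) = caMul C x (Pi.single 0 s) (Pi.single 0 t)
    rw [caMul_single_single, wr_zero_left, map_one, mul_one, add_zero, ZMod.val_zero, pow_zero]
    rfl
  map_zero' := by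
    exact Pi.single_zero 0
  map_add' s t := by
    exact Pi.single_add (f := fun _ : ZMod C.d => S) 0 s t
  commutes' r := by
    exact (ca_algebraMap C x r).symm

theorem ι_apply (C : Cyc R S) (x : R) (s : S) : ι C x s = (Pi.single 0 s : ZMod C.d → S) := rfl

/-- the generator `z` -/
noncomputable def zz (C : Cyc R S) (x : R) : CA C x := (Pi.single 1 1 : ZMod C.d → S)

private theorem one_val (C : Cyc R S) : (1 : ZMod C.d).val = 1 := by
  have := C.two
  have : Fact (1 < C.d) := ⟨by omega⟩
  exact ZMod.val_one _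

theorem z_comm (C : Cyc R S) (x : R) (s : S) : zz C x * ι C x s = ι C x (C.σ s) * zz C x := by
  rw [ca_mul_def, ca_mul_def]
  unfold zz
  rw [ι_apply, ι_apply, caMul_single_single, caMul_single_single, wr_zero_left, wr_zero_right,
    one_val, pow_one, add_zero, zero_add, ZMod.val_zero, pow_zero, one_mul, map_one, map_one,
    mul_one, mul_one]

private theorem single_mul_z (C : Cyc R S) (x : R) (s : S) (i : ZMod C.d) :
    (show CA C x from (Pi.single i s : ZMod C.d → S)) * zz C x =
      (Pi.single (i + 1) (s * algebraMap R S (wr C.d x i 1)) : ZMod C.d → S) := by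
  rw [ca_mul_def]
  unfold zz
  rw [caMul_single_single, map_one, mul_one]

private theorem ι_mul_z_pow_nat (C : Cyc R S) (x : R) (s : S) (n : ℕ) (hn : n < C.d) :
    ι C x s * zz C x ^ n = (Pi.single (n : ZMod C.d) s : ZMod C.d → S) := by
  induction n with
  | zero => rw [pow_zero, mul_one, Nat.cast_zero, ι_apply]
  | succ n ih =>
    have h1 : ((n : ZMod C.d)).val = n := ZMod.val_cast_of_lt (by omega)
    have h2 := single_mul_z C x s (n : ZMod C.d)
    rw [pow_succ, ← mul_assoc, ih (by omega)]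
    refine h2.trans ?_
    have h3 : wr C.d x (n : ZMod C.d) 1 = 1 := by
      unfold wr
      rw [h1, one_val, if_neg (by omega)]
    rw [h3, map_one, mul_one, Nat.cast_succ]

theorem ι_mul_z_pow (C : Cyc R S) (x : R) (s : S) (i : ZMod C.d) :
    ι C x s * zz C x ^ i.val = (Pi.single i s : ZMod C.d → S) := by
  rw [ι_mul_z_pow_nat C x s i.val (ZMod.val_lt i), ZMod.natCast_zmod_val]

theorem z_pow (C : Cyc R S) (x : R) : zz C x ^ C.d = algebraMap R (CA C x) x := by
  have h2 := C.two
  obtain ⟨n, hn⟩ : ∃ n, C.d = n + 1 := ⟨C.d - 1, by omega⟩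
  have h1 : ((n : ZMod C.d)).val = n := ZMod.val_cast_of_lt (by omega)
  have h3 := ι_mul_z_pow_nat C x 1 n (by omega)
  rw [map_one, one_mul] at h3
  have h4 := single_mul_z C x 1 (n : ZMod C.d)
  have h5 : zz C x ^ C.d = zz C x ^ n * zz C x := by
    rw [← pow_succ, ← hn]
  rw [h5, h3, ca_algebraMap]
  refine h4.trans ?_
  have h6 : wr C.d x (n : ZMod C.d) 1 = x := by
    unfold wr
    rw [h1, one_val, if_pos (by omega)]
  have h7 : (n : ZMod C.d) + 1 = 0 := by
    rw [← Nat.cast_succ, Nat.succ_eq_add_one, ← hn, ZMod.natCast_self]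
  rw [h6, h7, one_mul]

theorem ca_eq_sum (C : Cyc R S) (x : R) (a : CA C x) :
    a = ∑ i : ZMod C.d, ι C x ((a : ZMod C.d → S) i) * zz C x ^ i.val := by
  simp_rw [ι_mul_z_pow]
  exact (Finset.univ_sum_single (a : ZMod C.d → S)).symm

private theorem Z_pow_add {B : Type} [Ring B] [Algebra R B] (C : Cyc R S) (x : R) (Z : B)
    (hd : Z ^ C.d = algebraMap R B x) (i j : ZMod C.d) :
    Z ^ i.val * Z ^ j.val = algebraMap R B (wr C.d x i j) * Z ^ (i + j).val := by
  have hi := ZMod.val_lt i
  have hj := ZMod.val_lt j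
  rw [← pow_add]
  unfold wr
  rcases Nat.lt_or_ge (i.val + j.val) C.d with h | h
  · rw [if_neg (by omega), map_one, one_mul, ZMod.val_add, Nat.mod_eq_of_lt h]
  · rw [if_pos h, ZMod.val_add, Nat.mod_eq_sub_mod h, Nat.mod_eq_of_lt (by omega), ← hd,
      ← pow_add]
    congr 1
    omega

private theorem Z_pow_comm {B : Type} [Ring B] [Algebra R B] (C : Cyc R S) (φ : S →ₐ[R] B)
    (Z : B) (hZ : ∀ s, Z * φ s = φ (C.σ s) * Z) (n : ℕ) (s : S) :
    Z ^ n * φ s = φ ((C.σ ^ n) s) * Z ^ n := by
  induction n generalizing s with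
  | zero => simp
  | succ n ih =>
    rw [pow_succ, mul_assoc, hZ, ← mul_assoc, ih, mul_assoc, ← pow_succ, pow_succ C.σ n]
    rfl

theorem exists_lift (C : Cyc R S) (x : R) {B : Type} [Ring B] [Algebra R B] (φ : S →ₐ[R] B)
    (Z : B) (hZ : ∀ s, Z * φ s = φ (C.σ s) * Z) (hd : Z ^ C.d = algebraMap R B x) :
    ∃ f : CA C x →ₐ[R] B, (∀ s, f (ι C x s) = φ s) ∧ f (zz C x) = Z ∧
      ∀ a : CA C x, f a = ∑ i : ZMod C.d, φ ((a : ZMod C.d → S) i) * Z ^ i.val := by
  classical
  -- the additive map
  let g : (ZMod C.d → S) →ₗ[R] B :=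
    { toFun := fun a => ∑ i : ZMod C.d, φ (a i) * Z ^ i.val
      map_add' := fun a b => by
        simp only [Pi.add_apply, map_add, add_mul, Finset.sum_add_distrib]
      map_smul' := fun r a => by
        simp only [Pi.smul_apply, map_smul, smul_mul_assoc, Finset.smul_sum, RingHom.id_apply] }
  have hg : ∀ a, g a = ∑ i : ZMod C.d, φ (a i) * Z ^ i.val := fun a => rfl
  have hgs : ∀ i s, g (Pi.single i s) = φ s * Z ^ i.val := by
    intro i s
    rw [hg, Finset.sum_eq_single i]
    · rw [Pi.single_eq_same]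
    · intro j _ hj
      rw [Pi.single_eq_of_ne hj, map_zero, zero_mul]
    · intro h
      exact absurd (Finset.mem_univ _) h
  have hss : ∀ i j s t, g (caMul C x (Pi.single i s) (Pi.single j t)) =
      g (Pi.single i s) * g (Pi.single j t) := by
    intro i j s t
    rw [caMul_single_single, hgs, hgs, hgs]
    have h1 := Z_pow_comm C φ Z hZ i.val t
    have h2 := Z_pow_add C x Z hd i j
    calc φ (s * (C.σ ^ i.val) t * algebraMap R S (wr C.d x i j)) * Z ^ (i + j).val
        = φ s * φ ((C.σ ^ i.val) t) * (algebraMap R B (wr C.d x i j) * Z ^ (i + j).val) := by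
          rw [map_mul, map_mul, AlgHom.commutes, mul_assoc]
      _ = φ s * φ ((C.σ ^ i.val) t) * (Z ^ i.val * Z ^ j.val) := by rw [h2]
      _ = φ s * (φ ((C.σ ^ i.val) t) * Z ^ i.val) * Z ^ j.val := by
          simp only [mul_assoc]
      _ = φ s * Z ^ i.val * (φ t * Z ^ j.val) := by
          rw [← h1]
          simp only [mul_assoc]
  have hsum : ∀ a : ZMod C.d → S, a = ∑ i, Pi.single i (a i) := fun a =>
    (Finset.univ_sum_single a).symm
  have hmul : ∀ a b : ZMod C.d → S, g (caMul C x a b) = g a * g b := by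
    intro a b
    -- left additivity
    have hL : ∀ (s : Finset (ZMod C.d)) (F : ZMod C.d → ZMod C.d → S) (b : ZMod C.d → S),
        caMul C x (∑ i ∈ s, F i) b = ∑ i ∈ s, caMul C x (F i) b := by
      intro s F b
      exact map_sum (AddMonoidHom.mk' (fun a => caMul C x a b)
        (fun a a' => add_caMul C x a a' b)) F s
    have hR : ∀ (s : Finset (ZMod C.d)) (F : ZMod C.d → ZMod C.d → S) (a : ZMod C.d → S),
        caMul C x a (∑ i ∈ s, F i) = ∑ i ∈ s, caMul C x a (F i) := by
      intro s F a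
      exact map_sum (AddMonoidHom.mk' (fun b => caMul C x a b)
        (fun b b' => caMul_add C x a b b')) F s
    calc g (caMul C x a b)
        = g (caMul C x (∑ i, Pi.single i (a i)) (∑ j, Pi.single j (b j))) := by
          rw [← hsum a, ← hsum b]
      _ = ∑ i, ∑ j, g (caMul C x (Pi.single i (a i)) (Pi.single j (b j))) := by
          rw [hL, map_sum]
          refine Finset.sum_congr rfl fun i _ => ?_
          rw [hR, map_sum]
      _ = ∑ i, ∑ j, g (Pi.single i (a i)) * g (Pi.single j (b j)) := by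
          simp only [hss]
      _ = (∑ i, g (Pi.single i (a i))) * ∑ j, g (Pi.single j (b j)) := by
          rw [Finset.sum_mul_sum]
      _ = g a * g b := by
          rw [← map_sum, ← map_sum, ← hsum a, ← hsum b]
  have hone : g (Pi.single 0 1) = 1 := by
    rw [hgs, map_one, ZMod.val_zero, pow_zero, mul_one]
  refine ⟨AlgHom.ofLinearMap (show CA C x →ₗ[R] B from g) hone (fun a b => hmul a b), ?_, ?_, ?_⟩
  · intro s
    change g (Pi.single 0 s) = φ s
    rw [hgs, ZMod.val_zero, pow_zero, mul_one]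
  · change g (Pi.single 1 1) = Z
    rw [hgs, map_one, one_mul, one_val, pow_one]
  · intro a
    rfl

end Pool.Agent.Helper1.SX
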