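import Pool.Agent.Helper1.SX.CycDefs

set_option autoImplicit false

/-!
# SX-A-01: the cyclic algebra is a ring

`wr_zero_left`, `wr_zero_right`: `(0 : ZMod d).val = 0` and `j.val < d`.
`wr_assoc`: case distinction on `i.val + j.val`, `(i + j).val = i.val + j.val` or `i.val + j.val - d` (`ZMod.val_add`), the same
for `j, k`: both sides are `x ^ w` with `w` the number of wraps, `w = (i.val + j.val + k.val) / d`.
`σ_val_add`: `σ^(i.val) σ^(j.val) = σ^((i+j).val)` because `σ^d = 1`.
`assoc`: `((a b) c)(m) = ∑_k ∑_i a_i σ^i(b_{k-i}) wr(i, k-i) σ^k(c_{m-k}) wr(k, m-k)` and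
`(a (b c))(m) = ∑_i ∑_j a_i σ^i(b_j) σ^i σ^j(c_{m-i-j}) wr(j, m-i-j) wr(i, m-i)` (`σ` fixes `algebraMap R S`); substitute `j = k - i`
(`Finset.sum_comm`, `Fintype.sum_equiv (Equiv.subRight i)`), `σ^i σ^(k-i) = σ^k` and `wr_assoc` for `(i, k - i, m - k)`.
`one`: `Pi.single 0 1`.  `algebraMap R (CA C x) r = Pi.single 0 (algebraMap R S r)`; the module structure `r • a` is pointwise.
The instances must keep the additive group and module structures of `CycDefs` (no diamonds).
-/

namespace Pool.Agent.Helper1.SX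

variable {R S : Type} [CommRing R] [CommRing S] [Algebra R S]

theorem wr_zero_left (d : ℕ) [NeZero d] (x : R) (j : ZMod d) : wr d x 0 j = 1 := by
  have h := ZMod.val_lt j
  unfold wr
  rw [ZMod.val_zero, if_neg (by omega)]

theorem wr_zero_right (d : ℕ) [NeZero d] (x : R) (j : ZMod d) : wr d x j 0 = 1 := by
  have h := ZMod.val_lt j
  unfold wr
  rw [ZMod.val_zero, if_neg (by omega)]

private theorem val_add_cases (d : ℕ) [NeZero d] (i j : ZMod d) :
    (i.val + j.val < d ∧ (i + j).val = i.val + j.val) ∨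
      (d ≤ i.val + j.val ∧ (i + j).val + d = i.val + j.val) := by
  have hi := ZMod.val_lt i
  have hj := ZMod.val_lt j
  rcases Nat.lt_or_ge (i.val + j.val) d with h | h
  · left
    exact ⟨h, by rw [ZMod.val_add, Nat.mod_eq_of_lt h]⟩
  · right
    refine ⟨h, ?_⟩
    rw [ZMod.val_add, Nat.mod_eq_sub_mod h, Nat.mod_eq_of_lt (by omega)]
    omega

theorem wr_assoc (d : ℕ) [NeZero d] (x : R) (i j k : ZMod d) :
    wr d x i j * wr d x (i + j) k = wr d x j k * wr d x i (j + k) := by
  have hi := ZMod.val_lt i
  have hj := ZMod.val_lt j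
  have hk := ZMod.val_lt k
  unfold wr
  rcases val_add_cases d i j with ⟨h1, h2⟩ | ⟨h1, h2⟩ <;>
  rcases val_add_cases d j k with ⟨h3, h4⟩ | ⟨h3, h4⟩ <;>
  rcases Nat.lt_or_ge ((i + j).val + k.val) d with h5 | h5 <;>
  rcases Nat.lt_or_ge (i.val + (j + k).val) d with h6 | h6 <;>
  first
    | omega
    | (simp only [Nat.not_le.mpr h1, Nat.not_le.mpr h3, Nat.not_le.mpr h5, Nat.not_le.mpr h6,
        h1, h3, h5, h6, if_true, if_false, mul_one, one_mul])
    | (simp [h1, h3, h5, h6, Nat.not_le.mpr, not_le])

theorem σ_val_add (C : Cyc R S) (i j : ZMod C.d) (s : S) :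
    (C.σ ^ i.val) ((C.σ ^ j.val) s) = (C.σ ^ (i + j).val) s := by
  have h : C.σ ^ i.val * C.σ ^ j.val = C.σ ^ (i + j).val := by
    rw [← pow_add]
    rcases val_add_cases C.d i j with ⟨h1, h2⟩ | ⟨h1, h2⟩
    · rw [h2]
    · rw [← h2, pow_add, C.pow, mul_one]
  rw [← h]
  rfl

private theorem σ_pow_algebraMap (C : Cyc R S) (n : ℕ) (r : R) :
    (C.σ ^ n) (algebraMap R S r) = algebraMap R S r :=
  (C.σ ^ n).commutes r

theorem caMul_assoc (C : Cyc R S) (x : R) (a b c : ZMod C.d → S) :
    caMul C x (caMul C x a b) c = caMul C x a (caMul C x b c) := by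
  funext m
  unfold caMul
  simp only [map_sum, map_mul, σ_pow_algebraMap, Finset.sum_mul, Finset.mul_sum]
  rw [Finset.sum_comm]
  refine Finset.sum_congr rfl fun i _ => ?_
  refine Fintype.sum_equiv (Equiv.subRight i) _ _ fun k => ?_
  simp only [Equiv.subRight_apply]
  have h1 : m - i - (k - i) = m - k := by ring
  have h2 : i + (k - i) = k := by ring
  have h3 := wr_assoc C.d x i (k - i) (m - k)
  rw [h2, show k - i + (m - k) = m - i by ring] at h3
  rw [h1, σ_val_add, h2]
  have h4 : algebraMap R S (wr C.d x i (k - i)) * algebraMap R S (wr C.d x k (m - k)) =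
      algebraMap R S (wr C.d x (k - i) (m - k)) * algebraMap R S (wr C.d x i (m - i)) := by
    rw [← map_mul, ← map_mul, h3]
  linear_combination (a i * (C.σ ^ i.val) (b (k - i)) * (C.σ ^ k.val) (c (m - k))) * h4

theorem caMul_one (C : Cyc R S) (x : R) (a : ZMod C.d → S) :
    caMul C x a (Pi.single 0 1) = a := by
  funext m
  unfold caMul
  rw [Finset.sum_eq_single m]
  · rw [sub_self, Pi.single_eq_same, map_one, wr_zero_right, map_one, mul_one, mul_one]
  · intro i _ hi
    rw [Pi.single_eq_of_ne (sub_ne_zero.mpr hi.symm), map_zero, mul_zero, zero_mul]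
  · intro h
    exact absurd (Finset.mem_univ m) h

theorem one_caMul (C : Cyc R S) (x : R) (a : ZMod C.d → S) :
    caMul C x (Pi.single 0 1) a = a := by
  funext m
  unfold caMul
  rw [Finset.sum_eq_single 0]
  · rw [sub_zero, Pi.single_eq_same, wr_zero_left, map_one, mul_one, one_mul, ZMod.val_zero,
      pow_zero]
    rfl
  · intro i _ hi
    rw [Pi.single_eq_of_ne hi, zero_mul, zero_mul]
  · intro h
    exact absurd (Finset.mem_univ _) h

theorem caMul_add (C : Cyc R S) (x : R) (a b c : ZMod C.d → S) :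
    caMul C x a (b + c) = caMul C x a b + caMul C x a c := by
  funext m
  simp only [caMul, Pi.add_apply, map_add, mul_add, add_mul, Finset.sum_add_distrib]

theorem add_caMul (C : Cyc R S) (x : R) (a b c : ZMod C.d → S) :
    caMul C x (a + b) c = caMul C x a c + caMul C x b c := by
  funext m
  simp only [caMul, Pi.add_apply, add_mul, Finset.sum_add_distrib]

theorem smul_caMul (C : Cyc R S) (x : R) (r : R) (a b : ZMod C.d → S) :
    caMul C x (r • a) b = r • caMul C x a b := by
  funext m
  simp only [caMul, Pi.smul_apply, smul_mul_assoc, Finset.smul_sum]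

theorem caMul_smul (C : Cyc R S) (x : R) (r : R) (a b : ZMod C.d → S) :
    caMul C x a (r • b) = r • caMul C x a b := by
  funext m
  simp only [caMul, Pi.smul_apply, map_smul, smul_mul_assoc, mul_smul_comm, Finset.smul_sum]

noncomputable instance (C : Cyc R S) (x : R) : Ring (CA C x) :=
  { (inferInstance : AddCommGroup (CA C x)) with
    mul := caMul C x
    one := (Pi.single 0 1 : ZMod C.d → S)
    mul_assoc := caMul_assoc C x
    one_mul := one_caMul C x
    mul_one := caMul_one C x
    left_distrib := caMul_add C x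
    right_distrib := add_caMul C x
    zero_mul := fun a => by
      have h := add_caMul C x 0 0 a
      rw [add_zero] at h
      exact left_eq_add.mp h
    mul_zero := fun a => by
      have h := caMul_add C x a 0 0
      rw [add_zero] at h
      exact left_eq_add.mp h }

theorem ca_mul_def (C : Cyc R S) (x : R) (a b : CA C x) : a * b = caMul C x a b := rfl

theorem ca_one_def (C : Cyc R S) (x : R) : (1 : CA C x) = (Pi.single 0 1 : ZMod C.d → S) := rfl

noncomputable instance (C : Cyc R S) (x : R) : Algebra R (CA C x) :=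
  Algebra.ofModule (smul_caMul C x) (fun r a b => caMul_smul C x r a b)

theorem ca_algebraMap (C : Cyc R S) (x r : R) :
    algebraMap R (CA C x) r = (Pi.single 0 (algebraMap R S r) : ZMod C.d → S) := by
  have h : algebraMap R (CA C x) r = r • (1 : CA C x) := Algebra.algebraMap_eq_smul_one r
  rw [h, ca_one_def]
  change r • (Pi.single 0 1 : ZMod C.d → S) = _
  rw [← Pi.single_smul, Algebra.smul_def, mul_one]

instance (C : Cyc R S) (x : R) [Module.Free R S] : Module.Free R (CA C x) :=
  inferInstanceAs (Module.Free R (ZMod C.d → S))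

instance (C : Cyc R S) (x : R) [Module.Finite R S] : Module.Finite R (CA C x) :=
  inferInstanceAs (Module.Finite R (ZMod C.d → S))

end Pool.Agent.Helper1.SX
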