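import Pool.Agent.Helper1.SX.Stat

set_option autoImplicit false

/-!
# SX-C-01: every idele is a rational number times a unit idele

PROOF.  For the finitely many `p` with `‖x p‖ ≠ 1`: `‖x p‖ = p ^ (- v_p)` with `v_p = (x p).valuation`.  `q = ε ∏ p ^ (v_p)` (finite product over these primes), `ε = 1` or `-1` the sign of `y`.
`‖(p : ℚ_[p])‖ = p⁻¹` and `‖(l : ℚ_[p])‖ = 1` for primes `l ≠ p`.
-/

namespace Pool.Agent.Helper1.SX

theorem exists_rat (x : ∀ p : Nat.Primes, ℚ_[p]) (hx : ∀ p, x p ≠ 0)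
    (hfin : {p | ‖x p‖ ≠ 1}.Finite) (y : ℝ) (hy : y ≠ 0) :
    ∃ q : ℚ, q ≠ 0 ∧ (∀ p : Nat.Primes, ‖(q : ℚ_[p])‖ = ‖x p‖) ∧ 0 < y * (q : ℝ) := by
  classical
  have hv0 : ∀ p : Nat.Primes, ∃ v : ℤ, ‖x p‖ = ((p : ℕ) : ℝ) ^ (-v) := fun p =>
    ⟨(x p).valuation, Padic.norm_eq_zpow_neg_valuation (hx p)⟩
  choose v hv using hv0
  set S := hfin.toFinset with hS
  set q0 : ℚ := ∏ p ∈ S, ((p : ℕ) : ℚ) ^ (v p) with hq
  have hq0 : 0 < q0 := Finset.prod_pos fun p _ => zpow_pos (by exact_mod_cast p.2.pos) _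
  have hnorm : ∀ l : Nat.Primes, ‖(q0 : ℚ_[l])‖ = ‖x l‖ := by
    intro l
    have h1 : (q0 : ℚ_[l]) = ∏ p ∈ S, (((p : ℕ) : ℚ_[l])) ^ (v p) := by
      rw [hq]
      push_cast
      rfl
    rw [h1, norm_prod]
    have h2 : ∀ p ∈ S, ‖((p : ℕ) : ℚ_[l]) ^ (v p)‖ = if p = l then ‖x l‖ else 1 := by
      intro p _
      rw [norm_zpow]
      split_ifs with h
      · subst h
        rw [Padic.norm_p, hv p, inv_zpow, zpow_neg]
      · have h3 : ‖((p : ℕ) : ℚ_[l])‖ = 1 := by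
          rw [Padic.norm_natCast_eq_one_iff]
          exact (Nat.coprime_primes l.2 p.2).2 fun h4 => h (Subtype.ext h4.symm)
        rw [h3, one_zpow]
    rw [Finset.prod_congr rfl h2, Finset.prod_ite_eq']
    split_ifs with h
    · rfl
    · by_contra hne
      exact h (hfin.mem_toFinset.2 fun h' => hne h'.symm)
  rcases lt_or_gt_of_ne hy with h | h
  · refine ⟨-q0, neg_ne_zero.2 hq0.ne', fun p => ?_, ?_⟩
    · rw [Rat.cast_neg, norm_neg, hnorm]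
    · have h5 : (0 : ℝ) < (q0 : ℝ) := by exact_mod_cast hq0
      rw [Rat.cast_neg]
      nlinarith
  · exact ⟨q0, hq0.ne', hnorm, mul_pos h (by exact_mod_cast hq0)⟩

end Pool.Agent.Helper1.SX
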