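import Pool.Agent.Helper1.SX.Frame

set_option autoImplicit false

/-!
# SX-E-02: the system of roots of the uniformizer

`exists_roots`: recursion with `IsAlgClosed.exists_pow_nat_eq`.
`roots_pow`: induction on `n`: `r (n+1) ^ ((n+1)!) = (r (n+1) ^ (n+1)) ^ (n!) = r n ^ (n!)`.
`N_eq_root`: `P.pow x`: `N x ^ m = N t ^ j`, `m > 0`.  Take `n = m`, `m ! = m * e`, `N t = N (r m) ^ (m * e)`, so `N x ^ m = (N (r m) ^ (e * j)) ^ m` (`zpow`), and `N x = N (r m) ^ (e * j)`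
since both sides are nonnegative (`pow_left_inj₀`).
-/

open IntermediateField Pool.Agent.SB

namespace Pool.Agent.Helper1.SX

theorem exists_roots {Ω : Type} [Field Ω] [IsAlgClosed Ω] (t : Ω) :
    ∃ r : ℕ → Ω, r 0 = t ∧ ∀ n, r (n + 1) ^ (n + 1) = r n := by
  have h : ∀ (n : ℕ) (x : Ω), ∃ z : Ω, z ^ (n + 1) = x := fun n x =>
    IsAlgClosed.exists_pow_nat_eq x (Nat.succ_pos n)
  choose g hg using h
  exact ⟨fun n => Nat.rec t (fun n x => g n x) n, rfl, fun n => hg n _⟩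

theorem roots_pow {Ω : Type} [Field Ω] (t : Ω) (r : ℕ → Ω) (h0 : r 0 = t)
    (hr : ∀ n, r (n + 1) ^ (n + 1) = r n) (n : ℕ) : r n ^ n.factorial = t := by
  induction n with
  | zero => rw [Nat.factorial_zero, pow_one, h0]
  | succ n ih => rw [Nat.factorial_succ, pow_mul, hr, ih]

variable {k F Ω : Type} [Field k] [Field F] [Field Ω] [Algebra k F] [Algebra F Ω] [Algebra k Ω]
  [IsScalarTower k F Ω] (P : Fr k F Ω)

theorem N_eq_root (r : ℕ → Ω) (h0 : r 0 = algebraMap F Ω P.t)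
    (hr : ∀ n, r (n + 1) ^ (n + 1) = r n) (x : Ω) (hx : x ≠ 0) :
    ∃ (n : ℕ) (m : ℤ), P.N x = P.N (r n) ^ m := by
  obtain ⟨m, hm, j, hj⟩ := P.pow x hx
  obtain ⟨e, he⟩ := Nat.dvd_factorial hm le_rfl
  have h1 : P.N (algebraMap F Ω P.t) = P.N (r m) ^ (m * e) := by
    rw [← roots_pow _ r h0 hr m, P.N_pow, he]
  refine ⟨m, (e : ℤ) * j, ?_⟩
  have h2 : P.N x ^ m = (P.N (r m) ^ ((e : ℤ) * j)) ^ m := by
    rw [hj, h1, ← zpow_natCast (P.N (r m)), ← zpow_natCast (P.N (r m) ^ ((e : ℤ) * j)),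
      ← zpow_mul, ← zpow_mul]
    congr 1
    push_cast
    ring
  exact (pow_left_inj₀ (P.nonneg x) (zpow_nonneg (P.nonneg _) _) hm.ne').1 h2

end Pool.Agent.Helper1.SX
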