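import Pool.Agent.Helper1.SX.FrRes
import Pool.Agent.Helper1.SX.FrRoot

set_option autoImplicit false

/-!
# SX-E-04: an automorphism fixing `kbar` and all the roots `r n` is trivial

`eig_one`: `N y = N (r n) ^ m` (`N_eq_root`), `ε = y / (r n) ^ m` has `N ε = 1` (`r n ≠ 0` as `roots_pow` and `t ≠ 0`).  `exists_res`: `a ∈ kbar`, `N (ε - a) < 1`, so `N a = 1` (else `a = 0` and
`N ε < 1`).  `σ (ε - a) = ζ ε - a`, so `N (ζ ε - a) < 1` by `P.inv`; `N ζ ≤ 1` (`N_kbar` or `ζ = 0`), `N (ζ ε - ζ a) < 1`; so `N ((ζ - 1) a) < 1`, `N (ζ - 1) < 1`, `ζ - 1 ∈ kbar`: `ζ = 1` by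
`N_kbar`.
`eq_one_of_fix`: let `x ∈ Ω`.  The set of the `(σ ^ i) x` is contained in the set of roots of `minpoly F x`, finite, so `(σ ^ M) x = x` for some `M > 0` (pigeonhole: `(σ^i) x = (σ^j) x`,
`i < j`, `M = j - i`).  Let `ζ ∈ Ω` be a primitive `M`-th root of unity (`Ω` algebraically closed of characteristic 0: `HasEnoughRootsOfUnity`/`IsAlgClosed` `exists_primitiveRoot`); its powers
lie in `kbar k Ω` (algebraic over `k`).  For `j < M` put `y_j = ∑_{i<M} ζ^(- i j) (σ^i) x`; as `σ` fixes `ζ` and `(σ^M) x = x`, `ζ^M = 1`, `σ y_j = ζ^j y_j` (shift of the summation index,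
`Finset.sum_range_succ'` and `Finset.sum_range_succ`).  By `eig_one`, `y_j = 0` for `0 < j < M` (`ζ^j ≠ 1`).  `∑_{j<M} y_j = ∑_i (∑_j ζ^(-ij)) (σ^i) x = M x` (`∑_{j<M} (ζ^(-i))^j = 0` for
`0 < i < M`: geometric sum).  So `M x = y_0`, `σ y_0 = y_0`, and `σ x = x` as `M ≠ 0` in `Ω`.
-/

open IntermediateField Pool.Agent.SB

namespace Pool.Agent.Helper1.SX

variable {k F Ω : Type} [Field k] [Field F] [Field Ω] [Algebra k F] [Algebra F Ω] [Algebra k Ω]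
  [IsScalarTower k F Ω] [Algebra.IsAlgebraic F Ω] [IsAlgClosed Ω] (P : Fr k F Ω)

private theorem frInj_eigen {κ : Type} [Field κ] [CharZero κ] {M : ℕ} (hM : 0 < M) (ψ : κ →+* κ)
    (a : κ) (hψ : ψ^[M] a = a) (ζ : κ) (hζ : IsPrimitiveRoot ζ M) (hfix0 : ψ ζ = ζ)
    (hz0 : ∀ j, 0 < j → j < M → ∀ w, ψ w = ζ ^ j * w → w = 0) : ψ a = a := by
  have hζ1 : ζ ^ M = 1 := hζ.pow_eq_one
  have hζ0 : ζ ≠ 0 := hζ.ne_zero hM.ne'
  obtain ⟨w, hw⟩ : ∃ w : ℕ → κ, w = fun j => ∑ i ∈ Finset.range M, (ζ⁻¹) ^ (i * j) * ψ^[i] a :=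
    ⟨_, rfl⟩
  have hfix : ψ (ζ⁻¹) = ζ⁻¹ := by rw [map_inv₀, hfix0]
  have hwj : ∀ j, ψ (w j) = ζ ^ j * w j := by
    intro j
    rw [hw]
    simp only [map_sum, map_mul, map_pow, hfix]
    have h1 : ∀ i, ζ⁻¹ ^ (i * j) * ψ (ψ^[i] a) = ζ ^ j * (ζ⁻¹ ^ ((i + 1) * j) * ψ^[i + 1] a) := by
      intro i
      rw [Function.iterate_succ_apply', add_mul, one_mul, pow_add]
      have : ζ ^ j * ζ⁻¹ ^ j = 1 := by rw [← mul_pow, mul_inv_cancel₀ hζ0, one_pow]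
      calc ζ⁻¹ ^ (i * j) * ψ (ψ^[i] a) = (ζ ^ j * ζ⁻¹ ^ j) * (ζ⁻¹ ^ (i * j) * ψ (ψ^[i] a)) := by
            rw [this, one_mul]
        _ = _ := by ring
    rw [Finset.sum_congr rfl (fun i _ => h1 i), ← Finset.mul_sum]
    congr 1
    have h2 := Finset.sum_range_succ (fun i => ζ⁻¹ ^ (i * j) * ψ^[i] a) M
    have h3 := Finset.sum_range_succ' (fun i => ζ⁻¹ ^ (i * j) * ψ^[i] a) M
    have h4 : ζ⁻¹ ^ (M * j) * ψ^[M] a = ζ⁻¹ ^ (0 * j) * ψ^[0] a := by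
      rw [hψ, pow_mul, inv_pow, hζ1]
      simp
    rw [h3, h4] at h2
    exact add_right_cancel h2
  have hz : ∀ j, 0 < j → j < M → w j = 0 := fun j h0 hj => hz0 j h0 hj (w j) (hwj j)
  have hsum : ∑ j ∈ Finset.range M, w j = M * a := by
    rw [hw]
    change ∑ j ∈ Finset.range M, ∑ i ∈ Finset.range M, (ζ⁻¹) ^ (i * j) * ψ^[i] a = M * a
    rw [Finset.sum_comm]
    have h1 : ∀ i ∈ Finset.range M, ∑ j ∈ Finset.range M, (ζ⁻¹) ^ (i * j) * ψ^[i] a =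
        if i = 0 then (M : κ) * a else 0 := by
      intro i hi
      rw [← Finset.sum_mul]
      split_ifs with h
      · subst h
        simp
      · have hprim : IsPrimitiveRoot ζ⁻¹ M := hζ.inv
        have hne : (ζ⁻¹) ^ i ≠ 1 := hprim.pow_ne_one_of_pos_of_lt h (Finset.mem_range.mp hi)
        have h2 : ∑ j ∈ Finset.range M, (ζ⁻¹) ^ (i * j) = 0 := by
          simp_rw [pow_mul]
          have h3 := mul_neg_geom_sum ((ζ⁻¹) ^ i) M
          rw [← pow_mul, mul_comm i M, pow_mul, hprim.pow_eq_one, one_pow, sub_self] at h3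
          rcases mul_eq_zero.mp h3 with h4 | h4
          · exact absurd (sub_eq_zero.mp h4).symm hne
          · exact h4
        rw [h2, zero_mul]
    rw [Finset.sum_congr rfl h1]
    simp [hM]
  have hw0 : ∑ j ∈ Finset.range M, w j = w 0 := by
    apply Finset.sum_eq_single 0
    · intro j hj hj0
      exact hz j (Nat.pos_of_ne_zero hj0) (Finset.mem_range.mp hj)
    · intro h
      exact absurd (Finset.mem_range.mpr hM) h
  have hfa : ψ ((M : κ) * a) = M * a := by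
    rw [← hsum, hw0, hwj 0]
    simp
  rw [map_mul, map_natCast] at hfa
  exact mul_left_cancel₀ (Nat.cast_ne_zero.mpr hM.ne') hfa

theorem eig_one (r : ℕ → Ω) (h0 : r 0 = algebraMap F Ω P.t)
    (hr : ∀ n, r (n + 1) ^ (n + 1) = r n) (σ : Ω ≃ₐ[F] Ω)
    (h1 : ∀ θ : kbar k Ω, σ (θ : Ω) = (θ : Ω)) (h2 : ∀ n, σ (r n) = r n)
    (y : Ω) (hy : y ≠ 0) (ζ : kbar k Ω) (h : σ y = (ζ : Ω) * y) : ζ = 1 := by
  obtain ⟨n, m, hnm⟩ := N_eq_root P r h0 hr y hy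
  have ht0 : algebraMap F Ω P.t ≠ 0 := by
    intro h1
    have := P.t_pos
    rw [h1, P.N_zero] at this
    exact lt_irrefl _ this
  have hrn : r n ≠ 0 := by
    intro h1
    have h2 := roots_pow (algebraMap F Ω P.t) r h0 hr n
    rw [h1, zero_pow (Nat.factorial_ne_zero n)] at h2
    exact ht0 h2.symm
  obtain ⟨ε, hε⟩ : ∃ ε : Ω, ε = y / (r n) ^ m := ⟨_, rfl⟩
  have hNε : P.N ε = 1 := by
    rw [hε, P.N_div, P.N_zpow, hnm]
    exact div_self (zpow_ne_zero _ (P.N_pos hrn).ne')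
  obtain ⟨a, ha⟩ := exists_res P ε hNε.le
  have ha0 : a ≠ 0 := by
    rintro rfl
    have h1 : ((0 : kbar k Ω) : Ω) = 0 := rfl
    rw [h1, sub_zero, hNε] at ha
    exact lt_irrefl _ ha
  have hNa : P.N (a : Ω) = 1 := N_kbar P a ha0
  have hσε : σ ε = (ζ : Ω) * ε := by
    rw [hε, map_div₀, map_zpow₀, h2, h, mul_div_assoc]
  have hσ : P.N ((ζ : Ω) * ε - a) < 1 := by
    have h3 : σ (ε - a) = (ζ : Ω) * ε - a := by rw [map_sub, hσε, h1]
    rw [← h3, P.inv]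
    exact ha
  have hNζ : P.N (ζ : Ω) ≤ 1 := by
    by_cases hz : ζ = 0
    · rw [hz]
      have h3 : ((0 : kbar k Ω) : Ω) = 0 := rfl
      rw [h3, P.N_zero]
      exact zero_le_one
    · exact (N_kbar P ζ hz).le
  have h4 : P.N ((ζ : Ω) * ε - (ζ : Ω) * a) < 1 := by
    rw [← mul_sub, P.mul]
    calc P.N (ζ : Ω) * P.N (ε - a) ≤ 1 * P.N (ε - a) :=
          mul_le_mul_of_nonneg_right hNζ (P.nonneg _)
      _ < 1 := by rw [one_mul]; exact ha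
  have h5 : P.N (((ζ : Ω) - 1) * a) < 1 := by
    have h6 : ((ζ : Ω) - 1) * a = ((ζ : Ω) * ε - a) - ((ζ : Ω) * ε - (ζ : Ω) * a) := by ring
    rw [h6]
    exact P.N_sub_lt hσ h4
  rw [P.mul, hNa, mul_one] at h5
  by_contra hne
  have h7 := N_kbar P (ζ - 1) (sub_ne_zero.mpr hne)
  have h8 : ((ζ - 1 : kbar k Ω) : Ω) = (ζ : Ω) - 1 := rfl
  rw [h8] at h7
  rw [h7] at h5
  exact lt_irrefl _ h5

theorem eq_one_of_fix [CharZero Ω] (r : ℕ → Ω) (h0 : r 0 = algebraMap F Ω P.t)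
    (hr : ∀ n, r (n + 1) ^ (n + 1) = r n) (σ : Ω ≃ₐ[F] Ω)
    (h1 : ∀ θ : kbar k Ω, σ (θ : Ω) = (θ : Ω)) (h2 : ∀ n, σ (r n) = r n) : σ = 1 := by
  ext x
  have hit : ∀ (i : ℕ) (z : Ω), (σ ^ i) z = (σ : Ω →+* Ω)^[i] z := by
    intro i z
    induction i with
    | zero => rfl
    | succ i ih =>
      rw [pow_succ', Function.iterate_succ_apply', ← ih]
      rfl
  have hfin : Finite (minpoly F x |>.rootSet Ω) := Polynomial.rootSet_finite _ _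
  have hmem : ∀ i : ℕ, (σ ^ i) x ∈ (minpoly F x).rootSet Ω := by
    intro i
    have hne : minpoly F x ≠ 0 := minpoly.ne_zero (Algebra.IsIntegral.isIntegral x)
    rw [Polynomial.mem_rootSet]
    refine ⟨hne, ?_⟩
    have := Polynomial.aeval_algHom_apply ((σ ^ i : Ω ≃ₐ[F] Ω) : Ω →ₐ[F] Ω) x (minpoly F x)
    rw [minpoly.aeval, map_zero] at this
    exact this
  obtain ⟨i, j, hij, hxij⟩ := Finite.exists_ne_map_eq_of_infinite
    (fun i : ℕ => (⟨(σ ^ i) x, hmem i⟩ : (minpoly F x).rootSet Ω))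
  have hxij' : (σ ^ i) x = (σ ^ j) x := congrArg Subtype.val hxij
  obtain ⟨M, hM, hMx⟩ : ∃ M : ℕ, 0 < M ∧ (σ ^ M) x = x := by
    have key : ∀ i j : ℕ, i < j → (σ ^ i) x = (σ ^ j) x → ∃ M : ℕ, 0 < M ∧ (σ ^ M) x = x := by
      intro i j hlt h
      refine ⟨j - i, Nat.sub_pos_of_lt hlt, ?_⟩
      apply (σ ^ i).injective
      rw [← AlgEquiv.mul_apply, ← pow_add, Nat.add_sub_cancel' hlt.le]
      exact h.symm
    rcases Nat.lt_or_gt_of_ne hij with h | h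
    · exact key i j h hxij'
    · exact key j i h hxij'.symm
  have hne1 : NeZero M := ⟨hM.ne'⟩
  have hne2 : NeZero ((M : ℕ) : Ω) := ⟨Nat.cast_ne_zero.mpr hM.ne'⟩
  obtain ⟨ζ, hζ⟩ := HasEnoughRootsOfUnity.exists_primitiveRoot Ω M
  have hζk : ζ ∈ kbar k Ω := by
    rw [mem_algebraicClosure_iff]
    refine IsAlgebraic.of_pow hM ?_
    rw [hζ.pow_eq_one]
    exact isAlgebraic_one
  refine frInj_eigen hM (σ : Ω →+* Ω) x ?_ ζ hζ (h1 ⟨ζ, hζk⟩) ?_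
  · rw [← hit]
    exact hMx
  · intro j hj0 hjM w hw
    by_contra hw0
    have h3 := eig_one P r h0 hr σ h1 h2 w hw0 ((⟨ζ, hζk⟩ : kbar k Ω) ^ j) hw
    have h4 : ζ ^ j = 1 := congrArg Subtype.val h3
    exact hζ.pow_ne_one_of_pos_of_lt hj0.ne' hjM h4

end Pool.Agent.Helper1.SX
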