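import Pool.Agent.Helper1.SX.Frame
import Mathlib.RingTheory.LaurentSeries
import Mathlib.Analysis.Normed.Unbundled.SpectralNorm
import Mathlib.Topology.Algebra.Valued.NormedValued

set_option autoImplicit false

/-!
# SX-E-08a: the frame of a complete discretely normed field
-/

open IntermediateField Pool.Agent.SB

namespace Pool.Agent.Helper1.SX

theorem frame_of_norm {F : Type} [NontriviallyNormedField F] [CompleteSpace F]
    [IsUltrametricDist F] [CharZero F] (t : F) (ht0 : 0 < ‖t‖) (ht1 : ‖t‖ < 1)
    (hc : ∀ q : ℚ, q ≠ 0 → ‖(q : F)‖ = 1)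
    (hres : ∀ x : F, ‖x‖ ≤ 1 → ∃ q : ℚ, ‖x - (q : F)‖ < 1)
    (hval : ∀ x : F, x ≠ 0 → ∃ m : ℤ, ‖x‖ = ‖t‖ ^ m) :
    Nonempty (Fr ℚ F (AlgebraicClosure F)) := by
  have hext : ∀ x : F, spectralNorm F (AlgebraicClosure F) (algebraMap F _ x) = ‖x‖ :=
    fun x => spectralNorm_extends x
  have hq : ∀ q : ℚ, algebraMap ℚ (AlgebraicClosure F) q =
      algebraMap F (AlgebraicClosure F) (q : F) := by
    intro q
    rw [eq_ratCast, map_ratCast]
  refine ⟨{ N := spectralNorm F (AlgebraicClosure F)
            t := t
            nonneg := spectralNorm_nonneg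
            zero_iff := ?_
            mul := ?_
            add := ?_
            inv := ?_
            const := ?_
            t_pos := ?_
            t_lt := ?_
            res := ?_
            val := ?_
            coeff := ?_
            pow := ?_ }⟩
  · intro x
    constructor
    · intro h
      exact eq_zero_of_map_spectralNorm_eq_zero h (Algebra.IsAlgebraic.isAlgebraic x)
    · rintro rfl
      exact spectralNorm_zero
  · intro x y
    have h := map_mul (spectralMulAlgNorm F (AlgebraicClosure F)) x y
    simpa only [spectralMulAlgNorm_def] using h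
  · intro x y
    exact isNonarchimedean_spectralNorm x y
  · intro σ x
    exact (spectralNorm_eq_of_equiv σ x).symm
  · intro q hq0
    rw [hq, hext, hc q hq0]
  · rw [hext]
    exact ht0
  · rw [hext]
    exact ht1
  · intro x hx
    rw [hext] at hx
    obtain ⟨q, h⟩ := hres x hx
    refine ⟨q, ?_⟩
    rw [hq, ← map_sub, hext]
    exact h
  · intro x hx
    rw [hext, hext]
    exact hval x hx
  · intro x hx i
    rw [hext]
    exact (spectralValue_le_one_iff (minpoly.monic (Algebra.IsIntegral.isIntegral x))).1 hx i
  · intro x hx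
    have h1 := spectralNorm.spectralNorm_eq_norm_coeff_zero_rpow F (AlgebraicClosure F) x
    have hd : 0 < (minpoly F x).natDegree :=
      minpoly.natDegree_pos (Algebra.IsIntegral.isIntegral x)
    have hc0 : (minpoly F x).coeff 0 ≠ 0 :=
      minpoly.coeff_zero_ne_zero (Algebra.IsIntegral.isIntegral x) hx
    obtain ⟨m, hm⟩ := hval _ hc0
    refine ⟨(minpoly F x).natDegree, hd, m, ?_⟩
    rw [h1, hext, ← hm]
    rw [← Real.rpow_natCast, ← Real.rpow_mul (norm_nonneg _), one_div, inv_mul_cancel₀
      (by exact_mod_cast hd.ne'), Real.rpow_one]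

end Pool.Agent.Helper1.SX
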