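import Pool.Agent.Helper1.SX.Frame

set_option autoImplicit false

/-!
# SX-E-01: residues

`N_kbar`: `N θ ≤ 1`: if `N θ > 1`, the minimal polynomial `X^n + ∑_{i<n} a_i X^i` of `θ` over `k` gives `θ^n = - ∑_{i<n} a_i θ^i`, each `N (a_i θ^i) ≤ N θ ^ (n-1)` (`P.const`, or `a_i = 0`),
so `N θ ^ n ≤ N θ ^ (n-1)` by `N_sum_le`, contradiction.  The same for `θ⁻¹`, so `N θ = 1` (`N_inv`).
`t_transc`: otherwise `t` lies in `kbar` and `N t = 1`, against `t_lt` (`t ≠ 0` by `t_pos`).
`exists_res`: let `p = minpoly F x` (monic, degree `n`, `x` is integral over `F`), `P.coeff`: `N (p.coeff i) ≤ 1`, `P.res`: choose `b i ∈ k` with `N (p.coeff i - b i) < 1`.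
`q = X^n + ∑_{i<n} C (b i) X^i ∈ k[X]` is monic of degree `n` and `aeval x q = aeval x q - aeval x p = ∑_{i<n} (b i - p.coeff i) x^i` has `N < 1` (`N_sum_lt`, `N (x^i) ≤ 1`).  `q` splits in `Ω`:
`aeval x q = ∏ (x - a)` over the roots `a ∈ Ω` of `q` (multiset; `IsAlgClosed.splits`, `Polynomial.Splits.eq_prod_roots...`), these are algebraic over `k`, i.e. in `kbar k Ω`.  If all
`N (x - a) ≥ 1` then the product of the `N (x - a)` is `≥ 1` (`map_multiset_prod P.hom`): contradiction.
-/

open IntermediateField Pool.Agent.SB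

namespace Pool.Agent.Helper1.SX

variable {k F Ω : Type} [Field k] [Field F] [Field Ω] [Algebra k F] [Algebra F Ω] [Algebra k Ω]
  [IsScalarTower k F Ω] (P : Fr k F Ω)

omit [IsScalarTower k F Ω] in
theorem N_algk (a : k) : P.N (algebraMap k Ω a) ≤ 1 := by
  by_cases h : a = 0
  · rw [h, map_zero, P.N_zero]; exact zero_le_one
  · exact (P.const a h).le

omit [IsScalarTower k F Ω] in
theorem N_le_of_int (x : Ω) (hx : IsIntegral k x) : P.N x ≤ 1 := by
  classical
  by_contra hc
  push Not at hc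
  have hm := minpoly.monic hx
  have hn := minpoly.natDegree_pos hx
  have h0 := minpoly.aeval k x
  rw [hm.as_sum] at h0
  rw [map_add, map_pow, Polynomial.aeval_X, map_sum] at h0
  set n := (minpoly k x).natDegree with hndef
  have h1 : x ^ n = -∑ i ∈ Finset.range n,
      (Polynomial.aeval x) (Polynomial.C ((minpoly k x).coeff i) * Polynomial.X ^ i) :=
    eq_neg_of_add_eq_zero_left h0
  have h2 : P.N (x ^ n) ≤ P.N x ^ (n - 1) := by
    rw [h1, P.N_neg]
    refine P.N_sum_le _ _ (by positivity) ?_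
    intro i hi
    rw [Finset.mem_range] at hi
    rw [map_mul, Polynomial.aeval_C, map_pow, Polynomial.aeval_X, P.mul, P.N_pow]
    calc P.N (algebraMap k Ω ((minpoly k x).coeff i)) * P.N x ^ i ≤ 1 * P.N x ^ (n - 1) := by
          refine mul_le_mul (N_algk P _) (pow_le_pow_right₀ hc.le (by omega)) ?_ zero_le_one
          exact pow_nonneg (P.nonneg x) _
      _ = P.N x ^ (n - 1) := one_mul _
  rw [P.N_pow] at h2
  obtain ⟨m, hmm⟩ : ∃ m, n = m + 1 := ⟨n - 1, by omega⟩
  rw [hmm, Nat.add_sub_cancel, pow_succ] at h2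
  have h3 : 0 < P.N x ^ m := pow_pos (lt_trans zero_lt_one hc) _
  nlinarith

theorem N_kbar (θ : kbar k Ω) (h : θ ≠ 0) : P.N (θ : Ω) = 1 := by
  have hθ : IsIntegral k (θ : Ω) := mem_algebraicClosure_iff'.1 θ.2
  have hθi : IsIntegral k ((θ⁻¹ : kbar k Ω) : Ω) := mem_algebraicClosure_iff'.1 (θ⁻¹).2
  have h1 := N_le_of_int P (θ : Ω) hθ
  have h2 := N_le_of_int P _ hθi
  rw [IntermediateField.coe_inv, P.N_inv] at h2
  have h3 : 0 < P.N (θ : Ω) := P.N_pos (by simpa using h)
  have h4 : 1 ≤ P.N (θ : Ω) := by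
    have := (inv_le_one₀ h3).1 h2
    exact this
  exact le_antisymm h1 h4

theorem t_transc : Transcendental k (algebraMap F Ω P.t) := by
  intro hal
  have hne : algebraMap F Ω P.t ≠ 0 := by
    intro h0
    have := P.t_pos
    rw [h0, P.N_zero] at this
    exact lt_irrefl _ this
  have hmem : algebraMap F Ω P.t ∈ kbar k Ω := mem_algebraicClosure_iff.2 hal
  have h1 := N_kbar P ⟨algebraMap F Ω P.t, hmem⟩ (by
    intro h0
    exact hne (congrArg Subtype.val h0))
  have h2 := P.t_lt
  rw [show P.N (algebraMap F Ω P.t) = 1 from h1] at h2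
  exact lt_irrefl _ h2

theorem exists_res [Algebra.IsAlgebraic F Ω] [IsAlgClosed Ω] (x : Ω) (hx : P.N x ≤ 1) :
    ∃ a : kbar k Ω, P.N (x - (a : Ω)) < 1 := by
  classical
  have hint : IsIntegral F x := (Algebra.IsAlgebraic.isAlgebraic x).isIntegral
  have hm := minpoly.monic hint
  have h0 := minpoly.aeval F x
  rw [hm.as_sum, map_add, map_pow, Polynomial.aeval_X, map_sum] at h0
  set n := (minpoly F x).natDegree with hndef
  choose b hb using fun i => P.res ((minpoly F x).coeff i) (P.coeff x hx i)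
  set r : Polynomial k := ∑ i ∈ Finset.range n, Polynomial.C (b i) * Polynomial.X ^ i with hr
  have hrd : r.degree < (n : WithBot ℕ) := by
    rw [hr]
    refine lt_of_le_of_lt (Polynomial.degree_sum_le _ _) ?_
    refine (Finset.sup_lt_iff (WithBot.bot_lt_coe n)).2 ?_
    intro i hi
    rw [Finset.mem_range] at hi
    refine lt_of_le_of_lt (Polynomial.degree_C_mul_X_pow_le i (b i)) ?_
    exact WithBot.coe_lt_coe.2 hi
  set q : Polynomial k := Polynomial.X ^ n + r with hq
  have hqm : q.Monic := Polynomial.monic_X_pow_add hrd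
  have hqx : Polynomial.aeval x q = ∑ i ∈ Finset.range n,
      (algebraMap k Ω (b i) - algebraMap F Ω ((minpoly F x).coeff i)) * x ^ i := by
    have h1 : Polynomial.aeval x q = x ^ n + ∑ i ∈ Finset.range n, algebraMap k Ω (b i) * x ^ i := by
      rw [hq, hr]
      simp [map_sum]
    have h2 : x ^ n + ∑ i ∈ Finset.range n, algebraMap F Ω ((minpoly F x).coeff i) * x ^ i = 0 := by
      rw [← h0]
      simp
    rw [h1, ← sub_zero (x ^ n + _), ← h2]
    simp only [sub_mul, Finset.sum_sub_distrib]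
    ring
  have hlt : P.N (Polynomial.aeval x q) < 1 := by
    rw [hqx]
    refine P.N_sum_lt _ _ zero_lt_one ?_
    intro i _
    rw [P.mul, P.N_pow, P.N_sub_comm]
    have h1 := hb i
    have h2 : P.N x ^ i ≤ 1 := pow_le_one₀ (P.nonneg x) hx
    have h3 : 0 ≤ P.N x ^ i := pow_nonneg (P.nonneg x) i
    have h4 : 0 ≤ P.N (algebraMap F Ω ((minpoly F x).coeff i) - algebraMap k Ω (b i)) := P.nonneg _
    nlinarith
  by_contra hcon
  push Not at hcon
  have hs : (q.map (algebraMap k Ω)).Splits := IsAlgClosed.splits _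
  rw [hs.aeval_eq_prod_aroots_of_monic hqm x] at hlt
  refine absurd hlt (not_lt.2 ?_)
  refine Multiset.prod_induction (fun z : Ω => 1 ≤ P.N z) _ ?_ ?_ ?_
  · intro u v hu hv
    rw [P.mul]
    nlinarith
  · rw [P.N_one]
  · intro z hz
    rw [Multiset.mem_map] at hz
    obtain ⟨a, ha, rfl⟩ := hz
    rw [Polynomial.mem_aroots] at ha
    have halg : IsAlgebraic k a := ⟨q, ha.1, ha.2⟩
    exact hcon ⟨a, mem_algebraicClosure_iff.2 halg⟩

end Pool.Agent.Helper1.SX
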