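import Pool.Agent.Helper1.SX.Krull

set_option autoImplicit false

/-!
# SX-E-05: lifting of automorphisms of `kbar`

`k ⊆ F ⊆ M ⊆ Ω`, `M ∩ kbar = k`, characteristic 0, `Ω` algebraically closed and algebraic over `F`: every `γ ∈ Gal(kbar/k)` is induced by an element of `Gal(Ω/M)`.
Proof: `Ω/F` is Galois (`IsGalois F Ω`: separable as `CharZero F`, normal as `Ω` is algebraically closed), so `Gal(Ω/F)` is compact and `H = M.fixingSubgroup` is closed
(`IntermediateField.fixingSubgroup_isClosed`), compact.  `ρ : Gal(Ω/F) → Gal(kbar/k)`: `σ.restrictScalars k` restricted to the normal subextension `kbar k Ω` of `Ω/k`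
(`AlgEquiv.restrictNormalHom`; `kbar/k` is algebraic and normal: `kbar k Ω` is algebraically closed, or `IsAlgClosure`; or define `ρ σ` directly: `σ` maps elements algebraic over `k` to such).
`ρ` is continuous: a subgroup `L.fixingSubgroup`, `L/k` finite, `L ⊆ kbar`, pulls back to a subgroup containing the open subgroup `(adjoin F L).fixingSubgroup`
(`krullTopology` basis, `continuous_of_continuousAt_one`).  So `ρ(H)` is a compact, hence closed, subgroup of `Gal(kbar/k)`.  Its fixed field is `k`: an element `θ ∈ kbar` fixed by `ρ(H)` is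
fixed by all of `H`, so `θ ∈ M` (`InfiniteGalois.fixedField_fixingSubgroup`), so `θ ∈ k` by `hM`.  So `ρ(H)` is everything (`InfiniteGalois.fixingSubgroup_fixedField` for the closed subgroup
`ρ(H)`; the fixing subgroup of `⊥` is `⊤`).
-/

open IntermediateField Pool.Agent.SB

namespace Pool.Agent.Helper1.SX

theorem res_surj {k F Ω : Type} [Field k] [Field F] [Field Ω] [Algebra k F] [Algebra F Ω]
    [Algebra k Ω] [IsScalarTower k F Ω] [CharZero k] [Algebra.IsAlgebraic F Ω] [IsAlgClosed Ω]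
    (M : IntermediateField F Ω)
    (hM : ∀ θ : kbar k Ω, (θ : Ω) ∈ M → ∃ a : k, algebraMap k Ω a = (θ : Ω))
    (γ : kbar k Ω ≃ₐ[k] kbar k Ω) :
    ∃ σ : Ω ≃ₐ[F] Ω, (∀ x ∈ M, σ x = x) ∧
      ∀ θ : kbar k Ω, σ (θ : Ω) = ((γ θ : kbar k Ω) : Ω) := by
  have hF : CharZero F := charZero_of_injective_algebraMap (algebraMap k F).injective
  have hcl : IsAlgClosure F Ω := ⟨inferInstance, inferInstance⟩
  have hN : Normal F Ω := IsAlgClosure.normal F Ω
  have hG : IsGalois F Ω := ⟨⟩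
  have hclk : IsAlgClosure k (kbar k Ω) := inferInstance
  have hNk : Normal k (kbar k Ω) := IsAlgClosure.normal k (kbar k Ω)
  have halgk : Algebra.IsAlgebraic k (kbar k Ω) := inferInstance
  have hGk : IsGalois k (kbar k Ω) := ⟨⟩
  let ρ : (Ω ≃ₐ[F] Ω) →* (kbar k Ω ≃ₐ[k] kbar k Ω) :=
    (AlgEquiv.restrictNormalHom (kbar k Ω)).comp (AlgEquiv.restrictScalarsHom k)
  have hρ : ∀ (σ : Ω ≃ₐ[F] Ω) (θ : kbar k Ω), ((ρ σ θ : kbar k Ω) : Ω) = σ (θ : Ω) := by
    intro σ θ
    exact AlgEquiv.restrictNormalHom_apply (kbar k Ω) (σ.restrictScalars k) θ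
  have hcont : Continuous ρ := by
    apply continuous_of_stab
    intro θ
    have h1 : {σ : Ω ≃ₐ[F] Ω | ρ σ θ = θ} = {σ : Ω ≃ₐ[F] Ω | σ (θ : Ω) = (θ : Ω)} := by
      ext σ
      rw [Set.mem_ofPred_eq, Set.mem_ofPred_eq, ← hρ]
      exact ⟨fun h => congrArg Subtype.val h, fun h => Subtype.ext h⟩
    rw [h1]
    exact isOpen_stab (θ : Ω)
  have hHc : IsCompact (M.fixingSubgroup : Set (Ω ≃ₐ[F] Ω)) :=
    (InfiniteGalois.fixingSubgroup_isClosed M).isCompact
  have hcl2 : IsClosed ((M.fixingSubgroup.map ρ : Subgroup (kbar k Ω ≃ₐ[k] kbar k Ω)) :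
      Set (kbar k Ω ≃ₐ[k] kbar k Ω)) := by
    rw [Subgroup.coe_map]
    exact (hHc.image hcont).isClosed
  let C : ClosedSubgroup (kbar k Ω ≃ₐ[k] kbar k Ω) := ⟨M.fixingSubgroup.map ρ, hcl2⟩
  have hbot : IntermediateField.fixedField (C.toSubgroup) = ⊥ := by
    rw [eq_bot_iff]
    intro θ hθ
    rw [IntermediateField.mem_fixedField_iff] at hθ
    have h1 : (θ : Ω) ∈ IntermediateField.fixedField M.fixingSubgroup := by
      rw [IntermediateField.mem_fixedField_iff]
      intro σ hσ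
      have h2 := hθ (ρ σ) (Subgroup.mem_map_of_mem ρ hσ)
      rw [← hρ, h2]
    rw [InfiniteGalois.fixedField_fixingSubgroup] at h1
    obtain ⟨a, ha⟩ := hM θ h1
    rw [IntermediateField.mem_bot]
    exact ⟨a, Subtype.ext ha⟩
  have h1 := InfiniteGalois.fixingSubgroup_fixedField C
  rw [hbot, IntermediateField.fixingSubgroup_bot] at h1
  have h2 : γ ∈ M.fixingSubgroup.map ρ := by
    have h3 : γ ∈ (⊤ : Subgroup (kbar k Ω ≃ₐ[k] kbar k Ω)) := Subgroup.mem_top γ
    rw [h1] at h3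
    exact h3
  obtain ⟨σ, hσ, hσγ⟩ := Subgroup.mem_map.1 h2
  refine ⟨σ, fun x hx => (IntermediateField.mem_fixingSubgroup_iff M σ).1 hσ x hx, fun θ => ?_⟩
  rw [← hρ, hσγ]

end Pool.Agent.Helper1.SX
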