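import Pool.Agent.Helper1.SX.FrTot
import Pool.Agent.Helper1.SX.FrInj
import Pool.Agent.Helper1.SX.FrSurj

set_option autoImplicit false

/-!
# SX-E-06: the continuous section

`exists_roots` (`t := algebraMap F Ω P.t`): `r`.  `M = adjoin F (Set.range r)`.  By `kbar_inter'` and `res_surj` every `γ` has a lift `σ ∈ M.fixingSubgroup`, unique by `eq_one_of_fix` (apply it
to `σ⁻¹ σ'`; `r n ∈ M`).  So `ρ : M.fixingSubgroup → Gal(kbar/k)`, `(ρ σ) θ = σ θ` is a bijective homomorphism (define `s` by choice, multiplicative by uniqueness).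
Continuity of `s`: `M.fixingSubgroup` is compact (closed in the compact group `Gal(Ω/F)`, `Ω/F` Galois), `ρ` is continuous (see the header of `FrSurj`), `Gal(kbar/k)` is Hausdorff
(`krullTopology_t2`), so `ρ` is a homeomorphism (`Continuous.homeoOfEquivCompactToT2`) and `s = inclusion ∘ ρ⁻¹` is continuous.
(Or: for `x ∈ Ω` the set `{σ ∈ M.fixingSubgroup | σ x ≠ x}` is compact, so its image under `ρ` is closed, and does not contain 1; its complement is open and `s γ x = x` there.)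
-/

open IntermediateField Pool.Agent.SB

namespace Pool.Agent.Helper1.SX

theorem exists_section {k F Ω : Type} [Field k] [Field F] [Field Ω] [Algebra k F] [Algebra F Ω]
    [Algebra k Ω] [IsScalarTower k F Ω] [CharZero k] [Algebra.IsAlgebraic F Ω] [IsAlgClosed Ω]
    (P : Fr k F Ω) :
    ∃ s : (kbar k Ω ≃ₐ[k] kbar k Ω) →* (Ω ≃ₐ[F] Ω), Continuous s ∧
      ∀ (γ : kbar k Ω ≃ₐ[k] kbar k Ω) (θ : kbar k Ω),
        s γ (θ : Ω) = ((γ θ : kbar k Ω) : Ω) := by
  haveI : CharZero F := charZero_of_injective_algebraMap (algebraMap k F).injective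
  haveI : CharZero Ω := charZero_of_injective_algebraMap (algebraMap F Ω).injective
  haveI : Normal F Ω := by
    rw [normal_iff]
    intro x
    exact ⟨(Algebra.IsAlgebraic.isAlgebraic x).isIntegral, IsAlgClosed.splits _⟩
  haveI : IsGalois F Ω := ⟨⟩
  obtain ⟨r, h0, hr⟩ := exists_roots (algebraMap F Ω P.t)
  obtain ⟨M, hMdef⟩ : ∃ M : IntermediateField F Ω, M = adjoin F (Set.range r) := ⟨_, rfl⟩
  have hrM : ∀ n, r n ∈ M := by
    intro n
    rw [hMdef]
    exact subset_adjoin F _ ⟨n, rfl⟩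
  have hM : ∀ θ : kbar k Ω, (θ : Ω) ∈ M → ∃ a : k, algebraMap k Ω a = (θ : Ω) := by
    intro θ hθ
    rw [hMdef] at hθ
    exact kbar_inter' P r h0 hr θ hθ
  choose s hs1 hs2 using fun γ => res_surj M hM γ
  have huniq : ∀ σ σ' : Ω ≃ₐ[F] Ω, (∀ x ∈ M, σ x = x) → (∀ x ∈ M, σ' x = x) →
      (∀ θ : kbar k Ω, σ (θ : Ω) = σ' (θ : Ω)) → σ = σ' := by
    intro σ σ' h1 h2 h3
    have h4 : σ'⁻¹ * σ = 1 := by
      apply eq_one_of_fix P r h0 hr
      · intro θ
        rw [AlgEquiv.mul_apply, h3 θ, ← AlgEquiv.mul_apply, inv_mul_cancel, AlgEquiv.one_apply]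
      · intro n
        rw [AlgEquiv.mul_apply, h1 _ (hrM n)]
        conv_lhs => rw [← h2 _ (hrM n)]
        rw [← AlgEquiv.mul_apply, inv_mul_cancel, AlgEquiv.one_apply]
    have h5 : σ' * (σ'⁻¹ * σ) = σ' * 1 := by rw [h4]
    rwa [mul_inv_cancel_left, mul_one] at h5
  have hmul : ∀ γ γ', s (γ * γ') = s γ * s γ' := by
    intro γ γ'
    apply huniq
    · exact hs1 _
    · intro x hx
      rw [AlgEquiv.mul_apply, hs1 γ' x hx, hs1 γ x hx]
    · intro θ
      rw [hs2, AlgEquiv.mul_apply, AlgEquiv.mul_apply, hs2 γ' θ, hs2 γ (γ' θ)]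
  have hone : s 1 = 1 := by
    have h1 := hmul 1 1
    rw [mul_one] at h1
    exact (left_eq_mul.1 h1)
  obtain ⟨ρ, hρ⟩ : ∃ ρ : (Ω ≃ₐ[F] Ω) →* (kbar k Ω ≃ₐ[k] kbar k Ω),
      ∀ (σ : Ω ≃ₐ[F] Ω) (θ : kbar k Ω), ((ρ σ θ : kbar k Ω) : Ω) = σ (θ : Ω) := by
    refine ⟨{ toFun := fun σ => algebraicClosure.algEquivOfAlgEquiv (σ.restrictScalars k)
              map_one' := ?_
              map_mul' := ?_ }, ?_⟩
    · ext θ
      rfl
    · intro σ σ'
      ext θ
      rfl
    · intro σ θ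
      rfl
  have hρc : Continuous ρ := by
    apply continuous_of_stab
    intro θ
    have h1 := isOpen_stab (K := F) (θ : Ω)
    convert h1 using 1
    ext σ
    simp only [Set.mem_ofPred_eq]
    rw [← hρ σ θ]
    exact Subtype.ext_iff
  refine ⟨⟨⟨s, hone⟩, hmul⟩, ?_, hs2⟩
  apply continuous_of_stab
  intro x
  have hC : IsCompact ((M.fixingSubgroup : Set (Ω ≃ₐ[F] Ω)) ∩ {σ : Ω ≃ₐ[F] Ω | σ x = x}ᶜ) := by
    apply IsClosed.isCompact
    exact (InfiniteGalois.fixingSubgroup_isClosed M).inter (isOpen_stab x).isClosed_compl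
  have hC2 := (hC.image hρc).isClosed.isOpen_compl
  convert hC2 using 1
  ext γ
  simp only [Set.mem_ofPred_eq, Set.mem_compl_iff, Set.mem_image, Set.mem_inter_iff,
    SetLike.mem_coe, IntermediateField.mem_fixingSubgroup_iff]
  constructor
  · rintro h ⟨σ, ⟨h1, h2⟩, rfl⟩
    apply h2
    have h3 : s (ρ σ) = σ := by
      apply huniq _ _ (hs1 _) h1
      intro θ
      rw [hs2, hρ]
    change s (ρ σ) x = x at h
    rwa [h3] at h
  · intro h
    by_contra hc
    apply h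
    refine ⟨s γ, ⟨hs1 γ, hc⟩, ?_⟩
    ext θ
    rw [hρ, hs2]

end Pool.Agent.Helper1.SX
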