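import Pool.Agent.Helper1.SX.FrRes
import Pool.Agent.Helper1.SX.FrRoot

set_option autoImplicit false

/-!
# SX-E-03: the field `F(r n)` contains no algebraic elements over `k` outside `k`

Write `d = n !`, `r = r n`, `r ^ d = t` (`roots_pow`), `d ≥ 1`.  An element `θ` of `F(r) = F[r]` (`r` is algebraic over `F`: root of `X^d - t`) is `aeval r p`, `p ∈ F[X]`; replacing `p` by
`p %ₘ (X^d - C t)` (monic, `aeval r` kills it) we get `θ = ∑_{i<d} a_i r^i`, `a_i ∈ F`.  If `θ = 0` take `a = 0`.  Else `N θ = 1` (`N_kbar`).  For `a_i ≠ 0`: `N a_i = N t ^ (m_i)` (`P.val`) and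
`N (a_i r^i) ^ d = N t ^ (d m_i + i)`.  As `0 < N t < 1`, `z ↦ N t ^ z` is injective on `ℤ`, so the numbers `N (a_i r^i)`, `a_i ≠ 0`, are pairwise different (`d m_i + i = d m_j + j` gives
`i = j` for `i, j < d`).  Let `i0` be an index with `N (a_i r^i)` maximal (`Finset.exists_max_image` on `range d`); `θ ≠ 0` so `a_{i0} ≠ 0`, and all other terms have smaller `N`, so
`N θ = N (a_{i0} r^{i0})` (`N_sum_lt`, `N_add_eq`).  Hence `N t ^ (d m + i0) = 1`, `d m + i0 = 0`, `i0 = 0`.  So `N a_0 = 1` and `N (θ - a_0) < 1`.  `P.res a_0`: `b ∈ k` with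
`N (a_0 - b) < 1`, so `N (θ - b) < 1`, `θ - b ∈ kbar`, `θ = b` by `N_kbar`.
`kbar_inter'`: an element of `adjoin F (range r)` lies in some `adjoin F {r n}`: these fields form a chain (`r n = r (n+1) ^ (n+1)`), so their union is a field
(`IntermediateField.adjoin` = directed supremum, `IntermediateField.coe_iSup_of_directed`).
-/

open IntermediateField Pool.Agent.SB

namespace Pool.Agent.Helper1.SX

variable {k F Ω : Type} [Field k] [Field F] [Field Ω] [Algebra k F] [Algebra F Ω] [Algebra k Ω]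
  [IsScalarTower k F Ω] (P : Fr k F Ω)

omit [IsScalarTower k F Ω] in
private theorem frTot_expand (r : ℕ → Ω) (h0 : r 0 = algebraMap F Ω P.t)
    (hr : ∀ n, r (n + 1) ^ (n + 1) = r n) (n : ℕ) (θ : Ω) (hθ : θ ∈ adjoin F {r n}) :
    ∃ a : ℕ → F, θ = ∑ i ∈ Finset.range n.factorial, algebraMap F Ω (a i) * r n ^ i := by
  have hrp := roots_pow (algebraMap F Ω P.t) r h0 hr n
  have hd : n.factorial ≠ 0 := Nat.factorial_ne_zero n
  have hmon := Polynomial.monic_X_pow_sub_C P.t hd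
  have hroot : Polynomial.aeval (r n) (Polynomial.X ^ n.factorial - Polynomial.C P.t) = 0 := by
    rw [map_sub, map_pow, Polynomial.aeval_X, Polynomial.aeval_C, hrp, sub_self]
  have halg : IsAlgebraic F (r n) := ⟨_, hmon.ne_zero, hroot⟩
  have h1 : θ ∈ (adjoin F {r n}).toSubalgebra := hθ
  rw [adjoin_simple_toSubalgebra_of_isAlgebraic halg, Algebra.adjoin_singleton_eq_range_aeval] at h1
  obtain ⟨p, hp⟩ := h1
  obtain ⟨q, hq⟩ : ∃ q, q = p %ₘ (Polynomial.X ^ n.factorial - Polynomial.C P.t) := ⟨_, rfl⟩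
  have hqd : q.natDegree < n.factorial := by
    by_cases hq0 : q = 0
    · rw [hq0, Polynomial.natDegree_zero]
      exact Nat.pos_of_ne_zero hd
    · have h2 := Polynomial.degree_modByMonic_lt p hmon
      rw [← hq, Polynomial.degree_X_pow_sub_C (Nat.pos_of_ne_zero hd)] at h2
      exact (Polynomial.natDegree_lt_iff_degree_lt hq0).mpr h2
  have hθq : θ = Polynomial.aeval (r n) q := by
    have h2 := Polynomial.modByMonic_add_div p (Polynomial.X ^ n.factorial - Polynomial.C P.t)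
    have h3 := congrArg (Polynomial.aeval (r n)) h2
    rw [map_add, map_mul, hroot, zero_mul, add_zero, ← hq] at h3
    rw [h3]
    exact hp.symm
  refine ⟨fun i => q.coeff i, ?_⟩
  rw [hθq, Polynomial.aeval_eq_sum_range' hqd]
  apply Finset.sum_congr rfl
  intro i _
  rw [Algebra.smul_def]

theorem kbar_inter (r : ℕ → Ω) (h0 : r 0 = algebraMap F Ω P.t)
    (hr : ∀ n, r (n + 1) ^ (n + 1) = r n) (n : ℕ) (θ : kbar k Ω)
    (hθ : (θ : Ω) ∈ adjoin F {r n}) : ∃ a : k, algebraMap k Ω a = (θ : Ω) := by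
  by_cases hθ0 : θ = 0
  · exact ⟨0, by rw [map_zero, hθ0]; rfl⟩
  have hNθ : P.N (θ : Ω) = 1 := N_kbar P θ hθ0
  have hθΩ : (θ : Ω) ≠ 0 := fun h => hθ0 (Subtype.ext h)
  obtain ⟨a, ha⟩ := frTot_expand P r h0 hr n θ hθ
  have hrp := roots_pow (algebraMap F Ω P.t) r h0 hr n
  have hd : 0 < n.factorial := Nat.factorial_pos n
  obtain ⟨T, hT⟩ : ∃ T : ℝ, T = P.N (algebraMap F Ω P.t) := ⟨_, rfl⟩
  have hT0 : 0 < T := hT ▸ P.t_pos
  have hT1 : T < 1 := hT ▸ P.t_lt
  have hTinj := zpow_right_injective₀ hT0 hT1.ne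
  have hrN : P.N (r n) ^ n.factorial = T := by rw [← P.N_pow, hrp, hT]
  obtain ⟨f, hf⟩ : ∃ f : ℕ → Ω, f = fun i => algebraMap F Ω (a i) * r n ^ i := ⟨_, rfl⟩
  have ha' : (θ : Ω) = ∑ i ∈ Finset.range n.factorial, f i := by rw [ha, hf]
  have hval : ∀ i, a i ≠ 0 → ∃ m : ℤ, P.N (f i) ^ n.factorial =
      T ^ ((n.factorial : ℤ) * m + i) ∧ P.N (algebraMap F Ω (a i)) = T ^ m := by
    intro i hi
    obtain ⟨m, hm⟩ := P.val (a i) hi
    refine ⟨m, ?_, by rw [hm, hT]⟩
    rw [hf]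
    change P.N (algebraMap F Ω (a i) * r n ^ i) ^ n.factorial = _
    rw [P.mul, P.N_pow, mul_pow, hm, ← hT, ← pow_mul, mul_comm i, pow_mul, hrN,
      zpow_add₀ hT0.ne', zpow_natCast, mul_comm (n.factorial : ℤ) m, zpow_mul, zpow_natCast]
  obtain ⟨i0, hi0, hmax⟩ := Finset.exists_max_image (Finset.range n.factorial)
    (fun i => P.N (f i)) ⟨0, Finset.mem_range.mpr hd⟩
  have hfi0 : 0 < P.N (f i0) := by
    by_contra hneg
    push Not at hneg
    apply hθΩ
    rw [ha']
    apply Finset.sum_eq_zero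
    intro i hi
    exact (P.zero_iff _).1 (le_antisymm ((hmax i hi).trans hneg) (P.nonneg _))
  have hai0 : a i0 ≠ 0 := by
    intro h
    rw [hf] at hfi0
    change 0 < P.N (algebraMap F Ω (a i0) * r n ^ i0) at hfi0
    rw [h, map_zero, zero_mul, P.N_zero] at hfi0
    exact lt_irrefl _ hfi0
  obtain ⟨m0, hm0, hm0'⟩ := hval i0 hai0
  have hlt : ∀ i ∈ (Finset.range n.factorial).erase i0, P.N (f i) < P.N (f i0) := by
    intro i hi
    rw [Finset.mem_erase] at hi
    refine lt_of_le_of_ne (hmax i hi.2) ?_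
    intro heq
    by_cases hai : a i = 0
    · rw [← heq, hf] at hfi0
      change 0 < P.N (algebraMap F Ω (a i) * r n ^ i) at hfi0
      rw [hai, map_zero, zero_mul, P.N_zero] at hfi0
      exact lt_irrefl _ hfi0
    · obtain ⟨m, hm, _⟩ := hval i hai
      rw [heq, hm0] at hm
      have h1 := hTinj hm
      change (n.factorial : ℤ) * m0 + i0 = (n.factorial : ℤ) * m + i at h1
      have h2 := Finset.mem_range.mp hi.2
      have h3 := Finset.mem_range.mp hi0
      apply hi.1
      have h4 : ((n.factorial : ℤ) * m0 + i0) % n.factorial =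
          ((n.factorial : ℤ) * m + i) % n.factorial := by rw [h1]
      rw [Int.mul_add_emod_self_left, Int.mul_add_emod_self_left,
        Int.emod_eq_of_lt (by omega) (by omega), Int.emod_eq_of_lt (by omega) (by omega)] at h4
      omega
  have hsplit : (θ : Ω) = f i0 + ∑ i ∈ (Finset.range n.factorial).erase i0, f i := by
    rw [ha', Finset.add_sum_erase _ _ hi0]
  have hrest := P.N_sum_lt _ f hfi0 hlt
  have hN1 : P.N (f i0) = 1 := by
    rw [← hNθ, hsplit]
    exact (P.N_add_eq hrest).symm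
  have hexp : (n.factorial : ℤ) * m0 + i0 = 0 := by
    apply hTinj
    change T ^ ((n.factorial : ℤ) * m0 + i0) = T ^ (0 : ℤ)
    rw [← hm0, hN1, one_pow, zpow_zero]
  have hi00 : i0 = 0 := by
    have h3 := Finset.mem_range.mp hi0
    have h4 : ((n.factorial : ℤ) * m0 + i0) % n.factorial = 0 := by rw [hexp]; simp
    rw [Int.mul_add_emod_self_left, Int.emod_eq_of_lt (by omega) (by omega)] at h4
    omega
  have hf0 : f i0 = algebraMap F Ω (a 0) := by
    rw [hi00, hf]
    simp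
  obtain ⟨b, hb⟩ := P.res (a 0) (by rw [← hf0, hN1])
  have hθb : P.N ((θ : Ω) - algebraMap k Ω b) < 1 := by
    have h5 : (θ : Ω) - algebraMap k Ω b = (algebraMap F Ω (a 0) - algebraMap k Ω b) +
        ∑ i ∈ (Finset.range n.factorial).erase i0, f i := by
      rw [hsplit, hf0]
      ring
    rw [h5]
    exact P.N_add_lt hb (by rw [← hN1]; exact hrest)
  refine ⟨b, ?_⟩
  by_contra hne
  have h6 : θ - algebraMap k (kbar k Ω) b ≠ 0 := by
    intro h7
    apply hne
    have h8 := congrArg Subtype.val (sub_eq_zero.mp h7)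
    exact h8.symm
  have h9 := N_kbar P _ h6
  have h10 : ((θ - algebraMap k (kbar k Ω) b : kbar k Ω) : Ω) = (θ : Ω) - algebraMap k Ω b := rfl
  rw [h10] at h9
  rw [h9] at hθb
  exact lt_irrefl _ hθb

theorem kbar_inter' (r : ℕ → Ω) (h0 : r 0 = algebraMap F Ω P.t)
    (hr : ∀ n, r (n + 1) ^ (n + 1) = r n) (θ : kbar k Ω)
    (hθ : (θ : Ω) ∈ adjoin F (Set.range r)) : ∃ a : k, algebraMap k Ω a = (θ : Ω) := by
  have hmono : Monotone (fun n => adjoin F {r n}) := by
    apply monotone_nat_of_le_succ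
    intro n
    rw [adjoin_le_iff, Set.singleton_subset_iff]
    have h1 : r n = r (n + 1) ^ (n + 1) := (hr n).symm
    change r n ∈ adjoin F {r (n + 1)}
    rw [h1]
    exact pow_mem (mem_adjoin_simple_self F _) _
  have h2 : adjoin F (Set.range r) = ⨆ n, adjoin F {r n} := by
    rw [← adjoin_iUnion]
    congr 1
    ext z
    simp [eq_comm]
  rw [h2, ← SetLike.mem_coe, coe_iSup_of_directed hmono.directed_le, Set.mem_iUnion] at hθ
  obtain ⟨n, hn⟩ := hθ
  exact kbar_inter P r h0 hr n θ hn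

end Pool.Agent.Helper1.SX
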