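import Pool.Agent.Helper1.SX.Stat

set_option autoImplicit false

/-!
# SX-E-00: the frame of the section block

`k ⊆ F ⊆ Ω`, `F` henselian for a discrete valuation trivial on `k` with residue field `k`; `N` is
the absolute value of `Ω`, invariant under `Gal(Ω/F)`, `t` is a uniformizer of `F`.
-/

open IntermediateField Pool.Agent.SB

namespace Pool.Agent.Helper1.SX

/-- see the header -/
structure Fr (k F Ω : Type) [Field k] [Field F] [Field Ω] [Algebra k F] [Algebra F Ω]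
    [Algebra k Ω] where
  /-- the absolute value -/
  N : Ω → ℝ
  /-- the uniformizer -/
  t : F
  nonneg : ∀ x, 0 ≤ N x
  zero_iff : ∀ x, N x = 0 ↔ x = 0
  mul : ∀ x y, N (x * y) = N x * N y
  add : ∀ x y, N (x + y) ≤ max (N x) (N y)
  inv : ∀ (σ : Ω ≃ₐ[F] Ω) (x : Ω), N (σ x) = N x
  const : ∀ a : k, a ≠ 0 → N (algebraMap k Ω a) = 1
  t_pos : 0 < N (algebraMap F Ω t)
  t_lt : N (algebraMap F Ω t) < 1
  res : ∀ x : F, N (algebraMap F Ω x) ≤ 1 →
    ∃ a : k, N (algebraMap F Ω x - algebraMap k Ω a) < 1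
  val : ∀ x : F, x ≠ 0 → ∃ m : ℤ, N (algebraMap F Ω x) = N (algebraMap F Ω t) ^ m
  coeff : ∀ x : Ω, N x ≤ 1 → ∀ i : ℕ, N (algebraMap F Ω ((minpoly F x).coeff i)) ≤ 1
  pow : ∀ x : Ω, x ≠ 0 → ∃ m : ℕ, 0 < m ∧ ∃ j : ℤ, N x ^ m = N (algebraMap F Ω t) ^ j

namespace Fr

variable {k F Ω : Type} [Field k] [Field F] [Field Ω] [Algebra k F] [Algebra F Ω] [Algebra k Ω]
  (P : Fr k F Ω)

theorem N_zero : P.N 0 = 0 := (P.zero_iff 0).2 rfl

theorem N_one : P.N 1 = 1 := by
  have h := P.mul 1 1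
  rw [mul_one] at h
  have h1 : P.N 1 ≠ 0 := fun h0 => one_ne_zero ((P.zero_iff 1).1 h0)
  exact (mul_eq_left₀ h1).1 h.symm

/-- the absolute value as a homomorphism -/
noncomputable def hom : Ω →*₀ ℝ where
  toFun := P.N
  map_zero' := P.N_zero
  map_one' := P.N_one
  map_mul' := P.mul

theorem hom_apply (x : Ω) : P.hom x = P.N x := rfl

theorem N_pow (x : Ω) (n : ℕ) : P.N (x ^ n) = P.N x ^ n := map_pow P.hom x n

theorem N_zpow (x : Ω) (n : ℤ) : P.N (x ^ n) = P.N x ^ n := map_zpow₀ P.hom x n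

theorem N_inv (x : Ω) : P.N x⁻¹ = (P.N x)⁻¹ := map_inv₀ P.hom x

theorem N_div (x y : Ω) : P.N (x / y) = P.N x / P.N y := map_div₀ P.hom x y

theorem N_pos {x : Ω} (hx : x ≠ 0) : 0 < P.N x :=
  lt_of_le_of_ne (P.nonneg x) fun h => hx ((P.zero_iff x).1 h.symm)

theorem N_neg (x : Ω) : P.N (-x) = P.N x := by
  have h : P.N (-1) = 1 := by
    have h1 : P.N (-1) ^ 2 = 1 := by rw [← P.N_pow]; simp [P.N_one]
    exact (pow_eq_one_iff_of_nonneg (P.nonneg _) two_ne_zero).1 h1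
  rw [← neg_one_mul, P.mul, h, one_mul]

theorem N_sub (x y : Ω) : P.N (x - y) ≤ max (P.N x) (P.N y) := by
  rw [sub_eq_add_neg, ← P.N_neg y]
  exact P.add x (-y)

theorem N_sub_comm (x y : Ω) : P.N (x - y) = P.N (y - x) := by
  rw [← P.N_neg, neg_sub]

theorem N_add_lt {x y : Ω} {c : ℝ} (hx : P.N x < c) (hy : P.N y < c) : P.N (x + y) < c :=
  lt_of_le_of_lt (P.add x y) (max_lt hx hy)

theorem N_sub_lt {x y : Ω} {c : ℝ} (hx : P.N x < c) (hy : P.N y < c) : P.N (x - y) < c :=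
  lt_of_le_of_lt (P.N_sub x y) (max_lt hx hy)

/-- the strict triangle: the bigger term wins -/
theorem N_add_eq {x y : Ω} (h : P.N y < P.N x) : P.N (x + y) = P.N x := by
  refine le_antisymm ((P.add x y).trans (by rw [max_eq_left h.le])) ?_
  by_contra h1
  push_neg at h1
  have h2 := P.N_sub_lt h1 h
  simp at h2

theorem N_sum_le {ι : Type} (s : Finset ι) (f : ι → Ω) {c : ℝ} (hc : 0 ≤ c)
    (h : ∀ i ∈ s, P.N (f i) ≤ c) : P.N (∑ i ∈ s, f i) ≤ c := by
  classical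
  induction s using Finset.induction_on with
  | empty => simpa [P.N_zero] using hc
  | insert a s ha ih =>
    rw [Finset.sum_insert ha]
    exact (P.add _ _).trans (max_le (h a (by simp)) (ih fun i hi => h i (by simp [hi])))

theorem N_sum_lt {ι : Type} (s : Finset ι) (f : ι → Ω) {c : ℝ} (hc : 0 < c)
    (h : ∀ i ∈ s, P.N (f i) < c) : P.N (∑ i ∈ s, f i) < c := by
  classical
  induction s using Finset.induction_on with
  | empty => simpa [P.N_zero] using hc
  | insert a s ha ih =>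
    rw [Finset.sum_insert ha]
    exact lt_of_le_of_lt (P.add _ _) (max_lt (h a (by simp)) (ih fun i hi => h i (by simp [hi])))

end Fr

end Pool.Agent.Helper1.SX
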