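import Pool.Agent.Helper1.SX.Cy

set_option autoImplicit false

/-!
# SX-B-08: the unramified extension of `ℚ_2`

`m = 3^(n+1)`, `d = 2 * 3^n`.
`irr_zmod2`: `Φ_m` is irreducible over `ZMod 2`: `ZMod.irreducible_of_dvd_cyclotomic_of_natDegree` (Mathlib, `RingTheory/Polynomial/Cyclotomic/Factorization.lean`) with `P = Φ_m`: its degree
`φ(m) = d` is the order of `2` in `(ZMod m)ˣ` (`two_pow_eq_one`).
`prim_two`: for `c ∈ Cy n ℚ_[2]`, `c ≠ 0`: the coefficients of `c` in the basis `ζ^k` multiplied with a power of `2` are in `ℤ_[2]`, not all divisible by `2`: `c = 2^k ψ(c')`, `c' ∈ Cy n ℤ_[2]` with nonzero image in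
`Cy n (ZMod 2)`, which is a field (`irr_zmod2`), so `Nm` of the image is nonzero (product of nonzero elements); `Nm c' ∈ ℤ_[2]` (`Nm` is fixed by `σ`; to avoid `inv_mem` one can say: `Nm c = algebraMap a` is given in
`nm_two`), so it is a unit.
`nm_two`: `Nm c = algebraMap a`, `a ≠ 0` (so `c ≠ 0`): with `c = 2^k ψ(c')`: `algebraMap a = 2^(dk) ψ(Nm c')`, so `ψ (Nm c') = algebraMap (a / 2^(dk))`; the coefficients show `a / 2^(dk) ∈ ℤ_[2]`, not divisible by `2` as the
image of `Nm c'` in `Cy n (ZMod 2)` is not `0`.  So `a` has valuation `d k`.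
`irr_q2`: `Φ_m` is irreducible over `ℚ_[2]`: monic over `ℤ_[2]`, irreducible modulo `2`, so irreducible over `ℤ_[2]` (`Polynomial.Monic.irreducible_of_irreducible_map`), and over the fraction field
(`Polynomial.Monic.irreducible_iff_irreducible_map_fraction_map`, `ℤ_[2]` is integrally closed).
-/

open Polynomial

namespace Pool.Agent.Helper1.SX

theorem irr_zmod2 (n : ℕ) : Irreducible (cyclotomic (3 ^ (n + 1)) (ZMod 2)) := by
  sorry

theorem irr_q2 (n : ℕ) : Irreducible (cyclotomic (3 ^ (n + 1)) ℚ_[2]) := by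
  sorry

theorem nm_two (n : ℕ) (c : Cy n ℚ_[2]) (a : ℚ_[2]) (ha : a ≠ 0)
    (h : Nm (cyc n ℚ_[2]) c = algebraMap ℚ_[2] (Cy n ℚ_[2]) a) :
    ((2 * 3 ^ n : ℕ) : ℤ) ∣ a.valuation := by
  sorry

end Pool.Agent.Helper1.SX
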