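import Pool.Agent.Helper1.SX.NmF

set_option autoImplicit false

/-!
# SX-B-07: units of `ℤ_p`, `p ≠ 3`, are norms

PROOF of `nm_zp`.  `R = ℤ_[p]`, `d = 2 * 3^n`; `3` is a unit of `R`.
(1) By `nm_zmod` there is `c̄ ∈ Cy n (ZMod p)` with `Nm c̄ = ū`.  Lift its coefficients (with respect to the bases `ζ^k`, `PadicInt.toZMod` is surjective): `c ∈ Cy n R` with image `c̄` under the map
`ψ : Cy n R → Cy n (ZMod p)` (make `PadicInt.toZMod.toAlgebra` an instance and use `exists_cyMap`).  `Nm c = algebraMap r` (`Nm_mem`), and `r̄ = ū`: `algebraMap r̄ = Nm c̄ = algebraMap ū`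
(injective: basis).  So `r` is a unit, `u = r v` with `v = 1 mod p`.
(2) `v` is a norm: `e ∈ Cy n R` with `Tr e = 1` (`exists_trace_one`).  Over the polynomial ring `R[X]`: `s = 1 + X e' ∈ Cy n R[X]` (`e'` = image of `e`), `Nm s = algebraMap f`, `f ∈ R[X]`
(`Nm_mem` for `R[X]`, `3` is a unit).  For `t ∈ R` the evaluation `R[X] → R`, `X ↦ t` (as an algebra structure, or compose `exists_cyMap` for `Polynomial.aeval t`) gives `Nm (1 + t e) = algebraMap (f.eval t)`.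
`f.eval 0 = 1` and `f.derivative.eval 0 = Tr e = 1` (`Nm (1 + X e) = 1 + X Tr(e) + X^2 (...)`: expand the product modulo `X^2`; e.g. map to `R[ε] = R[X]/(X^2)`, or compare with the coefficient:
`∏ (1 + X a_i)` has coefficient `∑ a_i` at `X`; use `Polynomial` identities in `(Cy n R)[X]`, and the map `Cy n R[X] → (Cy n R)[X]`).  Hensel (`hensels_lemma` in Mathlib's `NumberTheory/Padics/Hensel`)
for `f - C v` at `a = 0`: `‖1 - v‖ < 1 = ‖f'(0)‖^2`: there is `t` with `f(t) = v`.  Then `Nm (c (1 + t e)) = u`.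
`unit_norm`: map to `Cy n ℚ_[p]` (`exists_cyMap` for `ℤ_[p] → ℚ_[p]`); the image of an element with `Nm` a unit is a unit (`s` divides `Nm s`, factor `i = 0`).
-/

open Polynomial

namespace Pool.Agent.Helper1.SX

theorem nm_zp (n p : ℕ) [Fact p.Prime] (hp : p ≠ 3) (u : ℤ_[p]) (hu : IsUnit u) :
    ∃ c : Cy n ℤ_[p], Nm (cyc n ℤ_[p]) c = algebraMap ℤ_[p] (Cy n ℤ_[p]) u := by
  sorry

theorem unit_norm (n p : ℕ) [Fact p.Prime] (hp : p ≠ 3) (u : ℚ_[p]) (hu : ‖u‖ = 1) :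
    ∃ c : Cy n ℚ_[p], IsUnit c ∧ Nm (cyc n ℚ_[p]) c = algebraMap ℚ_[p] (Cy n ℚ_[p]) u := by
  sorry

end Pool.Agent.Helper1.SX
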