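import Mathlib

set_option autoImplicit false

/-!
# SX-B-09: powers in `ℤ_3`

CLAIM: `u ∈ ℤ_[3]`, `u = 1 mod 3^(n+1)` is a `2 * 3^n`-th power.
(1) cubes: for `k ≥ 1` every `u = 1 + 3^(k+1) c` is a cube of some `1 + 3^k y`: `(1 + 3^k y)^3 = 1 + 3^(k+1) (y + 3^k y^2 + 3^(2k-1) y^3)`; solve `y + 3^k y^2 + 3^(2k-1) y^3 = c` by Hensel
(`hensels_lemma`: the polynomial `3^(2k-1) X^3 + 3^k X^2 + X - c`, at `a = c`: value divisible by `3`, derivative `= 1 mod 3`).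
(2) squares: every `u = 1 mod 3` is the square of some `v = 1 mod 3`; if `u = 1 mod 3^(n+1)` then also `v = 1 mod 3^(n+1)` (`u - 1 = (v - 1)(v + 1)`, `v + 1` a unit).
(3) so `u = v^2`, `v = 1 mod 3^(n+1)`, and `v = w^(3^n)` by `n` cube roots.
-/

namespace Pool.Agent.Helper1.SX

theorem exists_root3 (n : ℕ) (u : ℤ_[3]) (hu : (3 : ℤ_[3]) ^ (n + 1) ∣ u - 1) :
    ∃ w : ℤ_[3], w ^ (2 * 3 ^ n) = u := by
  sorry

end Pool.Agent.Helper1.SX
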