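import Pool.Agent.Helper1.SX.Brc
import Pool.Agent.Helper1.SX.NmU
import Pool.Agent.Helper1.SX.Nm2
import Pool.Agent.Helper1.SX.Pow3

set_option autoImplicit false

/-!
# SX-C-02: equality of local classes

`brc_eq_unit`: `x = y * (x / y)`, `‖x / y‖ = 1`, `unit_norm` and `brc_norm`.
`brc_eq_real`: `x / y > 0` is `r ^ (2 * 3^n)` for a real `r > 0` (`Real.pow_rpow_inv_natCast`...), `Nm_const`, `brc_norm`.
`brc_eq_three`: `x / y = 1 + 3^(n+1) c` is a `2 * 3^n`-th power (`exists_root3`), `Nm_const`, `brc_norm`.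
`brc_two`: `brc_field` with `irr_q2` gives `c` with `algebraMap a = algebraMap b * Nm c`, so `Nm c = algebraMap (a / b) = algebraMap (2^s)`, and `nm_two` gives `2 * 3^n ∣ valuation (2^s) = s`.
-/

open Polynomial

namespace Pool.Agent.Helper1.SX

open Pool.Agent.Helper8.BR

theorem brc_eq_unit (n p : ℕ) [Fact p.Prime] (hp : p ≠ 3) (x y : ℚ_[p]ˣ)
    (h : ‖(x : ℚ_[p])‖ = ‖(y : ℚ_[p])‖) : brc n ℚ_[p] x = brc n ℚ_[p] y := by
  sorry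

theorem brc_eq_real (n : ℕ) (x y : ℝˣ) (h : 0 < (x : ℝ) * (y : ℝ)) :
    brc n ℝ x = brc n ℝ y := by
  sorry

theorem brc_eq_three (n : ℕ) (x y : ℚ_[3]ˣ) (c : ℤ_[3])
    (h : (x : ℚ_[3]) = (y : ℚ_[3]) * (1 + (3 : ℚ_[3]) ^ (n + 1) * (c : ℚ_[3]))) :
    brc n ℚ_[3] x = brc n ℚ_[3] y := by
  sorry

theorem brc_two (n s : ℕ) (a b : ℚ_[2]ˣ) (hab : (a : ℚ_[2]) = (b : ℚ_[2]) * 2 ^ s)
    (h : brc n ℚ_[2] a = brc n ℚ_[2] b) : 2 * 3 ^ n ∣ s := by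
  sorry

end Pool.Agent.Helper1.SX
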