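import Pool.Agent.Helper1.SX.ExRat
import Pool.Agent.Helper1.SX.LocEq
import Pool.Agent.Helper1.SX.Approx3

set_option autoImplicit false

/-!
# SX-C-04: an idele orthogonal to all `χ_n` has rational `3`-component

Let `q` be as in `exists_rat` for `x p`, `y`.  `u = x 3 / q` has norm `1`, a unit of `ℤ_3`.  CLAIM: `3^(n+1) ∣ u - 1` for all `n` (then `u = 1`, `eq_one_of_dvd`).
Let `n` be given, `s` with `3^(n+1) ∣ u - 2^s` (`exists_two_approx`), `q' = q * 2^s`.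
(1) `brc (x p) = brc q` over `ℚ_[p]` for `p ≠ 3` (`brc_eq_unit`), `brc y = brc q` over `ℝ` (`brc_eq_real`; `y q > 0`), `brc (x 3) = brc q'` over `ℚ_[3]` (`brc_eq_three`: `x 3 = q' (1 + 3^(n+1) c)`, as
`u = 2^s + 3^(n+1) c'`, `2` a unit).
(2) reciprocity for `brc n ℚ q` (`I.recip`, `I.supp`, `brc_map`): `inv_real (q) + ∑_p inv_p(q) = 0`; hypothesis: `inv_real(y) + ∑_p inv_p(x p) = 0`.  The two finite sums differ only in the term `p = 3`
(`finsum` of a function with finite support; subtract: `finsum_sub_distrib`, the difference is supported at `3`: `finsum_eq_single`), so `inv_3(brc q') = inv_3(brc q)`.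
(3) reciprocity for `brc n ℚ q'` and `brc n ℚ q`: for `p ≠ 2, 3` `brc q' = brc q` over `ℚ_[p]` (`2^s` has norm `1`), over `ℝ` (`2^s > 0`), and the invariants at `3` agree by (2); so
`inv_2(brc q') = inv_2(brc q)` (the difference of the two sums is supported at `2`), `I.fin_inj`: `brc n ℚ_[2] q' = brc n ℚ_[2] q`, and `brc_two` gives `2 * 3^n ∣ s`.
(4) so `3^(n+1) ∣ 2^s - 1` (`two_pow_sub_one`) and `3^(n+1) ∣ u - 1`.
-/

open Polynomial

namespace Pool.Agent.Helper1.SX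

open Pool.Agent.Helper8.BR

theorem idele_rat (I : InvFam) (x : ∀ p : Nat.Primes, (ℚ_[p])ˣ) (y : ℝˣ)
    (hfin : {p : Nat.Primes | ‖(x p : ℚ_[p])‖ ≠ 1}.Finite)
    (h : ∀ n : ℕ, {p : Nat.Primes | I.fin p (brc n ℚ_[p] (x p)) ≠ 0}.Finite ∧
      I.real (brc n ℝ y) + ∑ᶠ p : Nat.Primes, I.fin p (brc n ℚ_[p] (x p)) = 0) :
    ∃ q : ℚ, ((x ⟨3, Nat.prime_three⟩ : ℚ_[3]ˣ) : ℚ_[3]) = (q : ℚ_[3]) := by
  sorry

end Pool.Agent.Helper1.SX
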