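import Pool.Agent.Helper1.SX.Curve

set_option autoImplicit false

/-!
# SX-D-02: the coordinate ring is integrally closed

PROOF.  Let `B = Algebra.adjoin ℚ {u, u⁻¹, (u^4+1)⁻¹} ⊆ Ω`, a localisation of the polynomial ring `ℚ[u]`, so integrally closed (in its fraction field `L = ℚ(u)`); `w² ∈ B^*`, `w⁻¹ = w / (u^4+1)`, so
`R = Rc u w = B + B w`, integral over `B`, with fraction field `L + L w` (`w ∉ L` by `indep`).  Let `z = a + b w` (`a, b ∈ L`) be integral over `R`, so over `B`.  The conjugate `z' = a - b w` is integral over `B`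
(automorphism `w ↦ -w` of `L(w)/L`, or: the minimal polynomial of `z` over `L` is `X^2 - 2aX + (a^2 - b^2 w^2)` if `b ≠ 0`, and has coefficients in `B` because `B` is integrally closed:
`minpoly.isIntegrallyClosed_eq_field_fractions`).  So `2a ∈ B`, `a ∈ B`, `b² w² = a² - z z' ∈ B`, `b² ∈ B` (`w²` is a unit), `b ∈ B` (integrally closed), `z ∈ R`.
Use `isIntegrallyClosed_iff` for `R` with the fraction field `L(w)` as a subfield of `Ω` (or `isIntegrallyClosed_iff_isIntegrallyClosedIn`-style: an element of `Ω` in the fraction field of `R` integral over `R` is in `R`).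
-/

open Polynomial

namespace Pool.Agent.Helper1.SX

private theorem ic_key {P : Type} [CommRing P] [IsDomain P] [IsIntegrallyClosed P] {K : Type}
    [Field K] [Algebra P K] [IsFractionRing P K] {Ω : Type} [Field Ω] [Algebra P Ω] [Algebra K Ω]
    [IsScalarTower P K Ω] (f h2 : P) (hh : 2 * h2 = 1) (w : Ω) (hw : w ^ 2 = algebraMap P Ω f)
    (hwK : ∀ c : K, algebraMap K Ω c ≠ w) (a b : K) (y : Ω)
    (hy : y = algebraMap K Ω a + algebraMap K Ω b * w) (hi : IsIntegral P y) :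
    ∃ a0 c0 : P, algebraMap P K a0 = a ∧ algebraMap P K c0 = algebraMap P K f * b := by
  by_cases hb : b = 0
  · have h1 : IsIntegral P (algebraMap K Ω a) := by
      rw [hy, hb] at hi
      simpa using hi
    have h2 : IsIntegral P a := (isIntegral_algebraMap_iff (algebraMap K Ω).injective).1 h1
    obtain ⟨a0, ha0⟩ := IsIntegrallyClosed.isIntegral_iff.1 h2
    exact ⟨a0, 0, ha0, by rw [hb]; simp⟩
  · have hfK : algebraMap K Ω (algebraMap P K f) = algebraMap P Ω f :=
      (IsScalarTower.algebraMap_apply P K Ω f).symm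
    have hlt : (- C (2 * a) * X + C (a ^ 2 - b ^ 2 * algebraMap P K f) : K[X]).degree
        < ((2 : ℕ) : WithBot ℕ) := by
      refine lt_of_le_of_lt (degree_add_le _ _) (max_lt ?_ ?_)
      · rw [← C_neg]
        exact lt_of_le_of_lt (degree_C_mul_X_le _) (by norm_num)
      · exact lt_of_le_of_lt degree_C_le (by norm_num)
    have hmonic : (X ^ 2 + (- C (2 * a) * X + C (a ^ 2 - b ^ 2 * algebraMap P K f)) : K[X]).Monic :=
      monic_X_pow_add hlt
    have hroot : aeval y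
        (X ^ 2 + (- C (2 * a) * X + C (a ^ 2 - b ^ 2 * algebraMap P K f)) : K[X]) = 0 := by
      simp only [map_add, map_mul, map_neg, map_pow, aeval_X, aeval_C, map_sub, map_ofNat, hfK]
      rw [← hw, hy]
      ring
    have hdeg : (X ^ 2 + (- C (2 * a) * X + C (a ^ 2 - b ^ 2 * algebraMap P K f)) : K[X]).natDegree
        = 2 := by
      apply natDegree_eq_of_degree_eq_some
      rw [degree_add_eq_left_of_degree_lt]
      · exact degree_X_pow 2
      · rw [degree_X_pow]; exact hlt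
    have hyK : ∀ c : K, algebraMap K Ω c ≠ y := by
      intro c hc
      apply hwK ((c - a) / b)
      have hb' : algebraMap K Ω b ≠ 0 := by
        rw [Ne, map_eq_zero]; exact hb
      rw [map_div₀, map_sub, hc, hy, div_eq_iff hb']
      ring
    have hint : IsIntegral K y := ⟨_, hmonic, hroot⟩
    have hmin : minpoly K y =
        X ^ 2 + (- C (2 * a) * X + C (a ^ 2 - b ^ 2 * algebraMap P K f)) := by
      have hdvd := minpoly.dvd K y hroot
      have h2 : 2 ≤ (minpoly K y).natDegree := by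
        rw [minpoly.two_le_natDegree_iff hint]
        rintro ⟨c, hc⟩
        exact hyK c hc
      refine (eq_of_monic_of_dvd_of_natDegree_le (minpoly.monic hint) hmonic hdvd ?_).symm
      rw [hdeg]; exact h2
    have hmap := minpoly.isIntegrallyClosed_eq_field_fractions' K hi
    rw [hmin] at hmap
    obtain ⟨d, hd⟩ : ∃ d : K, d = a ^ 2 - b ^ 2 * algebraMap P K f := ⟨_, rfl⟩
    rw [← hd] at hmap
    have hc1 := congrArg (fun p => coeff p 1) hmap
    have hc0 := congrArg (fun p => coeff p 0) hmap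
    simp [coeff_X, coeff_C] at hc1 hc0
    have ha : algebraMap P K (-(h2 * (minpoly P y).coeff 1)) = a := by
      have e : algebraMap P K (2 * h2) = 1 := by rw [hh, map_one]
      rw [map_mul, map_ofNat] at e
      rw [map_neg, map_mul, ← hc1]
      linear_combination a * e
    have hb2 : IsIntegral P ((algebraMap P K f * b) ^ 2) := by
      have e : (algebraMap P K f * b) ^ 2 = algebraMap P K
          (f * ((-(h2 * (minpoly P y).coeff 1)) ^ 2 - (minpoly P y).coeff 0)) := by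
        rw [map_mul, map_sub, map_pow, ha, ← hc0, hd]
        ring
      rw [e]
      exact isIntegral_algebraMap
    obtain ⟨c0, hc⟩ := IsIntegrallyClosed.exists_algebraMap_eq_of_isIntegral_pow two_pos hb2
    exact ⟨_, c0, ha, hc⟩

section curve

variable {Ω : Type} [Field Ω] [Algebra ℚ Ω]

private theorem ic_ne (u w : Ω) (hu : Transcendental ℚ u) (hw : w ^ 2 = u ^ 4 + 1) :
    u ≠ 0 ∧ w ≠ 0 := by
  constructor
  · rintro rfl
    exact hu (isAlgebraic_zero)
  · rintro rfl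
    apply hu
    refine ⟨X ^ 4 + 1, ?_, ?_⟩
    · intro h
      have := congrArg (fun p => coeff p 0) h
      simp at this
    · simp
      rw [← hw]; ring

/-- the form of an element of the coordinate ring -/
private theorem ic_form (u w : Ω) (hu : u ≠ 0) (hw0 : w ≠ 0) (hw : w ^ 2 = u ^ 4 + 1) (r : Ω)
    (hr : r ∈ Rc u w) : ∃ (k : ℕ) (p q : ℚ[X]),
      (u * (u ^ 4 + 1)) ^ k * r = aeval u p + aeval u q * w := by
  have hD : ∀ (k : ℕ), aeval u ((X * (X ^ 4 + 1)) ^ k : ℚ[X]) = (u * (u ^ 4 + 1)) ^ k := by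
    intro k
    simp
  unfold Rc at hr
  induction hr using Algebra.adjoin_induction with
  | mem x hx =>
    rcases hx with rfl | rfl | rfl | rfl
    · exact ⟨0, X, 0, by simp⟩
    · exact ⟨0, 0, 1, by simp⟩
    · refine ⟨1, X ^ 4 + 1, 0, ?_⟩
      simp
      field_simp
    · refine ⟨1, 0, X, ?_⟩
      simp
      rw [← hw]
      field_simp
  | algebraMap c => exact ⟨0, C c, 0, by simp⟩
  | add x y _ _ hx hy =>
    obtain ⟨k, p, q, h1⟩ := hx
    obtain ⟨l, p', q', h2⟩ := hy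
    refine ⟨k + l, (X * (X ^ 4 + 1)) ^ l * p + (X * (X ^ 4 + 1)) ^ k * p',
      (X * (X ^ 4 + 1)) ^ l * q + (X * (X ^ 4 + 1)) ^ k * q', ?_⟩
    rw [map_add, map_add, map_mul, map_mul, map_mul, map_mul, hD, hD, pow_add]
    linear_combination (u * (u ^ 4 + 1)) ^ l * h1 + (u * (u ^ 4 + 1)) ^ k * h2
  | mul x y _ _ hx hy =>
    obtain ⟨k, p, q, h1⟩ := hx
    obtain ⟨l, p', q', h2⟩ := hy
    refine ⟨k + l, p * p' + q * q' * (X ^ 4 + 1), p * q' + q * p', ?_⟩
    have e : (u * (u ^ 4 + 1)) ^ (k + l) * (x * y) =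
        ((u * (u ^ 4 + 1)) ^ k * x) * ((u * (u ^ 4 + 1)) ^ l * y) := by rw [pow_add]; ring
    rw [e, h1, h2]
    simp
    linear_combination (aeval u q * aeval u q') * hw

private theorem ic_mult (u w : Ω) (hu : u ≠ 0) (hw0 : w ≠ 0) (hw : w ^ 2 = u ^ 4 + 1) (z : Ω)
    (hz : IsIntegral (Rc u w) z) :
    ∃ m : ℕ, ((aeval u : ℚ[X] →ₐ[ℚ] Ω) : ℚ[X] →+* Ω).IsIntegralElem
      ((u * (u ^ 4 + 1)) ^ m * z) := by
  classical
  let alg : Algebra ℚ[X] Ω := ((aeval u : ℚ[X] →ₐ[ℚ] Ω) : ℚ[X] →+* Ω).toAlgebra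
  have halg : ∀ p : ℚ[X], algebraMap ℚ[X] Ω p = aeval u p := fun p => rfl
  have hDI : ∀ k : ℕ, (u * (u ^ 4 + 1)) ^ k ∈ integralClosure ℚ[X] Ω := by
    intro k
    have e : (u * (u ^ 4 + 1)) ^ k = algebraMap ℚ[X] Ω ((X * (X ^ 4 + 1)) ^ k) := by
      rw [halg]; simp
    rw [e]
    exact isIntegral_algebraMap
  have hpI : ∀ p : ℚ[X], aeval u p ∈ integralClosure ℚ[X] Ω := fun p => by
    rw [← halg]; exact isIntegral_algebraMap
  have hwI : w ∈ integralClosure ℚ[X] Ω := by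
    refine IsIntegral.of_pow two_pos ?_
    rw [hw]
    have e : u ^ 4 + 1 = algebraMap ℚ[X] Ω (X ^ 4 + 1) := by rw [halg]; simp
    rw [e]
    exact isIntegral_algebraMap
  have hform : ∀ r : Rc u w, ∃ k : ℕ, (u * (u ^ 4 + 1)) ^ k * (r : Ω) ∈
      integralClosure ℚ[X] Ω := by
    intro r
    obtain ⟨k, p, q, h⟩ := ic_form u w hu hw0 hw r r.2
    exact ⟨k, by rw [h]; exact add_mem (hpI p) (mul_mem (hpI q) hwI)⟩
  obtain ⟨f, hfm, hfr⟩ := hz
  choose k hk using fun i => hform (f.coeff i)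
  let m := (Finset.range (f.natDegree + 1)).sup k
  have hm : ∀ i, (u * (u ^ 4 + 1)) ^ m * (f.coeff i : Ω) ∈ integralClosure ℚ[X] Ω := by
    intro i
    by_cases hi : i ≤ f.natDegree
    · have hle : k i ≤ m := Finset.le_sup (f := k) (Finset.mem_range.2 (Nat.lt_succ_of_le hi))
      obtain ⟨c, hc⟩ := Nat.exists_eq_add_of_le hle
      have e : (u * (u ^ 4 + 1)) ^ (k i + c) * (f.coeff i : Ω) =
          (u * (u ^ 4 + 1)) ^ c * ((u * (u ^ 4 + 1)) ^ k i * (f.coeff i : Ω)) := by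
        rw [pow_add]; ring
      rw [hc, e]
      exact mul_mem (hDI c) (hk i)
    · rw [coeff_eq_zero_of_natDegree_lt (not_le.1 hi)]
      simp
  refine ⟨m, ?_⟩
  have hgm : ((f.map (algebraMap (Rc u w) Ω)).scaleRoots ((u * (u ^ 4 + 1)) ^ m)).Monic :=
    (monic_scaleRoots_iff _).2 (hfm.map _)
  have hnd : (f.map (algebraMap (Rc u w) Ω)).natDegree = f.natDegree := hfm.natDegree_map _
  have hlift : (f.map (algebraMap (Rc u w) Ω)).scaleRoots ((u * (u ^ 4 + 1)) ^ m) ∈
      lifts (algebraMap (integralClosure ℚ[X] Ω) Ω) := by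
    rw [lifts_iff_coeff_lifts]
    intro n
    suffices h : ((f.map (algebraMap (Rc u w) Ω)).scaleRoots ((u * (u ^ 4 + 1)) ^ m)).coeff n ∈
        integralClosure ℚ[X] Ω from ⟨⟨_, h⟩, rfl⟩
    rw [coeff_scaleRoots, hnd, coeff_map]
    rcases lt_trichotomy n f.natDegree with h | h | h
    · obtain ⟨c, hc⟩ := Nat.exists_eq_add_of_lt h
      have e : f.natDegree - n = c + 1 := by omega
      rw [e, pow_succ]
      have e2 : algebraMap (Rc u w) Ω (f.coeff n) = (f.coeff n : Ω) := rfl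
      rw [e2]
      have e3 : (f.coeff n : Ω) * (((u * (u ^ 4 + 1)) ^ m) ^ c * (u * (u ^ 4 + 1)) ^ m) =
          ((u * (u ^ 4 + 1)) ^ m) ^ c * ((u * (u ^ 4 + 1)) ^ m * (f.coeff n : Ω)) := by ring
      rw [e3]
      exact mul_mem (pow_mem (hDI m) c) (hm n)
    · rw [h, Nat.sub_self, pow_zero, mul_one]
      have e : f.coeff f.natDegree = 1 := hfm
      rw [e, map_one]
      exact one_mem _
    · rw [coeff_eq_zero_of_natDegree_lt h]
      simp
  obtain ⟨q, hq, -, hqm⟩ := lifts_and_natDegree_eq_and_monic hlift hgm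
  have hint : IsIntegral (integralClosure ℚ[X] Ω) ((u * (u ^ 4 + 1)) ^ m * z) := by
    refine ⟨q, hqm, ?_⟩
    rw [← eval_map, hq]
    have hz0 : (f.map (algebraMap (Rc u w) Ω)).eval z = 0 := by
      rw [eval_map]; exact hfr
    have := scaleRoots_eval₂_eq_zero (p := f.map (algebraMap (Rc u w) Ω)) (RingHom.id Ω)
      (r := z) (s := (u * (u ^ 4 + 1)) ^ m) (by rw [eval₂_id]; exact hz0)
    rw [eval₂_id] at this
    exact this
  exact isIntegral_trans (R := ℚ[X]) _ hint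

private theorem ic_main (u w : Ω) (hu : Transcendental ℚ u) (hw : w ^ 2 = u ^ 4 + 1) (z : Ω)
    (r s : Rc u w) (hs : (s : Ω) ≠ 0) (hrs : z * s = r) (hz : IsIntegral (Rc u w) z) :
    z ∈ Rc u w := by
  classical
  obtain ⟨hu0, hw0⟩ := ic_ne u w hu hw
  have hD0 : u * (u ^ 4 + 1) ≠ 0 := by
    rw [← hw]; exact mul_ne_zero hu0 (pow_ne_zero _ hw0)
  have hf0 : u ^ 4 + 1 ≠ 0 := by rw [← hw]; exact pow_ne_zero _ hw0
  obtain ⟨m, hm⟩ := ic_mult u w hu0 hw0 hw z hz
  obtain ⟨k, p, q, hr⟩ := ic_form u w hu0 hw0 hw r r.2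
  obtain ⟨l, p', q', hs'⟩ := ic_form u w hu0 hw0 hw s s.2
  let alg : Algebra ℚ[X] Ω := ((aeval u : ℚ[X] →ₐ[ℚ] Ω) : ℚ[X] →+* Ω).toAlgebra
  have halg : ∀ p : ℚ[X], algebraMap ℚ[X] Ω p = aeval u p := fun p => rfl
  have hinj : Function.Injective (algebraMap ℚ[X] Ω) := transcendental_iff_injective.1 hu
  have hfs : FaithfulSMul ℚ[X] Ω := (faithfulSMul_iff_algebraMap_injective _ _).2 hinj
  let algK : Algebra (FractionRing ℚ[X]) Ω := FractionRing.liftAlgebra ℚ[X] Ω
  have hst : IsScalarTower ℚ[X] (FractionRing ℚ[X]) Ω := FractionRing.isScalarTower_liftAlgebra _ _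
  have hfrac : ∀ x y : ℚ[X], algebraMap (FractionRing ℚ[X]) Ω
      (algebraMap ℚ[X] (FractionRing ℚ[X]) x / algebraMap ℚ[X] (FractionRing ℚ[X]) y) =
      aeval u x / aeval u y := by
    intro x y
    rw [map_div₀, ← IsScalarTower.algebraMap_apply, ← IsScalarTower.algebraMap_apply]
    rfl
  have hS0 : aeval u p' + aeval u q' * w ≠ 0 := by
    rw [← hs']; exact mul_ne_zero (pow_ne_zero _ hD0) hs
  have hC0 : aeval u p' - aeval u q' * w ≠ 0 := by
    intro h
    have h1 := indep u w hu hw p' (-q') (by rw [map_neg]; linear_combination h)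
    apply hS0
    rw [h1.1, neg_eq_zero.1 h1.2]
    simp
  have hN : aeval u (p' ^ 2 - q' ^ 2 * (X ^ 4 + 1)) =
      (aeval u p' + aeval u q' * w) * (aeval u p' - aeval u q' * w) := by
    simp
    linear_combination (aeval u q') ^ 2 * hw
  have hN0 : aeval u (p' ^ 2 - q' ^ 2 * (X ^ 4 + 1)) ≠ 0 := by
    rw [hN]; exact mul_ne_zero hS0 hC0
  have hD : ∀ (k : ℕ), aeval u ((X * (X ^ 4 + 1)) ^ k : ℚ[X]) = (u * (u ^ 4 + 1)) ^ k := by
    intro k
    simp
  obtain ⟨den, hden⟩ : ∃ den : ℚ[X], aeval u den =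
      (u * (u ^ 4 + 1)) ^ k * aeval u (p' ^ 2 - q' ^ 2 * (X ^ 4 + 1)) :=
    ⟨(X * (X ^ 4 + 1)) ^ k * (p' ^ 2 - q' ^ 2 * (X ^ 4 + 1)), by rw [map_mul, hD]⟩
  have hden0 : aeval u den ≠ 0 := by
    rw [hden]; exact mul_ne_zero (pow_ne_zero _ hD0) hN0
  obtain ⟨A, hA⟩ : ∃ A : ℚ[X], aeval u A = (u * (u ^ 4 + 1)) ^ m * ((u * (u ^ 4 + 1)) ^ l *
      (aeval u p * aeval u p' - aeval u q * aeval u q' * (u ^ 4 + 1))) :=
    ⟨(X * (X ^ 4 + 1)) ^ m * ((X * (X ^ 4 + 1)) ^ l * (p * p' - q * q' * (X ^ 4 + 1))), by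
      rw [map_mul, map_mul, hD, hD]
      simp⟩
  obtain ⟨B, hB⟩ : ∃ B : ℚ[X], aeval u B = (u * (u ^ 4 + 1)) ^ m * ((u * (u ^ 4 + 1)) ^ l *
      (aeval u q * aeval u p' - aeval u p * aeval u q')) :=
    ⟨(X * (X ^ 4 + 1)) ^ m * ((X * (X ^ 4 + 1)) ^ l * (q * p' - p * q')), by
      rw [map_mul, map_mul, hD, hD]
      simp⟩
  have hy : (u * (u ^ 4 + 1)) ^ m * z = aeval u A / aeval u den + aeval u B / aeval u den * w := by
    rw [div_mul_eq_mul_div, ← add_div, eq_div_iff hden0, hden, hN, hA, hB, ← hw]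
    rw [← hw] at hr hs'
    have e1 : (u * w ^ 2) ^ k * z * (aeval u p' + aeval u q' * w) =
        (u * w ^ 2) ^ l * (aeval u p + aeval u q * w) := by
      rw [← hr, ← hs', ← hrs]; ring
    linear_combination ((u * w ^ 2) ^ m * (aeval u p' - aeval u q' * w)) * e1
  obtain ⟨a0, c0, ha0, hc0⟩ := ic_key (P := ℚ[X]) (K := FractionRing ℚ[X]) (X ^ 4 + 1)
    (C (1 / 2)) (by
      have : (2 : ℚ[X]) = C 2 := rfl
      rw [this, ← C_mul]; norm_num) w (by rw [hw, halg]; simp)
    (by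
      intro c hc
      obtain ⟨x, y, hy, hxy⟩ := IsFractionRing.div_surjective (A := ℚ[X]) c
      have hy0 : y ≠ 0 := nonZeroDivisors.ne_zero hy
      have hy1 : aeval u y ≠ 0 := by
        intro h
        apply hy0
        apply hinj
        rw [halg, h, map_zero]
      rw [← hxy, hfrac, div_eq_iff hy1] at hc
      have h1 := indep u w hu hw x (-y) (by rw [map_neg]; linear_combination hc)
      exact hy0 (neg_eq_zero.1 h1.2))
    (algebraMap ℚ[X] (FractionRing ℚ[X]) A / algebraMap ℚ[X] (FractionRing ℚ[X]) den)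
    (algebraMap ℚ[X] (FractionRing ℚ[X]) B / algebraMap ℚ[X] (FractionRing ℚ[X]) den)
    _ (by rw [hfrac, hfrac]; exact hy) hm
  have e1 : aeval u A / aeval u den = aeval u a0 := by
    rw [← hfrac, ← ha0, ← IsScalarTower.algebraMap_apply, halg]
  have e2 : aeval u B / aeval u den = aeval u c0 / (u ^ 4 + 1) := by
    rw [eq_div_iff hf0, ← hfrac]
    have h1 : aeval u c0 = algebraMap (FractionRing ℚ[X]) Ω
        (algebraMap ℚ[X] (FractionRing ℚ[X]) c0) := by
      rw [← IsScalarTower.algebraMap_apply, halg]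
    rw [h1, hc0, map_mul, ← IsScalarTower.algebraMap_apply, halg, mul_comm]
    simp
  have hpm : ∀ p : ℚ[X], aeval u p ∈ Rc u w := fun p =>
    Algebra.adjoin_mono (by simp) (aeval_mem_adjoin_singleton ℚ u)
  have hz' : z = (u⁻¹ * (w⁻¹) ^ 2) ^ m * (aeval u a0 + aeval u c0 * (w⁻¹) ^ 2 * w) := by
    rw [e1, e2, ← hw] at hy
    have h3 : aeval u a0 + aeval u c0 * (w⁻¹) ^ 2 * w = (u * w ^ 2) ^ m * z := by
      rw [hy]
      field_simp
    rw [h3, ← mul_assoc, ← mul_pow]
    have h4 : u⁻¹ * w⁻¹ ^ 2 * (u * w ^ 2) = 1 := by field_simp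
    rw [h4, one_pow, one_mul]
  rw [hz']
  exact mul_mem (pow_mem (mul_mem (u_inv_mem u w) (pow_mem (w_inv_mem u w) 2)) m)
    (add_mem (hpm a0) (mul_mem (mul_mem (hpm c0) (pow_mem (w_inv_mem u w) 2)) (w_mem u w)))

end curve

theorem rc_integrallyClosed {Ω : Type} [Field Ω] [Algebra ℚ Ω] (u w : Ω)
    (hu : Transcendental ℚ u) (hw : w ^ 2 = u ^ 4 + 1) : IsIntegrallyClosed (Rc u w) := by
  classical
  have hinj : Function.Injective (algebraMap (Rc u w) Ω) := Subtype.val_injective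
  have hfs : FaithfulSMul (Rc u w) Ω := (faithfulSMul_iff_algebraMap_injective _ _).2 hinj
  let algK : Algebra (FractionRing (Rc u w)) Ω := FractionRing.liftAlgebra (Rc u w) Ω
  have hst : IsScalarTower (Rc u w) (FractionRing (Rc u w)) Ω :=
    FractionRing.isScalarTower_liftAlgebra _ _
  rw [isIntegrallyClosed_iff (FractionRing (Rc u w))]
  intro x hx
  obtain ⟨r, s, hs, hrs⟩ := IsFractionRing.div_surjective (A := Rc u w) x
  have hs0 : (s : Ω) ≠ 0 := by
    intro h
    exact nonZeroDivisors.ne_zero hs (Subtype.ext h)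
  have e : algebraMap (FractionRing (Rc u w)) Ω x = (r : Ω) / (s : Ω) := by
    rw [← hrs, map_div₀, ← IsScalarTower.algebraMap_apply, ← IsScalarTower.algebraMap_apply]
    rfl
  have hi : IsIntegral (Rc u w) (algebraMap (FractionRing (Rc u w)) Ω x) := hx.algebraMap
  have hmem := ic_main u w hu hw _ r s hs0 (by rw [e]; field_simp) hi
  refine ⟨⟨_, hmem⟩, ?_⟩
  apply (algebraMap (FractionRing (Rc u w)) Ω).injective
  rw [← IsScalarTower.algebraMap_apply]
  rfl

end Pool.Agent.Helper1.SX
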