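import Pool.Agent.Helper1.SX.CyInv

set_option autoImplicit false

/-!
# SX-B-06: norms over finite prime fields

`p ≠ 3` prime, `K = ZMod p`, `m = 3^(n+1)`, `d = 2 * 3^n`, `u ∈ K^*`.  CLAIM: `Nm c = u` for some `c ∈ Cy n K`.
PROOF.  Let `P` be a monic irreducible factor of `Φ_m` over `K`, `k' = AdjoinRoot P`, a finite field, `θ` its root, a primitive `m`-th root of unity (`p ∤ m`).  Let `t ∈ k'` with
`Algebra.norm K t = u` (`FiniteField.norm_surjective`), `t = g₀(θ)`.  `Φ_m` is separable (`separable_cyclotomic`), so `P` and `Q = Φ_m / P` are coprime and there is `g ∈ K[X]` with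
`g = g₀ mod P`, `g = 1 mod Q`.  Put `c = g(ζ) = AdjoinRoot.mk _ g`.  Let `φ : Cy n K → k'`, `ζ ↦ θ`.  `φ (Nm c) = ∏_{i<d} g(θ^(2^i))` (`cyc_pow_zt`).  The `θ^(2^i)`, `i < d`, are the
primitive `m`-th roots of unity in `k'`, all distinct (`two_pow_eq_one`, `exists_two_pow`).  If `Q(θ^(2^i)) = 0`, then `g(θ^(2^i)) = 1`.  Otherwise `P(θ^(2^i)) = 0` (`Φ_m(θ^(2^i)) = 0`), and there is a
unique `τ ∈ Gal(k'/K)` with `τ θ = θ^(2^i)` (`k' = K(θ)`), `g(θ^(2^i)) = τ(g(θ)) = τ(t)`.  Conversely `τ θ` is a primitive `m`-th root of unity and a root of `P`.  So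
`φ (Nm c) = ∏_{τ} τ(t) = Algebra.norm K t = u` (`Algebra.norm_eq_prod_automorphisms`; `k'/K` is Galois).  `Nm c ∈ K` (`Nm_mem`, `3` is a unit of `K`) and `φ` is injective on `K`: `Nm c = u`.
-/

open Polynomial

namespace Pool.Agent.Helper1.SX

theorem nm_zmod (n p : ℕ) [Fact p.Prime] (hp : p ≠ 3) (u : ZMod p) (hu : u ≠ 0) :
    ∃ c : Cy n (ZMod p), Nm (cyc n (ZMod p)) c = algebraMap (ZMod p) (Cy n (ZMod p)) u := by
  sorry

end Pool.Agent.Helper1.SX
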