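import Pool.Agent.Helper1.SX.Krull

set_option autoImplicit false

/-!
# SX-F-01: a section of the absolute Galois group gives the splitting condition

Let `h ∈ R`, `h ≠ 0`.  `cov R h = adjoin (ff R) (etSet k (away R h))` is stable under every `σ : Ω ≃ₐ[ff R] Ω`: `σ` fixes `R` and `h⁻¹`, so it fixes `away R h` pointwise, and if
`θ = φ z`, `φ : S →ₐ[away R h] Ω`, then `σ θ = (σ ∘ φ) z`; so `σ` maps `etSet` to itself, and its `adjoin` to itself, for `σ` and `σ⁻¹`.  So `σ` restricts to `cov R h ≃ₐ[ff R] cov R h`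
(`AlgEquiv` from `σ.toAlgHom.codRestrict ...`, or `AlgEquiv.restrict...`), and this restriction `Gal(Ω/ff R) →* Gal(cov R h/ff R)` is a homomorphism; it is continuous (Krull topologies): for
`L ⊆ cov R h` finite over `ff R`, the elements whose restriction fixes `L` contain the open subgroup `(L lifted to Ω).fixingSubgroup`.  Compose `s` with it.
-/

open IntermediateField Pool.Agent.SB

namespace Pool.Agent.Helper1.SX

/-- restriction to a stable subfield is continuous -/
private theorem restr_ex {K L : Type} [Field K] [Field L] [Algebra K L]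
    (M : IntermediateField K L) (hM : ∀ (σ : L ≃ₐ[K] L) (z : L), z ∈ M → σ z ∈ M) :
    ∃ r : (L ≃ₐ[K] L) →* (M ≃ₐ[K] M), Continuous r ∧
      ∀ (σ : L ≃ₐ[K] L) (z : M), ((r σ z : M) : L) = σ (z : L) := by
  let r : (L ≃ₐ[K] L) →* (M ≃ₐ[K] M) :=
    { toFun := fun σ =>
        { toFun := fun z => ⟨σ z, hM σ z z.2⟩
          invFun := fun z => ⟨σ.symm z, hM σ.symm z z.2⟩
          left_inv := fun z => Subtype.ext (σ.symm_apply_apply _)
          right_inv := fun z => Subtype.ext (σ.apply_symm_apply _)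
          map_mul' := fun x y => Subtype.ext (map_mul σ _ _)
          map_add' := fun x y => Subtype.ext (map_add σ _ _)
          commutes' := fun w => Subtype.ext (σ.commutes w) }
      map_one' := by
        ext z
        rfl
      map_mul' := fun σ ρ => by
        ext z
        rfl }
  have hr : ∀ (σ : L ≃ₐ[K] L) (z : M), ((r σ z : M) : L) = σ (z : L) := fun _ _ => rfl
  refine ⟨r, ?_, hr⟩
  refine continuous_of_continuousAt_one r ?_
  rw [ContinuousAt, map_one]
  intro U hU
  obtain ⟨E, hE, hEU⟩ := (krullTopology_mem_nhds_one_iff K M U).1 hU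
  have : FiniteDimensional K E := hE
  have : FiniteDimensional K (IntermediateField.lift E) :=
    (IntermediateField.liftAlgEquiv E).toLinearEquiv.finiteDimensional
  have h1 := IntermediateField.fixingSubgroup_isOpen (IntermediateField.lift E)
  refine Filter.mem_map.2 (Filter.mem_of_superset (h1.mem_nhds (one_mem _)) fun g hg => ?_)
  refine hEU ?_
  show r g ∈ E.fixingSubgroup
  have hg' : g ∈ (IntermediateField.lift E).fixingSubgroup := hg
  rw [IntermediateField.mem_fixingSubgroup_iff] at hg' ⊢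
  intro x hx
  refine Subtype.ext ?_
  rw [hr]
  exact hg' (x : L) ((IntermediateField.mem_lift x).2 hx)

theorem splitting_of_strong {k Ω : Type} [Field k] [Field Ω] [Algebra k Ω] (R : Subalgebra k Ω)
    (s : (kbar k Ω ≃ₐ[k] kbar k Ω) →* (Ω ≃ₐ[ff R] Ω)) (hs : Continuous s)
    (h : ∀ (γ : kbar k Ω ≃ₐ[k] kbar k Ω) (θ : kbar k Ω),
      s γ (θ : Ω) = ((γ θ : kbar k Ω) : Ω)) : Splitting R := by
  intro f hf hf0
  have hR : ∀ (σ : Ω ≃ₐ[ff R] Ω) (z : Ω), z ∈ R → σ z = z := fun σ z hz =>
    σ.commutes (⟨z, IntermediateField.subset_adjoin k _ hz⟩ : ff R)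
  have hA : ∀ (σ : Ω ≃ₐ[ff R] Ω) (z : Ω), z ∈ away R f → σ z = z := by
    intro σ z hz
    refine Algebra.adjoin_induction (R := k) (s := (R : Set Ω) ∪ {f⁻¹})
      (p := fun z _ => σ z = z) ?_ ?_ ?_ ?_ hz
    · rintro z (hz | hz)
      · exact hR σ z hz
      · rw [Set.mem_singleton_iff] at hz
        rw [hz, map_inv₀, hR σ f hf]
    · intro a
      exact hR σ _ (R.algebraMap_mem a)
    · intro a b _ _ ha hb
      rw [map_add, ha, hb]
    · intro a b _ _ ha hb
      rw [map_mul, ha, hb]
  have hE : ∀ (σ : Ω ≃ₐ[ff R] Ω) (z : Ω), z ∈ etSet k (away R f) → σ z ∈ etSet k (away R f) := by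
    rintro σ z ⟨S, i1, i2, h1, h2, φ, y, rfl⟩
    refine ⟨S, i1, i2, h1, h2,
      { (σ : Ω →+* Ω).comp (φ : S →+* Ω) with
        commutes' := fun a => ?_ }, y, rfl⟩
    show σ (φ (algebraMap (away R f) S a)) = algebraMap (away R f) Ω a
    rw [φ.commutes]
    exact hA σ (a : Ω) a.2
  have hM : ∀ (σ : Ω ≃ₐ[ff R] Ω) (z : Ω), z ∈ cov R f → σ z ∈ cov R f := by
    intro σ z hz
    refine IntermediateField.adjoin_induction (F := ff R) (s := etSet k (away R f))
      (p := fun z _ => σ z ∈ cov R f) ?_ ?_ ?_ ?_ ?_ hz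
    · intro y hy
      exact IntermediateField.subset_adjoin _ _ (hE σ y hy)
    · intro a
      rw [σ.commutes]
      exact (cov R f).algebraMap_mem a
    · intro a b _ _ ha hb
      rw [map_add]
      exact add_mem ha hb
    · intro a _ ha
      rw [map_inv₀]
      exact inv_mem ha
    · intro a b _ _ ha hb
      rw [map_mul]
      exact mul_mem ha hb
  obtain ⟨r, hr, hr'⟩ := restr_ex (cov R f) hM
  refine ⟨r.comp s, hr.comp hs, fun γ θ hθ => ?_⟩
  rw [MonoidHom.comp_apply, hr']
  exact h γ θ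

end Pool.Agent.Helper1.SX
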