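import Pool.Agent.Helper79.SB.Common
import Pool.Agent.Helper8.BR.Group

set_option autoImplicit false

/-!
# PROJECT SX (MP_ad201b_nt, Q1 read literally for all varieties): definitions

An affine variety over the field `k` is given by a finitely generated `k`-subalgebra `R` of an
algebraically closed field `Ω` which is algebraic over the fraction field of `R`.  For `k = ℚ`:
adelic points, families of local invariants satisfying the reciprocity law, the Brauer-Manin set.
-/

open MvPolynomial IntermediateField
open scoped TensorProduct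

namespace Pool.Agent.Helper1.SX

open Pool.Agent.SB Pool.Agent.Helper8.BR

section general

variable {k : Type} [Field k] {Ω : Type} [Field Ω] [Algebra k Ω]

/-- the function field of the variety with coordinate ring `R` -/
def ff (R : Subalgebra k Ω) : IntermediateField k Ω := adjoin k (R : Set Ω)

/-- the coordinate ring of the affine open set `h ≠ 0` -/
def away (R : Subalgebra k Ω) (h : Ω) : Subalgebra k Ω := Algebra.adjoin k ((R : Set Ω) ∪ {h⁻¹})

/-- the compositum `K_U` of all connected finite étale covers of the affine open set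
`U : h ≠ 0`; for `U` normal the étale fundamental group of `U` is `Gal(K_U/K)` -/
def cov (R : Subalgebra k Ω) (h : Ω) : IntermediateField (ff R) Ω :=
  adjoin (ff R) (etSet k (away R h))

/-- the splitting condition: for every nonempty principal open set `U : h ≠ 0` the projection
`π₁(U) = Gal(K_U/K) → Gal(kbar/k)` has a continuous splitting.  (Every nonempty open set contains
such an open set, and a splitting for a smaller open set gives one for a larger one.) -/
def Splitting (R : Subalgebra k Ω) : Prop :=
  ∀ h ∈ R, h ≠ 0 → ∃ s : (kbar k Ω ≃ₐ[k] kbar k Ω) →* (cov R h ≃ₐ[ff R] cov R h),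
    Continuous s ∧ ∀ (γ : kbar k Ω ≃ₐ[k] kbar k Ω) (θ : kbar k Ω) (hθ : (θ : Ω) ∈ cov R h),
      ((s γ ⟨θ, hθ⟩ : cov R h) : Ω) = (γ θ : Ω)

end general

instance factPrimes (p : Nat.Primes) : Fact (p : ℕ).Prime := ⟨p.2⟩

/-- a family of local invariants: injective homomorphisms `Br(ℚ_v) → ℚ/ℤ` for all places `v` of
`ℚ` whose sum vanishes on `Br(ℚ)` (reciprocity law).  The classical invariants are such a family
(theorem of Albert, Brauer, Hasse and Noether). -/
structure InvFam where
  /-- the invariant at the prime `p` -/
  fin : ∀ p : Nat.Primes, Br ℚ_[p] →+ AddCircle (1 : ℚ)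
  /-- the invariant at the real place -/
  real : Br ℝ →+ AddCircle (1 : ℚ)
  fin_inj : ∀ p, Function.Injective (fin p)
  real_inj : Function.Injective real
  supp : ∀ b : Br ℚ, {p | fin p (Br.map (algebraMap ℚ ℚ_[p]) b) ≠ 0}.Finite
  recip : ∀ b : Br ℚ, real (Br.map (algebraMap ℚ ℝ) b) +
    ∑ᶠ p, fin p (Br.map (algebraMap ℚ ℚ_[p]) b) = 0

section adelic

variable {Ω : Type} [Field Ω] [Algebra ℚ Ω]

/-- an adelic point of the affine variety `Spec R` over `ℚ`: points over all `ℚ_p` and over `ℝ`
such that every regular function is integral at almost all of them -/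
structure AdPt (R : Subalgebra ℚ Ω) where
  /-- the point over `ℚ_p` -/
  fin : ∀ p : Nat.Primes, R →+* ℚ_[p]
  /-- the real point -/
  real : R →+* ℝ
  int : ∀ r : R, {p | ¬ ‖fin p r‖ ≤ 1}.Finite

/-- the adelic point `P` is orthogonal to the class `α` -/
def Orth {R : Subalgebra ℚ Ω} (I : InvFam) (P : AdPt R) (α : Br R) : Prop :=
  {p | I.fin p (Br.map (P.fin p) α) ≠ 0}.Finite ∧
    I.real (Br.map P.real α) + ∑ᶠ p, I.fin p (Br.map (P.fin p) α) = 0

/-- the Brauer-Manin set (with respect to the classes of Azumaya algebras) -/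
def BM (R : Subalgebra ℚ Ω) (I : InvFam) : Set (AdPt R) := {P | ∀ α : Br R, Orth I P α}

/-- the coordinate ring of the curve `w² = u⁴ + 1`, `u w ≠ 0` -/
def Rc (u w : Ω) : Subalgebra ℚ Ω := Algebra.adjoin ℚ {u, w, u⁻¹, w⁻¹}

end adelic

end Pool.Agent.Helper1.SX
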