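import Pool.Agent.Helper1.SX.Strong
import Pool.Agent.Helper1.SX.Curve

set_option autoImplicit false

/-!
# SX-E-13: the section for every algebraic closure of `ℚ(u, w)`
-/

open IntermediateField Pool.Agent.SB

namespace Pool.Agent.Helper1.SX

section

variable {Ω : Type} [Field Ω] [Algebra ℚ Ω]

theorem rc_hom_ext {E : Type} [Field E] (u w : Ω) (hu0 : u ≠ 0) (hw0 : w ≠ 0)
    (f g : Rc u w →+* E) (h1 : f ⟨u, u_mem u w⟩ = g ⟨u, u_mem u w⟩)
    (h2 : f ⟨w, w_mem u w⟩ = g ⟨w, w_mem u w⟩) : f = g := by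
  have hinv : ∀ (x y : Rc u w), x * y = 1 → f x = g x → f y = g y := by
    intro x y hxy hx
    have e1 : f x * f y = 1 := by rw [← map_mul, hxy, map_one]
    have e2 : g x * g y = 1 := by rw [← map_mul, hxy, map_one]
    have e3 : f x ≠ 0 := left_ne_zero_of_mul_eq_one e1
    rw [← hx] at e2
    exact mul_left_cancel₀ e3 (e1.trans e2.symm)
  refine RingHom.ext fun x => ?_
  obtain ⟨x, hx⟩ := x
  refine Algebra.adjoin_induction (p := fun x hx => f ⟨x, hx⟩ = g ⟨x, hx⟩) ?_ ?_ ?_ ?_ hx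
  · rintro y (rfl | rfl | rfl | rfl)
    · exact h1
    · exact h2
    · exact hinv ⟨u, u_mem u w⟩ ⟨u⁻¹, u_inv_mem u w⟩
        (Subtype.ext (mul_inv_cancel₀ hu0)) h1
    · exact hinv ⟨w, w_mem u w⟩ ⟨w⁻¹, w_inv_mem u w⟩
        (Subtype.ext (mul_inv_cancel₀ hw0)) h2
  · intro r
    exact congrArg (fun h : ℚ →+* E => h r)
      (RingHom.ext_rat (f.comp (algebraMap ℚ (Rc u w))) (g.comp (algebraMap ℚ (Rc u w))))
  · intro a b ha hb h3 h4
    have e1 : (⟨a + b, add_mem ha hb⟩ : Rc u w) = ⟨a, ha⟩ + ⟨b, hb⟩ := rfl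
    rw [e1, map_add, map_add, h3, h4]
  · intro a b ha hb h3 h4
    have e1 : (⟨a * b, mul_mem ha hb⟩ : Rc u w) = ⟨a, ha⟩ * ⟨b, hb⟩ := rfl
    rw [e1, map_mul, map_mul, h3, h4]

theorem rc_hom_range {E : Type} [Field E] [Algebra ℚ E] (u w : Ω) (hu0 : u ≠ 0) (hw0 : w ≠ 0)
    (a b : E) (f : Rc u w →+* E) (h1 : f ⟨u, u_mem u w⟩ = a) (h2 : f ⟨w, w_mem u w⟩ = b)
    (x : Rc u w) : f x ∈ Rc a b := by
  have hinv : ∀ (x y : Rc u w), x * y = 1 → f y = (f x)⁻¹ := by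
    intro x y hxy
    have e1 : f x * f y = 1 := by rw [← map_mul, hxy, map_one]
    exact eq_inv_of_mul_eq_one_right e1
  obtain ⟨x, hx⟩ := x
  refine Algebra.adjoin_induction (p := fun x hx => f ⟨x, hx⟩ ∈ Rc a b) ?_ ?_ ?_ ?_ hx
  · rintro y (rfl | rfl | rfl | rfl)
    · rw [h1]
      exact u_mem a b
    · rw [h2]
      exact w_mem a b
    · rw [hinv ⟨u, u_mem u w⟩ ⟨u⁻¹, u_inv_mem u w⟩ (Subtype.ext (mul_inv_cancel₀ hu0)), h1]
      exact u_inv_mem a b
    · rw [hinv ⟨w, w_mem u w⟩ ⟨w⁻¹, w_inv_mem u w⟩ (Subtype.ext (mul_inv_cancel₀ hw0)), h2]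
      exact w_inv_mem a b
  · intro r
    have e1 : f (algebraMap ℚ (Rc u w) r) = algebraMap ℚ E r :=
      congrArg (fun h : ℚ →+* E => h r)
        (RingHom.ext_rat (f.comp (algebraMap ℚ (Rc u w))) (algebraMap ℚ E))
    change f (algebraMap ℚ (Rc u w) r) ∈ Rc a b
    rw [e1]
    exact (Rc a b).algebraMap_mem r
  · intro c d hc hd h3 h4
    have e1 : (⟨c + d, add_mem hc hd⟩ : Rc u w) = ⟨c, hc⟩ + ⟨d, hd⟩ := rfl
    rw [e1, map_add]
    exact add_mem h3 h4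
  · intro c d hc hd h3 h4
    have e1 : (⟨c * d, mul_mem hc hd⟩ : Rc u w) = ⟨c, hc⟩ * ⟨d, hd⟩ := rfl
    rw [e1, map_mul]
    exact mul_mem h3 h4

/-- an element algebraic over the fraction field of `R` is algebraic over `R` -/
theorem isAlgebraic_of_ff {k Ω : Type} [Field k] [Field Ω] [Algebra k Ω] (R : Subalgebra k Ω)
    (z : Ω) (hz : IsAlgebraic (ff R) z) : IsAlgebraic R z := by
  have hle : ∀ x : R, (x : Ω) ∈ ff R := fun x => IntermediateField.subset_adjoin k _ x.2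
  letI : Algebra R (ff R) :=
    ((algebraMap R Ω).codRestrict (ff R).toSubring hle : R →+* ff R).toAlgebra
  haveI : IsScalarTower R (ff R) Ω := IsScalarTower.of_algebraMap_eq' rfl
  haveI : FaithfulSMul R (ff R) := by
    rw [faithfulSMul_iff_algebraMap_injective]
    intro a b hab
    exact Subtype.ext (congrArg (fun y : ff R => (y : Ω)) hab)
  haveI : IsFractionRing R (ff R) := by
    refine IsFractionRing.of_field R (ff R) fun z => ?_
    obtain ⟨a, ha, b, hb, hab⟩ := IntermediateField.mem_adjoin_iff_div.1 z.2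
    rw [Algebra.adjoin_eq] at ha hb
    exact ⟨⟨a, ha⟩, ⟨b, hb⟩, Subtype.ext hab⟩
  exact (IsFractionRing.isAlgebraic_iff R (ff R) Ω).2 hz

end

theorem w_ne_zero {Ω : Type} [Field Ω] [Algebra ℚ Ω] (u w : Ω) (hu : Transcendental ℚ u)
    (hw : w ^ 2 = u ^ 4 + 1) : w ≠ 0 := by
  rintro rfl
  apply hu
  refine ⟨Polynomial.X ^ 4 + Polynomial.C 1, Polynomial.X_pow_add_C_ne_zero (by norm_num) 1, ?_⟩
  simp only [map_add, map_pow, Polynomial.aeval_X, Polynomial.aeval_C, map_one]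
  rw [← hw]
  norm_num

theorem u_ne_zero {Ω : Type} [Field Ω] [Algebra ℚ Ω] (u : Ω) (hu : Transcendental ℚ u) :
    u ≠ 0 := by
  rintro rfl
  exact hu isAlgebraic_zero

/-- two curves have isomorphic coordinate rings -/
theorem exists_rc_equiv {Ω Ω' : Type} [Field Ω] [Algebra ℚ Ω] [Field Ω'] [Algebra ℚ Ω']
    (u w : Ω) (hu : Transcendental ℚ u) (hw : w ^ 2 = u ^ 4 + 1)
    (u' w' : Ω') (hu' : Transcendental ℚ u') (hw' : w' ^ 2 = u' ^ 4 + 1) :
    ∃ e : Rc u w ≃+* Rc u' w', e ⟨u, u_mem u w⟩ = ⟨u', u_mem u' w'⟩ ∧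
      e ⟨w, w_mem u w⟩ = ⟨w', w_mem u' w'⟩ := by
  haveI : CharZero Ω := charZero_of_injective_algebraMap (algebraMap ℚ Ω).injective
  haveI : CharZero Ω' := charZero_of_injective_algebraMap (algebraMap ℚ Ω').injective
  have u0 := u_ne_zero u hu
  have w0 := w_ne_zero u w hu hw
  have u0' := u_ne_zero u' hu'
  have w0' := w_ne_zero u' w' hu' hw'
  obtain ⟨f, f1, f2⟩ := exists_hom u w hu hw u' w' u0' w0' hw'
  obtain ⟨g, g1, g2⟩ := exists_hom u' w' hu' hw' u w u0 w0 hw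
  let f' : Rc u w →+* Rc u' w' := f.codRestrict (Rc u' w') (rc_hom_range u w u0 w0 u' w' f f1 f2)
  let g' : Rc u' w' →+* Rc u w := g.codRestrict (Rc u w) (rc_hom_range u' w' u0' w0' u w g g1 g2)
  have f1' : f' ⟨u, u_mem u w⟩ = ⟨u', u_mem u' w'⟩ := Subtype.ext f1
  have f2' : f' ⟨w, w_mem u w⟩ = ⟨w', w_mem u' w'⟩ := Subtype.ext f2
  have g1' : g' ⟨u', u_mem u' w'⟩ = ⟨u, u_mem u w⟩ := Subtype.ext g1
  have g2' : g' ⟨w', w_mem u' w'⟩ = ⟨w, w_mem u w⟩ := Subtype.ext g2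
  have h1 : ((Rc u w).val.toRingHom).comp (g'.comp f') = (Rc u w).val.toRingHom := by
    refine rc_hom_ext u w u0 w0 _ _ ?_ ?_
    · change ((g' (f' _) : Rc u w) : Ω) = _
      rw [f1', g1']
      rfl
    · change ((g' (f' _) : Rc u w) : Ω) = _
      rw [f2', g2']
      rfl
  have h2 : ((Rc u' w').val.toRingHom).comp (f'.comp g') = (Rc u' w').val.toRingHom := by
    refine rc_hom_ext u' w' u0' w0' _ _ ?_ ?_
    · change ((f' (g' _) : Rc u' w') : Ω') = _
      rw [g1', f1']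
      rfl
    · change ((f' (g' _) : Rc u' w') : Ω') = _
      rw [g2', f2']
      rfl
  refine ⟨RingEquiv.ofRingHom f' g' ?_ ?_, f1', f2'⟩
  · refine RingHom.ext fun x => Subtype.ext ?_
    exact congrArg (fun h : Rc u' w' →+* Ω' => h x) h2
  · refine RingHom.ext fun x => Subtype.ext ?_
    exact congrArg (fun h : Rc u w →+* Ω => h x) h1

/-- two algebraic closures of the function field of the curve are isomorphic -/
theorem exists_om_equiv {Ω Ω' : Type} [Field Ω] [Algebra ℚ Ω] [Field Ω'] [Algebra ℚ Ω']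
    [IsAlgClosed Ω] [IsAlgClosed Ω']
    (u w : Ω) (hu : Transcendental ℚ u) (hw : w ^ 2 = u ^ 4 + 1)
    (halg : Algebra.IsAlgebraic (ff (Rc u w)) Ω)
    (u' w' : Ω') (hu' : Transcendental ℚ u') (hw' : w' ^ 2 = u' ^ 4 + 1)
    (halg' : Algebra.IsAlgebraic (ff (Rc u' w')) Ω') :
    ∃ φ : Ω ≃ₐ[ℚ] Ω', φ u = u' ∧ φ w = w' := by
  obtain ⟨e, e1, e2⟩ := exists_rc_equiv u w hu hw u' w' hu' hw'
  haveI : Algebra.IsAlgebraic (Rc u w) Ω :=
    ⟨fun z => isAlgebraic_of_ff _ z (halg.isAlgebraic z)⟩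
  haveI : Algebra.IsAlgebraic (Rc u' w') Ω' :=
    ⟨fun z => isAlgebraic_of_ff _ z (halg'.isAlgebraic z)⟩
  haveI : IsAlgClosure (Rc u w) Ω := ⟨inferInstance, inferInstance⟩
  haveI : IsAlgClosure (Rc u' w') Ω' := ⟨inferInstance, inferInstance⟩
  let ψ := IsAlgClosure.equivOfEquiv Ω Ω' e
  have hψ : ∀ x : Rc u w, ψ (x : Ω) = ((e x : Rc u' w') : Ω') := fun x =>
    IsAlgClosure.equivOfEquiv_algebraMap Ω Ω' e x
  refine ⟨AlgEquiv.ofRingEquiv (f := ψ) fun q => ?_, ?_, ?_⟩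
  · exact congrArg (fun h : ℚ →+* Ω' => h q)
      (RingHom.ext_rat ((ψ : Ω →+* Ω').comp (algebraMap ℚ Ω)) (algebraMap ℚ Ω'))
  · exact (hψ ⟨u, u_mem u w⟩).trans (congrArg Subtype.val e1)
  · exact (hψ ⟨w, w_mem u w⟩).trans (congrArg Subtype.val e2)

/-- transport of a section along an isomorphism -/
theorem strongSec_transport {k Ω Ω' : Type} [Field k] [Field Ω] [Algebra k Ω] [Field Ω']
    [Algebra k Ω'] (φ : Ω ≃ₐ[k] Ω') (R : Subalgebra k Ω) (R' : Subalgebra k Ω')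
    (hφ : ∀ x ∈ R, φ x ∈ R') (halg : Algebra.IsAlgebraic (ff R') Ω') (h : StrongSec R') :
    StrongSec R := by
  obtain ⟨s', hs', hs2⟩ := h
  have hff : ∀ x ∈ ff R, φ x ∈ ff R' := by
    intro x hx
    refine IntermediateField.adjoin_induction (F := k) (s := (R : Set Ω))
      (p := fun x _ => φ x ∈ ff R') ?_ ?_ ?_ ?_ ?_ hx
    · intro y hy
      exact IntermediateField.subset_adjoin k _ (hφ y hy)
    · intro a
      rw [φ.commutes]
      exact IntermediateField.algebraMap_mem _ a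
    · intro a b _ _ ha hb
      rw [map_add]
      exact add_mem ha hb
    · intro a _ ha
      rw [map_inv₀]
      exact inv_mem ha
    · intro a b _ _ ha hb
      rw [map_mul]
      exact mul_mem ha hb
  let e : kbar k Ω ≃ₐ[k] kbar k Ω' := algebraicClosure.algEquivOfAlgEquiv φ
  have he : ∀ θ : kbar k Ω, ((e θ : kbar k Ω') : Ω') = φ (θ : Ω) := fun θ => rfl
  let c : (kbar k Ω ≃ₐ[k] kbar k Ω) →* (kbar k Ω' ≃ₐ[k] kbar k Ω') :=
    (AlgEquiv.autCongr e).toMonoidHom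
  have hc : ∀ γ θ, c γ (e θ) = e (γ θ) := by
    intro γ θ
    change e (γ (e.symm (e θ))) = e (γ θ)
    rw [AlgEquiv.symm_apply_apply]
  have hcc : Continuous c := by
    refine continuous_of_stab c fun θ' => ?_
    obtain ⟨θ, rfl⟩ := e.surjective θ'
    have h1 : {γ | c γ (e θ) = e θ} = {γ | γ θ = θ} := by
      ext γ
      change c γ (e θ) = e θ ↔ γ θ = θ
      rw [hc, e.injective.eq_iff]
    rw [h1]
    exact isOpen_stab θ
  let τ : (Ω' ≃ₐ[ff R'] Ω') →* (Ω ≃ₐ[ff R] Ω) :=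
    { toFun := fun σ => AlgEquiv.ofRingEquiv
        (f := (φ.toRingEquiv.trans σ.toRingEquiv).trans φ.symm.toRingEquiv) fun x => by
          change φ.symm (σ (φ (x : Ω))) = (x : Ω)
          have h1 := σ.commutes ⟨φ (x : Ω), hff x x.2⟩
          change σ (φ (x : Ω)) = φ (x : Ω) at h1
          rw [h1, AlgEquiv.symm_apply_apply]
      map_one' := by
        refine AlgEquiv.ext fun x => ?_
        exact φ.symm_apply_apply x
      map_mul' := fun σ1 σ2 => by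
        refine AlgEquiv.ext fun x => ?_
        change φ.symm (σ1 (σ2 (φ x))) = φ.symm (σ1 (φ (φ.symm (σ2 (φ x)))))
        rw [AlgEquiv.apply_symm_apply] }
  have hτ : ∀ σ x, τ σ x = φ.symm (σ (φ x)) := fun σ x => rfl
  refine ⟨τ.comp (s'.comp c), ?_, ?_⟩
  · refine continuous_of_stab _ fun x => ?_
    have h1 : {γ | (τ.comp (s'.comp c)) γ x = x} =
        (fun γ => s' (c γ)) ⁻¹' {σ | σ (φ x) = φ x} := by
      ext γ
      change τ (s' (c γ)) x = x ↔ s' (c γ) (φ x) = φ x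
      rw [hτ]
      exact AlgEquiv.symm_apply_eq φ
    rw [h1]
    exact (isOpen_stab (φ x)).preimage (hs'.comp hcc)
  · intro γ θ
    change τ (s' (c γ)) (θ : Ω) = _
    rw [hτ, ← he, hs2, hc, he, AlgEquiv.symm_apply_apply]

/-- **the section of the absolute Galois group of the function field of the curve** -/
theorem strong {Ω : Type} [Field Ω] [Algebra ℚ Ω] [IsAlgClosed Ω]
    (u w : Ω) (hu : Transcendental ℚ u) (hw : w ^ 2 = u ^ 4 + 1)
    (halg : Algebra.IsAlgebraic (ff (Rc u w)) Ω) : StrongSec (Rc u w) := by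
  obtain ⟨Ω', _, _, _, u', w', hu', hw', halg', hs⟩ := exists_strong
  have halg1 : Algebra.IsAlgebraic (ff (Rc u' w')) Ω' := ⟨halg'⟩
  obtain ⟨φ, φu, φw⟩ := exists_om_equiv u w hu hw halg u' w' hu' hw' halg1
  refine strongSec_transport φ (Rc u w) (Rc u' w') ?_ halg1 hs
  intro y hy
  exact rc_hom_range u w (u_ne_zero u hu) (w_ne_zero u w hu hw) u' w'
    ((φ : Ω →+* Ω').comp (Rc u w).val.toRingHom) φu φw ⟨y, hy⟩

end Pool.Agent.Helper1.SX
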